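import Pool.Agent.P.MP_2f6447_an.H.Obst

/-! A smooth convex cut-off of the positive part and its Laplacian. -/

open Set Real MeasureTheory Filter Topology

namespace Pool.Agent.L2H

/-- data of a `C²` convex approximation of the positive part at scale `ε` -/
structure Cut (ε : ℝ) (f g g' : ℝ → ℝ) : Prop where
  cd : ContDiff ℝ 2 f
  d1 : ∀ s, HasDerivAt f (g s) s
  d2 : ∀ s, HasDerivAt g (g' s) s
  nn : ∀ s, 0 ≤ g' s
  f0 : ∀ s, s ≤ ε → f s = 0
  fle : ∀ s, f s ≤ max s 0
  gap : ∀ s, g s * s - f s ≤ 2 * ε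
  g0 : ∀ s, s ≤ ε → g s = 0
  g1 : ∀ s, 2 * ε ≤ s → g s = 1

theorem exists_cut {ε : ℝ} (hε : 0 < ε) : ∃ f g g', Cut ε f g g' := by
  set g : ℝ → ℝ := fun s => smoothTransition (s / ε - 1) with hg
  have hgc : ContDiff ℝ 1 g := by
    rw [hg]
    exact (smoothTransition.contDiff (n := 1)).comp (by fun_prop)
  have hgm : Monotone g := fun a b hab =>
    smoothTransition.monotone (by gcongr)
  have hg0 : ∀ s, s ≤ ε → g s = 0 := fun s hs =>
    smoothTransition.zero_of_nonpos (by rw [sub_nonpos, div_le_one hε]; exact hs)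
  have hg1 : ∀ s, 2 * ε ≤ s → g s = 1 := fun s hs =>
    smoothTransition.one_of_one_le (by rw [le_sub_iff_add_le, le_div_iff₀ hε]; linarith)
  have hgn : ∀ s, 0 ≤ g s := fun s => smoothTransition.nonneg _
  have hgl : ∀ s, g s ≤ 1 := fun s => smoothTransition.le_one _
  set f : ℝ → ℝ := fun s => ∫ t in (0 : ℝ)..s, g t with hf
  have hd1 : ∀ s, HasDerivAt f (g s) s := fun s =>
    (hgc.continuous.integral_hasStrictDerivAt 0 s).hasDerivAt
  have hdf : deriv f = g := funext fun s => (hd1 s).deriv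
  have hi : ∀ a b, IntervalIntegrable g volume a b := fun a b =>
    hgc.continuous.intervalIntegrable a b
  have hf0 : ∀ s, s ≤ ε → f s = 0 := by
    intro s hs
    have : ∫ t in (0 : ℝ)..s, g t = ∫ t in (0 : ℝ)..s, (0 : ℝ) := by
      refine intervalIntegral.integral_congr fun t ht => hg0 t ?_
      rcases mem_uIcc.mp ht with h | h <;> linarith [h.1, h.2]
    simpa using this
  have hfn : ∀ s, 0 ≤ f s := by
    intro s
    rcases le_total s 0 with h | h
    · exact (hf0 s (by linarith)).ge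
    · exact intervalIntegral.integral_nonneg h fun t _ => hgn t
  refine ⟨f, g, deriv g, ?_, hd1, fun s => (hgc.differentiable (by norm_num) s).hasDerivAt,
    fun s => hgm.deriv_nonneg, hf0, ?_, ?_, hg0, hg1⟩
  · have : ContDiff ℝ (1 + 1) f := by
      rw [contDiff_succ_iff_deriv]
      exact ⟨fun s => (hd1 s).differentiableAt, by simp, by rw [hdf]; exact hgc⟩
    exact this
  · intro s
    rcases le_total s 0 with h | h
    · rw [hf0 s (by linarith)]; exact le_max_right _ _
    · have := intervalIntegral.integral_mono_on h (hi 0 s)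
        (continuous_const.intervalIntegrable (u := fun _ => (1 : ℝ)) _ _) fun t _ => hgl t
      simp only [intervalIntegral.integral_const, sub_zero, smul_eq_mul, mul_one] at this
      exact this.trans (le_max_left _ _)
  · intro s
    rcases le_total s (2 * ε) with h | h
    · have h1 : g s * s ≤ 2 * ε := by
        rcases le_total s 0 with h' | h'
        · nlinarith [hgn s]
        · nlinarith [hgl s, hgn s]
      linarith [hfn s]
    · have e1 : f s = f (2 * ε) + ∫ t in (2 * ε)..s, g t :=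
        (intervalIntegral.integral_add_adjacent_intervals (hi _ _) (hi _ _)).symm
      have e2 : ∫ t in (2 * ε)..s, g t = ∫ t in (2 * ε)..s, (1 : ℝ) := by
        refine intervalIntegral.integral_congr fun t ht => hg1 t ?_
        rw [uIcc_of_le h] at ht
        exact ht.1
      rw [e1, e2, hg1 s h]
      simp only [intervalIntegral.integral_const, smul_eq_mul, mul_one]
      linarith [hfn (2 * ε)]

variable {Ω : Set (ℝ × ℝ)} {u : ℝ × ℝ → ℝ} {ε : ℝ} {f g g' : ℝ → ℝ}

theorem Cut.ev_zero (C : Cut ε f g g') (S : Sol Ω u) (hε : 0 < ε) {p : ℝ × ℝ} (hp : p ∉ Ω) :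
    (fun q => f (u q)) =ᶠ[𝓝 p] fun _ => 0 := by
  have : ∀ᶠ q in 𝓝 p, u q < ε :=
    S.continuous.continuousAt.eventually (gt_mem_nhds (by rw [S.zero p hp]; exact hε))
  filter_upwards [this] with q hq using C.f0 _ hq.le

theorem Cut.contDiff (C : Cut ε f g g') (S : Sol Ω u) (hε : 0 < ε) :
    ContDiff ℝ 2 fun q => f (u q) := by
  rw [contDiff_iff_contDiffAt]
  intro p
  by_cases hp : p ∈ Ω
  · exact C.cd.contDiffAt.comp p (S.contDiffAt hp)
  · exact contDiffAt_const.congr_of_eventuallyEq (C.ev_zero S hε hp)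

theorem dx_congr {F G : ℝ × ℝ → ℝ} {p : ℝ × ℝ} (h : F =ᶠ[𝓝 p] G) : dx F =ᶠ[𝓝 p] dx G := by
  filter_upwards [h.eventually_nhds] with q hq
  unfold dx
  rw [EventuallyEq.fderiv_eq hq]

theorem dy_congr {F G : ℝ × ℝ → ℝ} {p : ℝ × ℝ} (h : F =ᶠ[𝓝 p] G) : dy F =ᶠ[𝓝 p] dy G := by
  filter_upwards [h.eventually_nhds] with q hq
  unfold dy
  rw [EventuallyEq.fderiv_eq hq]

theorem dx_zero : dx (fun _ => (0 : ℝ)) = fun _ => 0 := by
  funext q; simp [dx]

theorem dy_zero : dy (fun _ => (0 : ℝ)) = fun _ => 0 := by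
  funext q; simp [dy]

theorem Cut.off (C : Cut ε f g g') (S : Sol Ω u) (hε : 0 < ε) {p : ℝ × ℝ} (hp : p ∉ Ω) :
    f (u p) = 0 ∧ dx (fun q => f (u q)) p = 0 ∧ dy (fun q => f (u q)) p = 0 ∧
      dx (dx fun q => f (u q)) p = 0 ∧ dy (dy fun q => f (u q)) p = 0 := by
  have h0 := C.ev_zero S hε hp
  have h1 := dx_congr h0
  have h2 := dy_congr h0
  rw [dx_zero] at h1
  rw [dy_zero] at h2
  have h3 := dx_congr h1
  have h4 := dy_congr h2
  rw [dx_zero] at h3
  rw [dy_zero] at h4
  exact ⟨h0.self_of_nhds, h1.self_of_nhds, h2.self_of_nhds, h3.self_of_nhds, h4.self_of_nhds⟩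

theorem Cut.lap (C : Cut ε f g g') (S : Sol Ω u) {p : ℝ × ℝ} (hp : p ∈ Ω) :
    dx (dx fun q => f (u q)) p + dy (dy fun q => f (u q)) p + f (u p) =
      g' (u p) * (dx u p ^ 2 + dy u p ^ 2) - (g (u p) * u p - f (u p)) := by
  have hd : ∀ q ∈ Ω, DifferentiableAt ℝ u q := fun q hq =>
    (S.contDiffAt hq).differentiableAt (by norm_num)
  have hΩ : ∀ᶠ q in 𝓝 p, q ∈ Ω := S.isOpen.mem_nhds hp
  have hgu : DifferentiableAt ℝ (fun q => g (u q)) p :=
    (C.d2 _).differentiableAt.comp p (hd p hp)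
  have e1 : dx (fun q => f (u q)) =ᶠ[𝓝 p] fun q => g (u q) * dx u q := by
    filter_upwards [hΩ] with q hq
    obtain ⟨x, y⟩ := q
    exact dx_eq ((C.d1 _).differentiableAt.comp _ (hd _ hq))
      ((C.d1 (u (x, y))).comp x (hasDerivAt_dx (hd _ hq)))
  have e2 : dy (fun q => f (u q)) =ᶠ[𝓝 p] fun q => g (u q) * dy u q := by
    filter_upwards [hΩ] with q hq
    obtain ⟨x, y⟩ := q
    exact dy_eq ((C.d1 _).differentiableAt.comp _ (hd _ hq))
      ((C.d1 (u (x, y))).comp y (hasDerivAt_dy (hd _ hq)))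
  have hx := (contDiffAt_dx (S.contDiffAt hp)).differentiableAt (by norm_num)
  have hy := (contDiffAt_dy (S.contDiffAt hp)).differentiableAt (by norm_num)
  have hh := S.helm p hp
  rw [(dx_congr e1).self_of_nhds, (dy_congr e2).self_of_nhds]
  obtain ⟨x, y⟩ := p
  rw [dx_eq (hgu.fun_mul hx) (((C.d2 (u (x, y))).comp x (hasDerivAt_dx (hd _ hp))).mul
      (hasDerivAt_dx hx)),
    dy_eq (hgu.fun_mul hy) (((C.d2 (u (x, y))).comp y (hasDerivAt_dy (hd _ hp))).mul
      (hasDerivAt_dy hy))]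
  simp only [Function.comp]
  have : dx (dx u) (x, y) = -(dy (dy u) (x, y)) - u (x, y) := by linarith
  rw [this]
  ring

end Pool.Agent.L2H
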