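import Pool.Agent.P.MP_2f6447_an.H.Obst

/-! Integrability of cut-off integrands and the upper bound for the slice mass. -/

open Set Real MeasureTheory Filter Topology Asymptotics

namespace Pool.Agent.L2H

variable {Ω : Set (ℝ × ℝ)} {u : ℝ × ℝ → ℝ}

theorem Sol.vol_ne_top (S : Sol Ω u) : volume Ω ≠ ⊤ := S.bdd.measure_lt_top.ne

theorem Sol.integrableOn (S : Sol Ω u) {F : ℝ × ℝ → ℝ} (hF : Measurable F) {M : ℝ}
    (hM : ∀ p, |F p| ≤ M) : IntegrableOn F Ω :=
  Measure.integrableOn_of_bounded S.vol_ne_top hF.aestronglyMeasurable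
    (Eventually.of_forall hM)

theorem integrable_of_box {g : ℝ → ℝ} (hg : Measurable g) {M W : ℝ} (hM : ∀ t, |g t| ≤ M)
    (hz : ∀ t, W ≤ |t| → g t = 0) : Integrable g := by
  have h1 : IntegrableOn g (Icc (-W) W) :=
    Measure.integrableOn_of_bounded measure_Icc_lt_top.ne hg.aestronglyMeasurable
      (Eventually.of_forall hM)
  refine (integrableOn_iff_integrable_of_support_subset fun t ht => ?_).mp h1
  by_contra h
  refine ht (hz t ?_)
  rw [mem_Icc, ← abs_le, not_le] at h
  exact h.le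

theorem abs_indicator_le {F : ℝ × ℝ → ℝ} {M : ℝ} (hM : ∀ p, |F p| ≤ M) (p : ℝ × ℝ) :
    |Ω.indicator F p| ≤ M := by
  by_cases hp : p ∈ Ω
  · rw [indicator_of_mem hp]; exact hM p
  · rw [indicator_of_notMem hp, abs_zero]; exact (abs_nonneg _).trans (hM p)

theorem Sol.integrable_fst (S : Sol Ω u) {F : ℝ × ℝ → ℝ} (hF : Measurable F) {M : ℝ}
    (hM : ∀ p, |F p| ≤ M) (y : ℝ) : Integrable fun x => Ω.indicator F (x, y) := by
  obtain ⟨W, -, hW⟩ := S.box
  refine integrable_of_box (W := W) ((hF.indicator S.isOpen.measurableSet).comp (by fun_prop))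
    (fun t => abs_indicator_le hM _) fun t ht => indicator_of_notMem (fun h => ?_) _
  exact absurd (hW _ h).1 (not_lt.mpr ht)

theorem Sol.integrable_snd (S : Sol Ω u) {F : ℝ × ℝ → ℝ} (hF : Measurable F) {M : ℝ}
    (hM : ∀ p, |F p| ≤ M) (x : ℝ) : Integrable fun y => Ω.indicator F (x, y) := by
  obtain ⟨W, -, hW⟩ := S.box
  refine integrable_of_box (W := W) ((hF.indicator S.isOpen.measurableSet).comp (by fun_prop))
    (fun t => abs_indicator_le hM _) fun t ht => indicator_of_notMem (fun h => ?_) _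
  exact absurd (hW _ h).2 (not_lt.mpr ht)

theorem hasDerivAt_sq_zero {v : ℝ → ℝ} {K : NNReal} (hv : LipschitzWith K v) {t : ℝ}
    (h0 : v t = 0) : HasDerivAt (fun s => v s ^ 2) 0 t := by
  rw [hasDerivAt_iff_isLittleO]
  have h1 : (fun s => v s ^ 2) =O[𝓝 t] fun s => (s - t) ^ 2 := by
    refine IsBigO.of_bound ((K : ℝ) ^ 2) (Eventually.of_forall fun s => ?_)
    have a := hv.dist_le_mul s t
    rw [Real.dist_eq, Real.dist_eq, h0, sub_zero] at a
    have c := pow_le_pow_left₀ (abs_nonneg _) a 2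
    rw [Real.norm_eq_abs, Real.norm_eq_abs, abs_of_nonneg (sq_nonneg _),
      abs_of_nonneg (sq_nonneg _)]
    rw [mul_pow, sq_abs, sq_abs] at c
    exact c
  have h2 : (fun s => (s - t) ^ 2) =o[𝓝 t] fun s => s - t :=
    (isLittleO_pow_sub_sub t (by norm_num : 1 < 2)).congr_left fun s => by
      rw [Real.norm_eq_abs, sq_abs]
  refine (h1.trans_isLittleO h2).congr_left fun s => ?_
  simp [h0]

theorem Sol.hasDerivAt_sq (S : Sol Ω u) (x t : ℝ) :
    HasDerivAt (fun s => u (x, s) ^ 2) (2 * u (x, t) * dy u (x, t)) t := by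
  by_cases h0 : u (x, t) = 0
  · obtain ⟨K, hK⟩ := S.lip
    have := hasDerivAt_sq_zero (v := fun s => u (x, s)) (hK.comp (LipschitzWith.prodMk_left x)) h0
    rw [h0]
    simpa using this
  · have h1 := hasDerivAt_dy ((S.contDiffAt (S.mem_of_ne h0)).differentiableAt (by norm_num))
    simpa using h1.fun_pow 2

theorem Sol.two_sq_le (S : Sol Ω u) (x y : ℝ) : 2 * u (x, y) ^ 2 ≤
    ∫ t, Ω.indicator (fun p => 0.7 * u p ^ 2 + 10 / 7 * dy u p ^ 2) (x, t) := by
  obtain ⟨W, hW0, hW⟩ := S.box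
  obtain ⟨M, hM0, hM⟩ := S.exists_bound
  obtain ⟨K, hK0, hK⟩ := S.abs_dx_le
  set F : ℝ × ℝ → ℝ := fun p => 0.7 * u p ^ 2 + 10 / 7 * dy u p ^ 2 with hF
  have hFm : Measurable F :=
    ((S.continuous.measurable.pow_const 2).const_mul _).add
      (((measurable_dy u).pow_const 2).const_mul _)
  have hF0 : ∀ p, 0 ≤ F p := fun p => by positivity
  have hFb : ∀ p, |F p| ≤ 0.7 * M ^ 2 + 10 / 7 * K ^ 2 := fun p => by
    rw [abs_of_nonneg (hF0 p)]
    have a := sq_le_sq' (abs_le.mp (hM p)).1 (abs_le.mp (hM p)).2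
    have b := sq_le_sq' (abs_le.mp (hK p).2).1 (abs_le.mp (hK p).2).2
    simp only [hF]
    linarith
  have hi := S.integrable_snd hFm hFb x
  have hn : ∀ t, 0 ≤ Ω.indicator F (x, t) := fun t => indicator_nonneg (fun p _ => hF0 p) _
  have hz : ∀ t, W ≤ |t| → u (x, t) = 0 := fun t ht =>
    S.zero _ fun h => absurd (hW _ h).2 (not_lt.mpr ht)
  by_cases hy : W ≤ |y|
  · rw [hz y hy]
    simpa using integral_nonneg hn
  obtain ⟨hy1, hy2⟩ := abs_lt.mp (not_le.mp hy)
  have hb : ∀ t, |2 * u (x, t) * dy u (x, t)| ≤ Ω.indicator F (x, t) := by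
    intro t
    by_cases hp : (x, t) ∈ Ω
    · rw [indicator_of_mem hp, abs_le]
      simp only [hF]
      constructor
      · nlinarith [sq_nonneg (0.7 * u (x, t) + dy u (x, t))]
      · nlinarith [sq_nonneg (0.7 * u (x, t) - dy u (x, t))]
    · rw [indicator_of_notMem hp, S.zero _ hp]
      simp
  have h1 := intervalIntegral.sub_le_integral_of_hasDeriv_right_of_le hy1.le
    (g := fun s => u (x, s) ^ 2)
    (fun t _ => (S.hasDerivAt_sq x t).continuousAt.continuousWithinAt)
    (fun t _ => (S.hasDerivAt_sq x t).hasDerivWithinAt) hi.integrableOn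
    (fun t _ => (abs_le.mp (hb t)).2)
  have h2 := intervalIntegral.sub_le_integral_of_hasDeriv_right_of_le hy2.le
    (g := fun s => -u (x, s) ^ 2)
    (fun t _ => (S.hasDerivAt_sq x t).neg.continuousAt.continuousWithinAt)
    (fun t _ => (S.hasDerivAt_sq x t).neg.hasDerivWithinAt) hi.integrableOn
    (fun t _ => by linarith [(abs_le.mp (hb t)).1])
  have h3 := intervalIntegral.integral_add_adjacent_intervals
    (hi.intervalIntegrable (a := -W) (b := y)) (hi.intervalIntegrable (a := y) (b := W))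
  have h4 : ∫ t in (-W)..W, Ω.indicator F (x, t) ≤ ∫ t, Ω.indicator F (x, t) := by
    rw [intervalIntegral.integral_of_le (by linarith)]
    exact setIntegral_le_integral hi (Eventually.of_forall hn)
  have e1 := hz (-W) (by rw [abs_neg]; exact le_abs_self W)
  have e2 := hz W (le_abs_self W)
  simp only [e1, e2] at h1 h2
  nlinarith

theorem Sol.integrable_sq (S : Sol Ω u) (y : ℝ) {g : ℝ → ℝ} (hg : Continuous g) (h0 : g 0 = 0) :
    Integrable fun x => g (u (x, y)) := by
  obtain ⟨W, -, hW⟩ := S.box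
  have hc : Continuous fun x => g (u (x, y)) := hg.comp (S.continuous.comp (by fun_prop))
  refine (integrableOn_iff_integrable_of_support_subset (s := Icc (-W) W) fun t ht => ?_).mp
    hc.continuousOn.integrableOn_Icc
  by_contra h
  rw [mem_Icc, ← abs_le, not_le] at h
  refine ht ?_
  show g (u (t, y)) = 0
  rw [S.slice_zero (fun p hp => (hW p hp).1) y h.le, h0]

theorem Sol.rho_le (S : Sol Ω u) (y : ℝ) :
    2 * rho u y ≤ 0.7 * (∫ p in Ω, u p ^ 2) + 10 / 7 * ∫ p in Ω, dy u p ^ 2 := by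
  obtain ⟨M, hM0, hM⟩ := S.exists_bound
  obtain ⟨K, hK0, hK⟩ := S.abs_dx_le
  have i1 : IntegrableOn (fun p => u p ^ 2) Ω :=
    S.integrableOn (S.continuous.measurable.pow_const 2) (M := M ^ 2) fun p => by
      rw [abs_pow]; exact pow_le_pow_left₀ (abs_nonneg _) (hM p) 2
  have i2 : IntegrableOn (fun p => dy u p ^ 2) Ω :=
    S.integrableOn ((measurable_dy u).pow_const 2) (M := K ^ 2) fun p => by
      rw [abs_pow]; exact pow_le_pow_left₀ (abs_nonneg _) (hK p).2 2
  have i3 : Integrable (Ω.indicator fun p => 0.7 * u p ^ 2 + 10 / 7 * dy u p ^ 2)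
      ((volume : Measure ℝ).prod volume) :=
    (integrable_indicator_iff S.isOpen.measurableSet).mpr ((i1.const_mul _).add (i2.const_mul _))
  rw [← integral_const_mul, ← integral_const_mul, ← integral_add (i1.const_mul _) (i2.const_mul _),
    ← integral_indicator S.isOpen.measurableSet, Measure.volume_eq_prod, integral_prod _ i3]
  unfold rho
  rw [← integral_const_mul]
  refine integral_mono ((S.integrable_sq y (g := fun s => max s 0 ^ 2) (by fun_prop)
    (by simp)).const_mul 2) i3.integral_prod_left fun x => ?_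
  refine le_trans ?_ (S.two_sq_le x y)
  have : max (u (x, y)) 0 ^ 2 ≤ u (x, y) ^ 2 := by
    rcases le_total (u (x, y)) 0 with h | h
    · rw [max_eq_right h]; simpa using sq_nonneg _
    · rw [max_eq_left h]
  simp only
  linarith

end Pool.Agent.L2H
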