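import Pool.Agent.P.MP_2f6447_an.H.CPoly
import Pool.Agent.P.MP_2f6447_an.H.Rb
import Pool.Agent.P.MP_2f6447_an.H.Cut

/-! The `C¹` test function of the competitor, in coordinates. -/

open Set Real MeasureTheory Filter Topology

namespace Pool.Agent.L2H

theorem hasDerivAt_pos_sq (t : ℝ) : HasDerivAt (fun s : ℝ => max s 0 ^ 2) (2 * max t 0) t := by
  rcases lt_trichotomy t 0 with h | h | h
  · rw [max_eq_right h.le, mul_zero]
    refine (hasDerivAt_const t (0 : ℝ)).congr_of_eventuallyEq ?_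
    filter_upwards [Iio_mem_nhds h] with s hs
    rw [max_eq_right (le_of_lt hs)]
    simp
  · have := hasDerivAt_sq_zero (v := fun s : ℝ => max s 0) (LipschitzWith.id.max_const 0)
      (t := t) (by simp [h])
    simpa [h] using this
  · rw [max_eq_left h.le]
    have h2 : HasDerivAt (fun s : ℝ => s ^ 2) (2 * t) t := by simpa using hasDerivAt_pow 2 t
    refine h2.congr_of_eventuallyEq ?_
    filter_upwards [Ioi_mem_nhds h] with s hs
    rw [max_eq_left (le_of_lt hs)]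

theorem contDiff_pos_sq : ContDiff ℝ 1 fun s : ℝ => max s 0 ^ 2 := by
  rw [contDiff_one_iff_deriv]
  refine ⟨fun t => (hasDerivAt_pos_sq t).differentiableAt, ?_⟩
  have : deriv (fun s : ℝ => max s 0 ^ 2) = fun t => 2 * max t 0 :=
    funext fun t => (hasDerivAt_pos_sq t).deriv
  rw [this]
  fun_prop

/-- the half domain -/
def Dhalf : Set (ℝ × ℝ) := {p | p.1 ∈ Ioo (-1 : ℝ) 1 ∧ p.2 ∈ Ioo 0 (2 - p.1 ^ 2 / 2)}

/-- the square of the test polynomial, cut off outside the half domain -/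
noncomputable def Hsq (p : ℝ × ℝ) : ℝ :=
  max p.2 0 ^ 2 * max (2 - p.1 ^ 2 / 2 - p.2) 0 ^ 2 * max (1 - p.1 ^ 2) 0 ^ 2 *
    (1 + p.2 / 2 - p.2 ^ 2 / 3 + p.2 * p.1 ^ 2 / 2) ^ 2

/-- the test function -/
noncomputable def Ftest (p : ℝ × ℝ) : ℝ := √(Hsq p + 0.0001 ^ 2) - 0.0001

theorem isOpen_Dhalf : IsOpen Dhalf := by
  have : Dhalf = {p : ℝ × ℝ | -1 < p.1} ∩ {p | p.1 < 1} ∩ ({p | 0 < p.2} ∩
      {p | p.2 < 2 - p.1 ^ 2 / 2}) := rfl
  rw [this]
  exact ((isOpen_lt (by fun_prop) (by fun_prop)).inter (isOpen_lt (by fun_prop) (by fun_prop))).inter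
    ((isOpen_lt (by fun_prop) (by fun_prop)).inter (isOpen_lt (by fun_prop) (by fun_prop)))

theorem Hsq_nonneg (p : ℝ × ℝ) : 0 ≤ Hsq p := by unfold Hsq; positivity

theorem contDiff_Hsq : ContDiff ℝ 1 Hsq := by
  unfold Hsq
  exact (((contDiff_pos_sq.comp contDiff_snd).mul (contDiff_pos_sq.comp (by fun_prop))).mul
    (contDiff_pos_sq.comp (by fun_prop))).mul (by fun_prop)

theorem Hsq_in {p : ℝ × ℝ} (hp : p ∈ Dhalf) : Hsq p = fpol p.1 p.2 ^ 2 := by
  obtain ⟨⟨a, b⟩, c, d⟩ := hp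
  unfold Hsq fpol
  rw [max_eq_left c.le, max_eq_left (by linarith), max_eq_left (by nlinarith)]
  ring

theorem Hsq_out {p : ℝ × ℝ} (hp : p ∉ Dhalf) : Hsq p = 0 := by
  unfold Hsq
  by_cases c : p.2 ≤ 0
  · simp [max_eq_right c]
  by_cases d : 2 - p.1 ^ 2 / 2 - p.2 ≤ 0
  · simp [max_eq_right d]
  by_cases e : 1 - p.1 ^ 2 ≤ 0
  · simp [max_eq_right e]
  rw [not_le] at c d e
  exact absurd ⟨⟨by nlinarith, by nlinarith⟩, c, by linarith⟩ hp

theorem contDiff_Ftest : ContDiff ℝ 1 Ftest := by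
  unfold Ftest
  refine ((contDiff_Hsq.add contDiff_const).sqrt fun p => ?_).sub contDiff_const
  have := Hsq_nonneg p
  positivity

theorem Ftest_nonneg (p : ℝ × ℝ) : 0 ≤ Ftest p := by
  have : (0.0001 : ℝ) ≤ √(Hsq p + 0.0001 ^ 2) :=
    Real.le_sqrt_of_sq_le (by linarith [Hsq_nonneg p])
  unfold Ftest
  linarith

theorem Ftest_out {p : ℝ × ℝ} (hp : p ∉ Dhalf) : Ftest p = 0 := by
  unfold Ftest
  rw [Hsq_out hp, zero_add, Real.sqrt_sq (by norm_num), sub_self]

theorem Ftest_ne : Ftest (0, 1) ≠ 0 := by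
  have h : ((0, 1) : ℝ × ℝ) ∈ Dhalf := ⟨⟨by norm_num, by norm_num⟩, by norm_num, by norm_num⟩
  have : (0.0001 : ℝ) < √(Hsq (0, 1) + 0.0001 ^ 2) := by
    refine Real.lt_sqrt_of_sq_lt ?_
    rw [Hsq_in h]
    norm_num [fpol]
  unfold Ftest
  linarith

theorem sqrt_deriv_sq {f f' e : ℝ} (he : 0 < e) :
    (2 * f * f' / (2 * √(f ^ 2 + e ^ 2))) ^ 2 ≤ f' ^ 2 := by
  have h0 : 0 < f ^ 2 + e ^ 2 := by positivity
  rw [div_pow, div_le_iff₀ (by have := Real.sqrt_pos.mpr h0; positivity), mul_pow 2 (√_),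
    Real.sq_sqrt h0.le]
  nlinarith [mul_nonneg (sq_nonneg f') (sq_nonneg e)]

theorem ppol_le {p : ℝ × ℝ} (hp : p ∈ Dhalf) :
    ppol p.1 p.2 ≤ 5.22 * Ftest p ^ 2 - (dx Ftest p ^ 2 + dy Ftest p ^ 2) := by
  obtain ⟨s, t⟩ := p
  have hd : DifferentiableAt ℝ Ftest (s, t) := contDiff_Ftest.differentiable one_ne_zero _
  have hne : fpol s t ^ 2 + (0.0001 : ℝ) ^ 2 ≠ 0 := by positivity
  have h1 : dx Ftest (s, t) = 2 * fpol s t * fpolS s t / (2 * √(fpol s t ^ 2 + 0.0001 ^ 2)) := by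
    have a : HasDerivAt (fun y => fpol y t ^ 2) (2 * fpol s t * fpolS s t) s := by
      simpa using (hasDerivAt_fpolS s t).fun_pow 2
    refine (hasDerivAt_dx hd).unique
      ((((a.add_const (0.0001 ^ 2)).sqrt hne).sub_const 0.0001).congr_of_eventuallyEq ?_)
    have hc : Continuous fun y : ℝ => ((y, t) : ℝ × ℝ) := by fun_prop
    filter_upwards [(isOpen_Dhalf.preimage hc).mem_nhds hp] with y hy
    unfold Ftest
    rw [Hsq_in hy]
  have h2 : dy Ftest (s, t) = 2 * fpol s t * fpolT s t / (2 * √(fpol s t ^ 2 + 0.0001 ^ 2)) := by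
    have a : HasDerivAt (fun y => fpol s y ^ 2) (2 * fpol s t * fpolT s t) t := by
      simpa using (hasDerivAt_fpolT s t).fun_pow 2
    refine (hasDerivAt_dy hd).unique
      ((((a.add_const (0.0001 ^ 2)).sqrt hne).sub_const 0.0001).congr_of_eventuallyEq ?_)
    have hc : Continuous fun y : ℝ => ((s, y) : ℝ × ℝ) := by fun_prop
    filter_upwards [(isOpen_Dhalf.preimage hc).mem_nhds hp] with y hy
    unfold Ftest
    rw [Hsq_in hy]
  have h3 : (1 - 0.0001) * fpol s t ^ 2 - 0.0001 ≤ Ftest (s, t) ^ 2 := by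
    unfold Ftest
    rw [Hsq_in hp]
    have a := Real.sq_sqrt (by positivity : (0 : ℝ) ≤ fpol s t ^ 2 + 0.0001 ^ 2)
    simp only
    nlinarith [sq_nonneg (√(fpol s t ^ 2 + 0.0001 ^ 2) - 1)]
  rw [h1, h2]
  have h4 := sqrt_deriv_sq (f := fpol s t) (f' := fpolS s t) (by norm_num : (0 : ℝ) < 0.0001)
  have h5 := sqrt_deriv_sq (f := fpol s t) (f' := fpolT s t) (by norm_num : (0 : ℝ) < 0.0001)
  unfold ppol
  simp only
  linarith

theorem Dhalf_subset : Dhalf ⊆ Icc (-1 : ℝ) 1 ×ˢ Icc (0 : ℝ) 2 := by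
  rintro p ⟨⟨a, b⟩, c, d⟩
  exact ⟨⟨a.le, b.le⟩, c.le, by nlinarith⟩

theorem integral_Dhalf : 0 ≤ ∫ p in Dhalf, ppol p.1 p.2 := by
  have hi : IntegrableOn (fun p : ℝ × ℝ => ppol p.1 p.2) Dhalf :=
    (continuous_ppol.continuousOn.integrableOn_compact
      (isCompact_Icc.prod isCompact_Icc)).mono_set Dhalf_subset
  have hm := isOpen_Dhalf.measurableSet
  have hi' : Integrable (Dhalf.indicator fun p : ℝ × ℝ => ppol p.1 p.2)
      ((volume : Measure ℝ).prod volume) := (integrable_indicator_iff hm).mpr hi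
  rw [← integral_indicator hm, Measure.volume_eq_prod, integral_prod _ hi']
  have e : ∀ s : ℝ, ∫ t, Dhalf.indicator (fun p : ℝ × ℝ => ppol p.1 p.2) (s, t) =
      (Ioo (-1 : ℝ) 1).indicator rpol s := by
    intro s
    by_cases hs : s ∈ Ioo (-1 : ℝ) 1
    · have hl : (0 : ℝ) ≤ 2 - s ^ 2 / 2 := by nlinarith [hs.1, hs.2]
      rw [indicator_of_mem hs, ← integral_ppol, intervalIntegral.integral_of_le hl,
        integral_Ioc_eq_integral_Ioo, ← integral_indicator measurableSet_Ioo]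
      refine integral_congr_ae (Eventually.of_forall fun t => ?_)
      by_cases ht : t ∈ Ioo 0 (2 - s ^ 2 / 2)
      · simp only [indicator_of_mem ht, indicator_of_mem (show (s, t) ∈ Dhalf from ⟨hs, ht⟩)]
      · simp only [indicator_of_notMem ht,
          indicator_of_notMem (show (s, t) ∉ Dhalf from fun h => ht h.2)]
    · rw [indicator_of_notMem hs]
      simp only [indicator_of_notMem (show (s, _) ∉ Dhalf from fun h => hs h.1), integral_zero]
  simp only [e]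
  rw [integral_indicator measurableSet_Ioo, ← integral_Ioc_eq_integral_Ioo,
    ← intervalIntegral.integral_of_le (by norm_num)]
  exact integral_rpol

theorem fderiv_Ftest_out {p : ℝ × ℝ} (hp : p ∉ Dhalf) : fderiv ℝ Ftest p = 0 :=
  IsLocalMin.fderiv_eq_zero (Eventually.of_forall fun q => by
    rw [Ftest_out hp]; exact Ftest_nonneg q)

theorem rayleigh_Ftest : ∫ p, (dx Ftest p ^ 2 + dy Ftest p ^ 2) ≤ 5.22 * ∫ p, Ftest p ^ 2 := by
  have hm := isOpen_Dhalf.measurableSet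
  have hK : IsCompact (Icc (-1 : ℝ) 1 ×ˢ Icc (0 : ℝ) 2) := isCompact_Icc.prod isCompact_Icc
  have c0 := contDiff_Ftest.continuous
  have c1 : Continuous (fderiv ℝ Ftest) := contDiff_Ftest.continuous_fderiv one_ne_zero
  have c2 : Continuous fun p => dx Ftest p ^ 2 + dy Ftest p ^ 2 := by
    unfold dx dy
    fun_prop
  have i1 : IntegrableOn (fun p => dx Ftest p ^ 2 + dy Ftest p ^ 2) Dhalf :=
    (c2.continuousOn.integrableOn_compact hK).mono_set Dhalf_subset
  have i2 : IntegrableOn (fun p => 5.22 * Ftest p ^ 2) Dhalf :=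
    ((Continuous.continuousOn (by fun_prop)).integrableOn_compact hK).mono_set Dhalf_subset
  have i3 : IntegrableOn (fun p : ℝ × ℝ => ppol p.1 p.2) Dhalf :=
    (continuous_ppol.continuousOn.integrableOn_compact hK).mono_set Dhalf_subset
  have i4 : IntegrableOn (fun p => 5.22 * Ftest p ^ 2 - (dx Ftest p ^ 2 + dy Ftest p ^ 2)) Dhalf :=
    i2.sub i1
  have h := integral_Dhalf.trans (setIntegral_mono_on i3 i4 hm fun p hp => ppol_le hp)
  rw [integral_sub i2 i1, setIntegral_eq_integral_of_forall_compl_eq_zero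
      (fun p hp => by rw [Ftest_out hp]; simp),
    setIntegral_eq_integral_of_forall_compl_eq_zero
      (fun p hp => by simp [dx, dy, fderiv_Ftest_out hp]), integral_const_mul] at h
  linarith

end Pool.Agent.L2H
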