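import Pool.Agent.P.MP_2f6447_an.H.Num

/-! Polynomial integrals for the competitor. -/

open Set Real MeasureTheory

namespace Pool.Agent.L2H

/-- the test polynomial, `s` vertical and `t` horizontal -/
noncomputable def fpol (s t : ℝ) : ℝ :=
  t * (2 - s ^ 2 / 2 - t) * (1 - s ^ 2) * (1 + t / 2 - t ^ 2 / 3 + t * s ^ 2 / 2)

/-- derivative of `fpol` in `t` -/
noncomputable def fpolT (s t : ℝ) : ℝ :=
  (2) * t ^ 0 * s ^ 0 + (-5 / 2) * t ^ 0 * s ^ 2 + (1 / 2) * t ^ 0 * s ^ 4 +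
  (3 / 2) * t ^ 1 * s ^ 2 + (-2) * t ^ 1 * s ^ 4 + (1 / 2) * t ^ 1 * s ^ 6 +
  (-7 / 2) * t ^ 2 * s ^ 0 + (5 / 2) * t ^ 2 * s ^ 2 + (1) * t ^ 2 * s ^ 4 +
  (4 / 3) * t ^ 3 * s ^ 0 + (-4 / 3) * t ^ 3 * s ^ 2

/-- derivative of `fpol` in `s` -/
noncomputable def fpolS (s t : ℝ) : ℝ :=
  (-5) * t ^ 1 * s ^ 1 + (2) * t ^ 1 * s ^ 3 + (3 / 2) * t ^ 2 * s ^ 1 + (-4) * t ^ 2 * s ^ 3 +
  (3 / 2) * t ^ 2 * s ^ 5 + (5 / 3) * t ^ 3 * s ^ 1 + (4 / 3) * t ^ 3 * s ^ 3 +
  (-2 / 3) * t ^ 4 * s ^ 1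

/-- the integrand whose integral over the half domain is nonnegative -/
noncomputable def ppol (s t : ℝ) : ℝ :=
  5.22 * ((1 - 0.0001) * fpol s t ^ 2 - 0.0001) - (fpolS s t ^ 2 + fpolT s t ^ 2)

/-- the inner integral of `ppol` -/
noncomputable def rpol (s : ℝ) : ℝ :=
  (96007523 / 26250000) * s ^ 0 + (-9569987909 / 567000000) * s ^ 2 +
  (29157757 / 31500000) * s ^ 4 + (3276258269 / 157500000) * s ^ 6 +
  (-16411205411 / 3780000000) * s ^ 8 + (-24989934193 / 1440000000) * s ^ 10 +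
  (91443741467 / 5760000000) * s ^ 12 + (-304408508273 / 48384000000) * s ^ 14 +
  (432868365997 / 322560000000) * s ^ 16 + (-782549483 / 5040000000) * s ^ 18 +
  (24927163561 / 2903040000000) * s ^ 20 + (-2545301 / 17920000000) * s ^ 22

theorem hasDerivAt_fpolT (s t : ℝ) : HasDerivAt (fun x => fpol s x) (fpolT s t) t := by
  have h := ((((hasDerivAt_id' t).mul ((hasDerivAt_id' t).const_sub (2 - s ^ 2 / 2))).mul_const
    (1 - s ^ 2)).mul (((((hasDerivAt_id' t).div_const 2).const_add 1).sub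
      ((hasDerivAt_pow 2 t).div_const 3)).add
      (((hasDerivAt_id' t).mul_const (s ^ 2)).div_const 2)))
  refine h.congr_deriv ?_
  simp only [Pi.mul_apply, Pi.add_apply, Pi.sub_apply, fpolT]
  push_cast
  ring

theorem hasDerivAt_fpolS (s t : ℝ) : HasDerivAt (fun y => fpol y t) (fpolS s t) s := by
  have h := (((((((hasDerivAt_pow 2 s).div_const 2).const_sub 2).sub_const t).const_mul t).mul
    ((hasDerivAt_pow 2 s).const_sub 1)).mul
      ((((hasDerivAt_pow 2 s).const_mul t).div_const 2).const_add (1 + t / 2 - t ^ 2 / 3)))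
  refine h.congr_deriv ?_
  simp only [Pi.mul_apply, fpolS]
  push_cast
  ring

theorem continuous_ppol : Continuous fun p : ℝ × ℝ => ppol p.1 p.2 := by
  unfold ppol fpol fpolS fpolT
  fun_prop

theorem integral_ppol (s : ℝ) : ∫ t in (0 : ℝ)..(2 - s ^ 2 / 2), ppol s t = rpol s := by
  have hF : ∀ t : ℝ, HasDerivAt (fun x : ℝ =>
      (
        (-2000261 / 500000) * s ^ 0 + (10) * s ^ 2 + (-33 / 4) * s ^ 4 + (5 / 2) * s ^ 6 +
        (-1 / 4) * s ^ 8) * x ^ (0 + 1) +
      (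
        (-3) * s ^ 2 + (31 / 4) * s ^ 4 + (-27 / 4) * s ^ 6 + (9 / 4) * s ^ 8 +
        (-1 / 4) * s ^ 10) * x ^ (1 + 1) +
      (
        (4359739 / 375000) * s ^ 0 + (-1744913 / 50000) * s ^ 2 + (145621387 / 6000000) * s ^ 4 +
        (-569913 / 200000) * s ^ 6 + (-10390261 / 6000000) * s ^ 8 + (2 / 3) * s ^ 10 +
        (-1 / 12) * s ^ 12) * x ^ (2 + 1) +
      (
        (-4 / 3) * s ^ 0 + (26579217 / 2000000) * s ^ 2 + (-231901909 / 8000000) * s ^ 4 +
        (468388859 / 24000000) * s ^ 6 + (-32487651 / 8000000) * s ^ 8 +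
        (609739 / 8000000) * s ^ 10) * x ^ (3 + 1) +
      (
        (-9151891 / 1250000) * s ^ 0 + (45457129 / 3000000) * s ^ 2 +
        (17292871 / 8000000) * s ^ 4 + (-24839391 / 2500000) * s ^ 6 +
        (254999299 / 60000000) * s ^ 8 + (-4859739 / 5000000) * s ^ 10 +
        (2609739 / 40000000) * s ^ 12) * x ^ (4 + 1) +
      (
        (6109739 / 2250000) * s ^ 0 + (-314755123 / 36000000) * s ^ 2 +
        (90284171 / 12000000) * s ^ 4 + (-609739 / 1440000) * s ^ 6 +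
        (-10609739 / 12000000) * s ^ 8 + (289971 / 2000000) * s ^ 10) * x ^ (5 + 1) +
      (
        (95877211 / 126000000) * s ^ 0 + (-21426607 / 31500000) * s ^ 2 +
        (-65087651 / 25200000) * s ^ 4 + (2689739 / 2520000) * s ^ 6 +
        (-289971 / 7000000) * s ^ 8) * x ^ (6 + 1) +
      (
        (-2029797 / 4000000) * s ^ 0 + (10329217 / 9000000) * s ^ 2 +
        (170783 / 36000000) * s ^ 4 + (-289971 / 2000000) * s ^ 6) * x ^ (7 + 1) +
      (
        (32219 / 500000) * s ^ 0 + (-3609739 / 20250000) * s ^ 2 + (32219 / 500000) * s ^ 4) * x ^ (8 + 1)) (ppol s t) t := by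
    intro t
    refine (
      ((((((((hd_pow _ 0 t).add (hd_pow _ 1 t)).add (hd_pow _ 2 t)).add (hd_pow _ 3
      t)).add (hd_pow _ 4 t)).add (hd_pow _ 5 t)).add (hd_pow _ 6 t)).add (hd_pow _ 7
      t)).add (hd_pow _ 8 t)).congr_deriv ?_
    unfold ppol fpol fpolS fpolT
    push_cast
    ring
  have hc : Continuous fun t => ppol s t := continuous_ppol.comp (Continuous.prodMk_right s)
  rw [intervalIntegral.integral_eq_sub_of_hasDerivAt (fun t _ => hF t) (hc.intervalIntegrable _ _)]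
  unfold rpol
  ring

theorem continuous_rpol : Continuous rpol := by
  unfold rpol
  fun_prop

theorem integral_rpol : 0 ≤ ∫ s in (-1 : ℝ)..1, rpol s := by
  have hF : ∀ t : ℝ, HasDerivAt (fun x : ℝ =>
      (96007523 / 26250000) * x ^ (0 + 1) + (-9569987909 / 1701000000) * x ^ (2 + 1) +
      (29157757 / 157500000) * x ^ (4 + 1) + (3276258269 / 1102500000) * x ^ (6 + 1) +
      (-16411205411 / 34020000000) * x ^ (8 + 1) + (-24989934193 / 15840000000) * x ^ (10 + 1) +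
      (7034133959 / 5760000000) * x ^ (12 + 1) + (-304408508273 / 725760000000) * x ^ (14 + 1) +
      (432868365997 / 5483520000000) * x ^ (16 + 1) + (-782549483 / 95760000000) * x ^ (18 + 1) +
      (24927163561 / 60963840000000) * x ^ (20 + 1) + (-2545301 / 412160000000) * x ^ (22 + 1)) (rpol t) t := by
    intro t
    refine (
      (((((((((((hd_pow _ 0 t).add (hd_pow _ 2 t)).add (hd_pow _ 4 t)).add (hd_pow _ 6
      t)).add (hd_pow _ 8 t)).add (hd_pow _ 10 t)).add (hd_pow _ 12 t)).add (hd_pow _ 14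
      t)).add (hd_pow _ 16 t)).add (hd_pow _ 18 t)).add (hd_pow _ 20 t)).add (hd_pow _ 22
      t)).congr_deriv ?_
    unfold rpol
    push_cast
    ring
  rw [intervalIntegral.integral_eq_sub_of_hasDerivAt (fun t _ => hF t)
    (continuous_rpol.intervalIntegrable _ _)]
  norm_num

end Pool.Agent.L2H
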