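import Mathlib

/-! The profile `D τ` with `D'' = (τ - 1) D`, its lower bound and a sum over frequencies. -/

open Set Real

namespace Pool.Agent.L2H

/-- solution of `D'' = (τ - 1) D`, `D 0 = 0`, `D' 0 = 1`, for `τ ≠ 1` -/
noncomputable def Dv (τ y : ℝ) : ℝ :=
  if 1 < τ then sinh (√(τ - 1) * y) / √(τ - 1) else sin (√(1 - τ) * y) / √(1 - τ)

/-- derivative of `Dv τ` -/
noncomputable def Dd (τ y : ℝ) : ℝ :=
  if 1 < τ then cosh (√(τ - 1) * y) else cos (√(1 - τ) * y)

theorem Dv_zero (τ : ℝ) : Dv τ 0 = 0 := by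
  unfold Dv; split_ifs <;> simp

theorem Dd_zero (τ : ℝ) : Dd τ 0 = 1 := by
  unfold Dd; split_ifs <;> simp

theorem contDiff_Dv (τ : ℝ) : ContDiff ℝ 2 (Dv τ) := by
  unfold Dv
  split_ifs
  · exact (contDiff_sinh.comp (contDiff_const.mul contDiff_id)).div_const _
  · exact (contDiff_sin.comp (contDiff_const.mul contDiff_id)).div_const _

theorem hasDerivAt_Dv {τ : ℝ} (h : τ ≠ 1) (y : ℝ) : HasDerivAt (Dv τ) (Dd τ y) y := by
  unfold Dv Dd
  split_ifs with h1
  · have hs : 0 < √(τ - 1) := sqrt_pos.mpr (by linarith)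
    have := (((hasDerivAt_id y).const_mul (√(τ - 1))).sinh).div_const (√(τ - 1))
    simp only [id, mul_one] at this
    refine this.congr_deriv ?_
    field_simp
  · have hs : 0 < √(1 - τ) := sqrt_pos.mpr (by
      rcases lt_or_gt_of_ne h with h2 | h2
      · linarith
      · exact absurd h2 h1)
    have := (((hasDerivAt_id y).const_mul (√(1 - τ))).sin).div_const (√(1 - τ))
    simp only [id, mul_one] at this
    refine this.congr_deriv ?_
    field_simp

theorem hasDerivAt_Dd {τ : ℝ} (h : τ ≠ 1) (y : ℝ) :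
    HasDerivAt (Dd τ) ((τ - 1) * Dv τ y) y := by
  unfold Dv Dd
  split_ifs with h1
  · have hs : 0 < √(τ - 1) := sqrt_pos.mpr (by linarith)
    have hq : √(τ - 1) ^ 2 = τ - 1 := sq_sqrt (by linarith)
    have := ((hasDerivAt_id y).const_mul (√(τ - 1))).cosh
    simp only [id, mul_one] at this
    refine this.congr_deriv ?_
    field_simp
    rw [hq]
  · have h3 : τ < 1 := by
      rcases lt_or_gt_of_ne h with h2 | h2
      · exact h2
      · exact absurd h2 h1
    have hs : 0 < √(1 - τ) := sqrt_pos.mpr (by linarith)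
    have hq : √(1 - τ) ^ 2 = 1 - τ := sq_sqrt (by linarith)
    have := ((hasDerivAt_id y).const_mul (√(1 - τ))).cos
    simp only [id, mul_one] at this
    refine this.congr_deriv ?_
    field_simp
    rw [hq]; ring

theorem Dv_nonneg {τ y : ℝ} (h0 : 0 ≤ τ) (hy : 0 ≤ y) (hy' : y ≤ π) : 0 ≤ Dv τ y := by
  unfold Dv
  split_ifs with h1
  · exact div_nonneg (sinh_nonneg_iff.mpr (mul_nonneg (sqrt_nonneg _) hy)) (sqrt_nonneg _)
  · refine div_nonneg (sin_nonneg_of_nonneg_of_le_pi (mul_nonneg (sqrt_nonneg _) hy) ?_)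
      (sqrt_nonneg _)
    have : √(1 - τ) ≤ 1 := sqrt_le_one.mpr (by linarith)
    nlinarith [sqrt_nonneg (1 - τ)]

theorem osc_nonneg {E E1 E2 : ℝ → ℝ} (h1 : ∀ t, HasDerivAt E (E1 t) t)
    (h2 : ∀ t, HasDerivAt E1 (E2 t) t) (h0 : E 0 = 0) (h0' : E1 0 = 0)
    (hs : ∀ t, 0 ≤ t → t ≤ π → 0 ≤ E2 t + E t) {y : ℝ} (hy : 0 ≤ y) (hy' : y ≤ π) : 0 ≤ E y := by
  set G : ℝ → ℝ := fun t => E1 t * sin (y - t) + E t * cos (y - t) with hG
  have hd : ∀ t, HasDerivAt G ((E2 t + E t) * sin (y - t)) t := by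
    intro t
    have a := ((hasDerivAt_id t).const_sub y).sin
    have b := ((hasDerivAt_id t).const_sub y).cos
    simp only [id] at a b
    refine (((h2 t).mul a).add ((h1 t).mul b)).congr_deriv ?_
    ring
  have hm : MonotoneOn G (Icc 0 y) := by
    refine monotoneOn_of_deriv_nonneg (convex_Icc 0 y)
      (fun t _ => (hd t).continuousAt.continuousWithinAt)
      (fun t _ => (hd t).differentiableAt.differentiableWithinAt) ?_
    intro t ht
    rw [interior_Icc] at ht
    rw [(hd t).deriv]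
    exact mul_nonneg (hs t ht.1.le (ht.2.le.trans hy'))
      (sin_nonneg_of_nonneg_of_le_pi (by linarith [ht.2]) (by linarith [ht.1]))
  have := hm (left_mem_Icc.mpr hy) (right_mem_Icc.mpr hy) hy
  simp only [hG, h0, h0', zero_mul, add_zero, sub_self, sin_zero, cos_zero, mul_zero, mul_one,
    zero_add] at this
  exact this

theorem sin_le_Dv {τ y : ℝ} (h : τ ≠ 1) (h0 : 0 ≤ τ) (hy : 0 ≤ y) (hy' : y ≤ π) :
    sin y ≤ Dv τ y := by
  have := osc_nonneg (E := fun t => Dv τ t - sin t) (E1 := fun t => Dd τ t - cos t)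
    (E2 := fun t => (τ - 1) * Dv τ t - -sin t)
    (fun t => (hasDerivAt_Dv h t).sub (hasDerivAt_sin t))
    (fun t => (hasDerivAt_Dd h t).sub (hasDerivAt_cos t)) (by simp [Dv_zero]) (by simp [Dd_zero])
    (fun t ht ht' => by nlinarith [Dv_nonneg h0 ht ht']) hy hy'
  linarith

theorem Dv_lower {τ y : ℝ} (h : τ ≠ 1) (h0 : 0 ≤ τ) (hy : 0 ≤ y) (hy' : y ≤ π) :
    sin y + τ * ((sin y - y * cos y) / 2) ≤ Dv τ y := by
  have d1 : ∀ t, HasDerivAt (fun t => (sin t - t * cos t) / 2) (t * sin t / 2) t := by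
    intro t
    have := ((hasDerivAt_sin t).sub ((hasDerivAt_id t).mul (hasDerivAt_cos t))).div_const 2
    simp only [id] at this
    refine this.congr_deriv ?_
    ring
  have d2 : ∀ t, HasDerivAt (fun t => t * sin t / 2) ((sin t + t * cos t) / 2) t := by
    intro t
    have := ((hasDerivAt_id t).mul (hasDerivAt_sin t)).div_const 2
    simp only [id] at this
    refine this.congr_deriv ?_
    ring
  have := osc_nonneg (E := fun t => Dv τ t - sin t - τ * ((sin t - t * cos t) / 2))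
    (E1 := fun t => Dd τ t - cos t - τ * (t * sin t / 2))
    (E2 := fun t => (τ - 1) * Dv τ t - -sin t - τ * ((sin t + t * cos t) / 2))
    (fun t => ((hasDerivAt_Dv h t).sub (hasDerivAt_sin t)).sub ((d1 t).const_mul τ))
    (fun t => ((hasDerivAt_Dd h t).sub (hasDerivAt_cos t)).sub ((d2 t).const_mul τ))
    (by simp [Dv_zero]) (by simp [Dd_zero])
    (fun t ht ht' => by nlinarith [sin_le_Dv h h0 ht ht']) hy hy'
  linarith

theorem sin_sub_mul_cos_pos {y : ℝ} (hy : 0 < y) (hy' : y < π) : 0 < sin y - y * cos y := by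
  have hd : ∀ t, HasDerivAt (fun t => sin t - t * cos t) (t * sin t) t := by
    intro t
    have := (hasDerivAt_sin t).sub ((hasDerivAt_id t).mul (hasDerivAt_cos t))
    simp only [id] at this
    refine this.congr_deriv ?_
    ring
  obtain ⟨c, hc, hc'⟩ := exists_hasDerivAt_eq_slope (fun t => sin t - t * cos t)
    (fun t => t * sin t) hy (fun t _ => (hd t).continuousAt.continuousWithinAt) (fun t _ => hd t)
  have h1 : 0 < c * sin c := mul_pos hc.1 (sin_pos_of_pos_of_lt_pi hc.1 (hc.2.trans hy'))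
  rw [hc'] at h1
  simp only [sin_zero, zero_mul, sub_zero] at h1
  exact (div_pos_iff_of_pos_right hy).mp h1

theorem step_le {α a b : ℝ} (hα : 0 < α) (ha : 0 ≤ a) (hab : a < b) :
    (b - a) * (1 / (1 + α * b ^ 2) ^ 2) ≤
      (b / (2 * (1 + α * b ^ 2)) + arctan (√α * b) / (2 * √α)) -
        (a / (2 * (1 + α * a ^ 2)) + arctan (√α * a) / (2 * √α)) := by
  have hs : 0 < √α := sqrt_pos.mpr hα
  have hq : √α ^ 2 = α := sq_sqrt hα.le
  have hd : ∀ t, HasDerivAt (fun t => t / (2 * (1 + α * t ^ 2)) + arctan (√α * t) / (2 * √α))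
      (1 / (1 + α * t ^ 2) ^ 2) t := by
    intro t
    have hp : 0 < 1 + α * t ^ 2 := by positivity
    have a1 : HasDerivAt (fun t => 2 * (1 + α * t ^ 2)) (2 * (α * (2 * t))) t := by
      have := ((((hasDerivAt_id t).pow 2).const_mul α).const_add 1).const_mul 2
      simp only [id] at this
      refine this.congr_deriv ?_
      simp
    have a2 := (hasDerivAt_id t).div a1 (by positivity)
    have a3 := (((hasDerivAt_id t).const_mul (√α)).arctan).div_const (2 * √α)
    simp only [id] at a2 a3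
    refine (a2.add a3).congr_deriv ?_
    rw [mul_pow (√α) t 2, hq]
    field_simp
    ring
  obtain ⟨c, hc, hc'⟩ := exists_hasDerivAt_eq_slope _ _ hab
    (fun t _ => (hd t).continuousAt.continuousWithinAt) (fun t _ => hd t)
  have hba : 0 < b - a := by linarith
  rw [eq_div_iff hba.ne'] at hc'
  rw [← hc', mul_comm]
  refine mul_le_mul_of_nonneg_right ?_ hba.le
  have hc0 : 0 ≤ c := ha.trans hc.1.le
  refine one_div_le_one_div_of_le (by positivity) ?_
  have : c ^ 2 ≤ b ^ 2 := pow_le_pow_left₀ hc0 hc.2.le 2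
  gcongr

theorem prim_le {α b : ℝ} (hα : 0 < α) (hb : 0 ≤ b) :
    b / (2 * (1 + α * b ^ 2)) + arctan (√α * b) / (2 * √α) ≤ π / (4 * √α) := by
  have hs : 0 < √α := sqrt_pos.mpr hα
  have hq : √α ^ 2 = α := sq_sqrt hα.le
  set v := √α * b with hv
  have hv0 : 0 ≤ v := mul_nonneg hs.le hb
  have h1 : v / (1 + v ^ 2) ≤ π / 2 - arctan v := by
    have hw : 0 < √(1 + v ^ 2) := sqrt_pos.mpr (by positivity)
    have hw2 : √(1 + v ^ 2) ^ 2 = 1 + v ^ 2 := sq_sqrt (by positivity)
    have e1 : v / (1 + v ^ 2) = sin (arctan v) * cos (arctan v) := by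
      rw [sin_arctan, cos_arctan]
      field_simp
      rw [hw2]
    have e2 : cos (arctan v) ≤ π / 2 - arctan v := by
      rw [← sin_pi_div_two_sub]
      exact sin_le (by linarith [arctan_lt_pi_div_two v])
    have e3 := sin_le_one (arctan v)
    have e4 := (cos_arctan_pos v).le
    nlinarith
  have h2 : b / (2 * (1 + α * b ^ 2)) = v / (1 + v ^ 2) / (2 * √α) := by
    rw [hv, mul_pow, hq]
    field_simp
  rw [h2, ← add_div, div_le_div_iff₀ (by positivity) (by positivity)]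
  nlinarith

theorem sum_range_le {α Δ : ℝ} (hα : 0 < α) (hΔ : 0 < Δ) (N : ℕ) :
    ∑ k ∈ Finset.range (N + 1), 1 / (1 + α * ((k : ℝ) * Δ) ^ 2) ^ 2 ≤ 1 + π / (4 * √α) / Δ := by
  have key : ∀ N : ℕ, Δ * ∑ k ∈ Finset.range (N + 1), 1 / (1 + α * ((k : ℝ) * Δ) ^ 2) ^ 2 ≤
      Δ + ((N * Δ) / (2 * (1 + α * (N * Δ) ^ 2)) + arctan (√α * (N * Δ)) / (2 * √α)) := by
    intro N
    induction N with
    | zero => simp
    | succ n ih =>
      rw [Finset.sum_range_succ, mul_add]
      have := step_le hα (a := n * Δ) (b := ((n + 1 : ℕ) : ℝ) * Δ) (by positivity)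
        (by push_cast; nlinarith)
      have e : ((n + 1 : ℕ) : ℝ) * Δ - n * Δ = Δ := by push_cast; ring
      rw [e] at this
      linarith
  have h1 := key N
  have h2 := prim_le hα (b := N * Δ) (by positivity)
  have h3 : 1 + π / (4 * √α) / Δ = (Δ + π / (4 * √α)) / Δ := by field_simp
  rw [h3, le_div_iff₀ hΔ]
  linarith

theorem sum_int_le {α Δ : ℝ} (hα : 0 < α) (hΔ : 0 < Δ) (s : Finset ℤ) :
    ∑ n ∈ s, 1 / (1 + α * ((n : ℝ) * Δ) ^ 2) ^ 2 ≤ 2 + π / (2 * √α) / Δ := by
  classical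
  set g : ℤ → ℝ := fun n => 1 / (1 + α * ((n : ℝ) * Δ) ^ 2) ^ 2 with hg
  have hg0 : ∀ n, 0 ≤ g n := fun n => by rw [hg]; positivity
  set N := s.sup Int.natAbs with hN
  have hsub : s ⊆ (Finset.range (N + 1)).image (fun k : ℕ => (k : ℤ)) ∪
      (Finset.range (N + 1)).image (fun k : ℕ => -(k : ℤ)) := by
    intro n hn
    have h1 : n.natAbs ≤ N := Finset.le_sup (f := Int.natAbs) hn
    rw [Finset.mem_union, Finset.mem_image, Finset.mem_image]
    rcases Int.natAbs_eq n with h | h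
    · exact Or.inl ⟨n.natAbs, Finset.mem_range.mpr (by omega), h.symm⟩
    · exact Or.inr ⟨n.natAbs, Finset.mem_range.mpr (by omega), h.symm⟩
  have h1 := Finset.sum_le_sum_of_subset_of_nonneg hsub (f := g) (fun n _ _ => hg0 n)
  have h2 := Finset.sum_union_inter (s₁ := (Finset.range (N + 1)).image (fun k : ℕ => (k : ℤ)))
    (s₂ := (Finset.range (N + 1)).image (fun k : ℕ => -(k : ℤ))) (f := g)
  have h3 : 0 ≤ ∑ n ∈ (Finset.range (N + 1)).image (fun k : ℕ => (k : ℤ)) ∩
      (Finset.range (N + 1)).image (fun k : ℕ => -(k : ℤ)), g n :=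
    Finset.sum_nonneg fun n _ => hg0 n
  have h4 : ∑ n ∈ (Finset.range (N + 1)).image (fun k : ℕ => (k : ℤ)), g n =
      ∑ k ∈ Finset.range (N + 1), 1 / (1 + α * ((k : ℝ) * Δ) ^ 2) ^ 2 := by
    rw [Finset.sum_image (fun a _ b _ h => by exact_mod_cast h)]
    simp [hg]
  have h5 : ∑ n ∈ (Finset.range (N + 1)).image (fun k : ℕ => -(k : ℤ)), g n =
      ∑ k ∈ Finset.range (N + 1), 1 / (1 + α * ((k : ℝ) * Δ) ^ 2) ^ 2 := by
    rw [Finset.sum_image (fun a _ b _ h => by simpa using h)]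
    simp [hg]
  have h6 := sum_range_le hα hΔ N
  have h7 : π / (2 * √α) / Δ = 2 * (π / (4 * √α) / Δ) := by
    have hs : 0 < √α := sqrt_pos.mpr hα
    field_simp
    ring
  rw [h7]
  linarith

end Pool.Agent.L2H
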