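import Mathlib

/-! Uniform approximation by trigonometric polynomials and Parseval for them. -/

open Set Real MeasureTheory

namespace Pool.Agent.L2H

/-- trigonometric polynomial with frequencies `n * Δ` -/
noncomputable def tp (s : Finset ℤ) (c : ℤ → ℂ) (Δ x : ℝ) : ℂ :=
  ∑ n ∈ s, c n * Complex.exp ((((n : ℝ) * Δ * x : ℝ) : ℂ) * Complex.I)

theorem continuous_tp (s : Finset ℤ) (c : ℤ → ℂ) (Δ : ℝ) : Continuous (tp s c Δ) := by
  unfold tp
  fun_prop

theorem tp_re (s : Finset ℤ) (c : ℤ → ℂ) (Δ x : ℝ) :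
    (tp s c Δ x).re =
      ∑ n ∈ s, ((c n).re * cos ((n : ℝ) * Δ * x) - (c n).im * sin ((n : ℝ) * Δ * x)) := by
  unfold tp
  rw [Complex.re_sum]
  refine Finset.sum_congr rfl fun n _ => ?_
  rw [Complex.mul_re, Complex.exp_ofReal_mul_I_re, Complex.exp_ofReal_mul_I_im]

theorem exists_tp {f : ℝ → ℝ} (hf : Continuous f) {l : ℝ} (hl : 0 < l) (he : f (-l) = f l)
    {ε : ℝ} (hε : 0 < ε) :
    ∃ (s : Finset ℤ) (c : ℤ → ℂ), ∀ x ∈ Icc (-l) l, ‖tp s c (π / l) x - (f x : ℂ)‖ ≤ ε := by
  have : Fact (0 < 2 * l) := ⟨by positivity⟩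
  have he' : (fun x : ℝ => (f x : ℂ)) (-l) = (fun x : ℝ => (f x : ℂ)) (-l + 2 * l) := by
    have : -l + 2 * l = l := by ring
    simp only [this, he]
  have hc : Continuous (AddCircle.liftIco (2 * l) (-l) fun x : ℝ => (f x : ℂ)) :=
    AddCircle.liftIco_continuous he' (Complex.continuous_ofReal.comp hf).continuousOn
  set F : C(AddCircle (2 * l), ℂ) := ⟨_, hc⟩ with hF
  have hmem : F ∈ (Submodule.span ℂ (range <| @fourier (2 * l))).topologicalClosure := by
    rw [span_fourier_closure_eq_top]; trivial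
  have hmem' : F ∈ closure ((Submodule.span ℂ (range <| @fourier (2 * l)) :
      Submodule ℂ C(AddCircle (2 * l), ℂ)) : Set C(AddCircle (2 * l), ℂ)) := hmem
  obtain ⟨G, hG, hd⟩ := Metric.mem_closure_iff.mp hmem' ε hε
  obtain ⟨c, hc'⟩ := (Finsupp.mem_span_range_iff_exists_finsupp).mp hG
  refine ⟨c.support, c, ?_⟩
  have key : ∀ x ∈ Ico (-l) l, ‖tp c.support c (π / l) x - (f x : ℂ)‖ ≤ ε := by
    intro x hx
    have h1 : F (x : AddCircle (2 * l)) = (f x : ℂ) := by
      have hx' : x ∈ Ico (-l) (-l + 2 * l) := by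
        have : -l + 2 * l = l := by ring
        rwa [this]
      exact AddCircle.liftIco_coe_apply (f := fun x : ℝ => (f x : ℂ)) hx'
    have h2 : G (x : AddCircle (2 * l)) = tp c.support c (π / l) x := by
      rw [← hc', Finsupp.sum, ContinuousMap.sum_apply, tp]
      refine Finset.sum_congr rfl fun n _ => ?_
      rw [ContinuousMap.smul_apply, fourier_coe_apply, smul_eq_mul]
      congr 2
      have : (l : ℂ) ≠ 0 := by exact_mod_cast hl.ne'
      push_cast
      field_simp
    have h3 := ContinuousMap.dist_apply_le_dist (f := F) (g := G) (x : AddCircle (2 * l))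
    rw [h1, h2, dist_comm, dist_eq_norm] at h3
    linarith
  have hcl : IsClosed {x : ℝ | ‖tp c.support c (π / l) x - (f x : ℂ)‖ ≤ ε} :=
    isClosed_le ((continuous_tp _ _ _).sub (Complex.continuous_ofReal.comp hf)).norm
      continuous_const
  have := closure_minimal key hcl
  rw [closure_Ico (by linarith)] at this
  exact this

theorem integral_exp_int {l : ℝ} (hl : 0 < l) (k : ℤ) :
    ∫ x in (-l)..l, Complex.exp ((((k : ℝ) * (π / l) * x : ℝ) : ℂ) * Complex.I) =
      if k = 0 then ((2 * l : ℝ) : ℂ) else 0 := by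
  split_ifs with hk
  · subst hk
    simp
    ring
  · have hl' : (l : ℂ) ≠ 0 := by exact_mod_cast hl.ne'
    have hk' : (k : ℂ) ≠ 0 := by exact_mod_cast hk
    have hpi : (π : ℂ) ≠ 0 := by exact_mod_cast pi_ne_zero
    have hc : ((k : ℂ) * (π / l) * Complex.I) ≠ 0 := by
      simp [hl.ne', hk, pi_ne_zero]
    have e : (fun x : ℝ => Complex.exp ((((k : ℝ) * (π / l) * x : ℝ) : ℂ) * Complex.I)) =
        fun x : ℝ => Complex.exp (((k : ℂ) * (π / l) * Complex.I) * x) := by
      funext x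
      congr 1
      push_cast
      ring
    rw [e, integral_exp_mul_complex hc]
    have e2 : ((k : ℂ) * (π / l) * Complex.I) * (l : ℝ) =
        ((k : ℂ) * (π / l) * Complex.I) * ((-l : ℝ) : ℂ) + k * (2 * π * Complex.I) := by
      push_cast
      field_simp
      ring
    rw [e2, Complex.exp_add, Complex.exp_int_mul_two_pi_mul_I]
    simp

theorem parseval_tp (s : Finset ℤ) (c : ℤ → ℂ) {l : ℝ} (hl : 0 < l) :
    ∫ x in (-l)..l, ‖tp s c (π / l) x‖ ^ 2 = 2 * l * ∑ n ∈ s, ‖c n‖ ^ 2 := by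
  have h1 : ∀ x : ℝ, (((‖tp s c (π / l) x‖ ^ 2 : ℝ)) : ℂ) =
      ∑ n ∈ s, ∑ m ∈ s, c n * (starRingEnd ℂ) (c m) *
        Complex.exp (((((n - m : ℤ) : ℝ) * (π / l) * x : ℝ) : ℂ) * Complex.I) := by
    intro x
    rw [Complex.ofReal_pow, ← Complex.mul_conj', tp, map_sum, Finset.sum_mul_sum]
    refine Finset.sum_congr rfl fun n _ => Finset.sum_congr rfl fun m _ => ?_
    rw [map_mul, ← Complex.exp_conj, map_mul, Complex.conj_ofReal, Complex.conj_I,
      mul_mul_mul_comm, ← Complex.exp_add]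
    congr 2
    push_cast
    ring
  have h2 : (((∫ x in (-l)..l, ‖tp s c (π / l) x‖ ^ 2 : ℝ)) : ℂ) =
      ((2 * l * ∑ n ∈ s, ‖c n‖ ^ 2 : ℝ) : ℂ) := by
    rw [← intervalIntegral.integral_ofReal]
    simp_rw [h1]
    rw [intervalIntegral.integral_finsetSum (fun n _ => Continuous.intervalIntegrable
      (by fun_prop) _ _)]
    rw [Finset.mul_sum, Complex.ofReal_sum]
    refine Finset.sum_congr rfl fun n hn => ?_
    rw [intervalIntegral.integral_finsetSum (fun n _ => Continuous.intervalIntegrable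
      (by fun_prop) _ _)]
    simp_rw [intervalIntegral.integral_const_mul, integral_exp_int hl]
    rw [Finset.sum_eq_single n]
    · rw [if_pos (sub_self n), Complex.mul_conj']
      push_cast
      ring
    · intro m _ hm
      rw [if_neg (sub_ne_zero.mpr (Ne.symm hm)), mul_zero]
    · intro h
      exact absurd hn h
  exact_mod_cast h2

end Pool.Agent.L2H
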