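import Pool.Agent.P.MP_2f6447_an.H.MaxP
import Pool.Agent.P.MP_2f6447_an.H.DFun
import Pool.Agent.P.MP_2f6447_an.H.Trig

/-! Comparison of a solution with the Helmholtz extension of a trigonometric polynomial. -/

open Set Real MeasureTheory Filter Topology

namespace Pool.Agent.L2H

theorem dx_eq {F : ℝ × ℝ → ℝ} {x y v : ℝ} (hF : DifferentiableAt ℝ F (x, y))
    (h : HasDerivAt (fun t => F (t, y)) v x) : dx F (x, y) = v :=
  (hasDerivAt_dx hF).unique h

theorem dy_eq {F : ℝ × ℝ → ℝ} {x y v : ℝ} (hF : DifferentiableAt ℝ F (x, y))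
    (h : HasDerivAt (fun t => F (x, t)) v y) : dy F (x, y) = v :=
  (hasDerivAt_dy hF).unique h

/-- Laplacian of a finite sum of products. -/
theorem lap_sum {ι : Type*} (s : Finset ι) {a a1 a2 b b1 b2 : ι → ℝ → ℝ}
    (ha : ∀ n t, HasDerivAt (a n) (a1 n t) t) (ha1 : ∀ n t, HasDerivAt (a1 n) (a2 n t) t)
    (hb : ∀ n t, HasDerivAt (b n) (b1 n t) t) (hb1 : ∀ n t, HasDerivAt (b1 n) (b2 n t) t)
    (p : ℝ × ℝ) :
    dx (dx fun q : ℝ × ℝ => ∑ n ∈ s, a n q.1 * b n q.2) p = ∑ n ∈ s, a2 n p.1 * b n p.2 ∧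
    dy (dy fun q : ℝ × ℝ => ∑ n ∈ s, a n q.1 * b n q.2) p = ∑ n ∈ s, a n p.1 * b2 n p.2 := by
  have hd : ∀ {a b a' b' : ι → ℝ → ℝ}, (∀ n t, HasDerivAt (a n) (a' n t) t) →
      (∀ n t, HasDerivAt (b n) (b' n t) t) → ∀ q : ℝ × ℝ,
      DifferentiableAt ℝ (fun q : ℝ × ℝ => ∑ n ∈ s, a n q.1 * b n q.2) q := by
    intro a b a' b' h1 h2 q
    refine DifferentiableAt.fun_sum fun n _ => ?_
    exact ((h1 n q.1).differentiableAt.comp q differentiableAt_fst).mul
      ((h2 n q.2).differentiableAt.comp q differentiableAt_snd)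
  have hx : ∀ {a b a' b' : ι → ℝ → ℝ}, (∀ n t, HasDerivAt (a n) (a' n t) t) →
      (∀ n t, HasDerivAt (b n) (b' n t) t) →
      dx (fun q : ℝ × ℝ => ∑ n ∈ s, a n q.1 * b n q.2) =
        fun q : ℝ × ℝ => ∑ n ∈ s, a' n q.1 * b n q.2 := by
    intro a b a' b' h1 h2
    funext q
    obtain ⟨x, y⟩ := q
    exact dx_eq (hd h1 h2 _) (HasDerivAt.fun_sum fun n _ => (h1 n x).mul_const (b n y))
  have hy : ∀ {a b a' b' : ι → ℝ → ℝ}, (∀ n t, HasDerivAt (a n) (a' n t) t) →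
      (∀ n t, HasDerivAt (b n) (b' n t) t) →
      dy (fun q : ℝ × ℝ => ∑ n ∈ s, a n q.1 * b n q.2) =
        fun q : ℝ × ℝ => ∑ n ∈ s, a n q.1 * b' n q.2 := by
    intro a b a' b' h1 h2
    funext q
    obtain ⟨x, y⟩ := q
    exact dy_eq (hd h1 h2 _) (HasDerivAt.fun_sum fun n _ => (h2 n y).const_mul (a n x))
  constructor
  · rw [hx ha hb, hx ha1 hb]
  · rw [hy ha hb, hy ha hb1]

theorem lap_sub {f g : ℝ × ℝ → ℝ} {p : ℝ × ℝ} (hf : ContDiffAt ℝ 2 f p)
    (hg : ContDiffAt ℝ 2 g p) :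
    dx (dx fun q => f q - g q) p = dx (dx f) p - dx (dx g) p ∧
    dy (dy fun q => f q - g q) p = dy (dy f) p - dy (dy g) p := by
  have ef : ∀ᶠ q in 𝓝 p, DifferentiableAt ℝ f q :=
    (hf.eventually (by simp)).mono fun q hq => hq.differentiableAt (by norm_num)
  have eg : ∀ᶠ q in 𝓝 p, DifferentiableAt ℝ g q :=
    (hg.eventually (by simp)).mono fun q hq => hq.differentiableAt (by norm_num)
  constructor
  · have e : dx (fun q => f q - g q) =ᶠ[𝓝 p] fun q => dx f q - dx g q := by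
      filter_upwards [ef, eg] with q h1 h2
      unfold dx
      rw [fderiv_fun_sub h1 h2]
      rfl
    have e2 : dx (dx fun q => f q - g q) p = dx (fun q => dx f q - dx g q) p := by
      unfold dx at e ⊢
      rw [e.fderiv_eq]
    rw [e2]
    have h1 := (contDiffAt_dx hf).differentiableAt (by norm_num)
    have h2 := (contDiffAt_dx hg).differentiableAt (by norm_num)
    change fderiv ℝ (fun q => dx f q - dx g q) p (1, 0) = _
    rw [fderiv_fun_sub h1 h2]
    rfl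
  · have e : dy (fun q => f q - g q) =ᶠ[𝓝 p] fun q => dy f q - dy g q := by
      filter_upwards [ef, eg] with q h1 h2
      unfold dy
      rw [fderiv_fun_sub h1 h2]
      rfl
    have e2 : dy (dy fun q => f q - g q) p = dy (fun q => dy f q - dy g q) p := by
      unfold dy at e ⊢
      rw [e.fderiv_eq]
    rw [e2]
    have h1 := (contDiffAt_dy hf).differentiableAt (by norm_num)
    have h2 := (contDiffAt_dy hg).differentiableAt (by norm_num)
    change fderiv ℝ (fun q => dy f q - dy g q) p (0, 1) = _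
    rw [fderiv_fun_sub h1 h2]
    rfl

/-- Maximum principle on a box `[-l, l] × [0, Y]`, `Y < π`, in the form needed twice below:
a continuous `f` whose positive maxima (after division by the cosine) over the box are local
maxima at points where `f` is a `C²` subsolution, is nonpositive on the box. -/
theorem box_nonpos {f : ℝ × ℝ → ℝ} {l Y : ℝ} (hl : 0 < l) (hY : 0 < Y) (hY' : Y < π)
    (hf : Continuous f)
    (h : ∀ φ : ℝ → ℝ, ∀ p ∈ Icc (-l) l ×ˢ Icc 0 Y, 0 < f p →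
      (∀ q ∈ Icc (-l) l ×ˢ Icc 0 Y, f q / φ q.2 ≤ f p / φ p.2) →
      ContDiffAt ℝ 2 f p ∧ 0 ≤ dx (dx f) p + dy (dy f) p + f p ∧
        IsLocalMax (fun q : ℝ × ℝ => f q / φ q.2) p) :
    ∀ q ∈ Icc (-l) l ×ˢ Icc 0 Y, f q ≤ 0 := by
  set κ : ℝ := (1 + π / Y) / 2 with hκ
  have h1 : 1 < π / Y := (one_lt_div hY).mpr hY'
  have hκ1 : 1 < κ := by rw [hκ]; linarith
  have hκ2 : κ * Y < π := by
    have : κ < π / Y := by rw [hκ]; linarith
    exact (lt_div_iff₀ hY).mp this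
  have hcos : ∀ y ∈ Icc 0 Y, 0 < cos (κ * (y - Y / 2)) := by
    intro y hy
    refine cos_pos_of_mem_Ioo ⟨?_, ?_⟩ <;> nlinarith [hy.1, hy.2]
  have hK : IsCompact (Icc (-l) l ×ˢ Icc (0 : ℝ) Y) := isCompact_Icc.prod isCompact_Icc
  have hcont : ContinuousOn (fun q : ℝ × ℝ => f q / cos (κ * (q.2 - Y / 2)))
      (Icc (-l) l ×ˢ Icc (0 : ℝ) Y) :=
    hf.continuousOn.div (by fun_prop) fun q hq => (hcos q.2 hq.2).ne'
  obtain ⟨p, hp, hmax⟩ := hK.exists_isMaxOn
    ⟨(0, 0), ⟨by constructor <;> linarith, left_mem_Icc.mpr hY.le⟩⟩ hcont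
  intro q hq
  by_contra hq0
  have hq1 : 0 < f q / cos (κ * (q.2 - Y / 2)) := div_pos (not_le.mp hq0) (hcos q.2 hq.2)
  have hp1 : 0 < f p / cos (κ * (p.2 - Y / 2)) := hq1.trans_le (hmax hq)
  have hp0 : 0 < f p := (div_pos_iff_of_pos_right (hcos p.2 hp.2)).mp hp1
  obtain ⟨a, b, c⟩ := h (fun y => cos (κ * (y - Y / 2))) p hp hp0 fun q hq => hmax hq
  exact no_pos_max hκ1 a b hp0 (hcos p.2 hp.2) c

theorem one_le_sum {Ω : Set (ℝ × ℝ)} {u : ℝ × ℝ → ℝ} (S : Sol Ω u) (hup : ∀ p ∈ Ω, 0 < p.2)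
    (hs : Slope u) {Y l : ℝ} (hY : 0 < Y) (hY' : Y < π) (hl : 0 < l)
    (hbox : ∀ p ∈ Ω, |p.1| < l) (hne : ∀ n : ℤ, ((n : ℝ) * (π / l)) ^ 2 ≠ 1)
    (s : Finset ℤ) (c : ℤ → ℂ)
    (hT : ∀ x ∈ Icc (-l) l, max (u (x, Y)) 0 ≤ (tp s c (π / l) x).re) :
    1 ≤ ∑ n ∈ s, ‖c n‖ / Dv (((n : ℝ) * (π / l)) ^ 2) Y := by
  set ξ : ℤ → ℝ := fun n => (n : ℝ) * (π / l) with hξ
  set a : ℤ → ℝ → ℝ := fun n x => (c n).re * cos (ξ n * x) - (c n).im * sin (ξ n * x) with ha
  set a1 : ℤ → ℝ → ℝ := fun n x =>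
    -(ξ n * ((c n).re * sin (ξ n * x) + (c n).im * cos (ξ n * x))) with ha1
  set b : ℤ → ℝ → ℝ := fun n y => Dv (ξ n ^ 2) y / Dv (ξ n ^ 2) Y with hb
  set b1 : ℤ → ℝ → ℝ := fun n y => Dd (ξ n ^ 2) y / Dv (ξ n ^ 2) Y with hb1
  have hDpos : ∀ n, 0 < Dv (ξ n ^ 2) Y := fun n =>
    (sin_pos_of_pos_of_lt_pi hY hY').trans_le (sin_le_Dv (hne n) (sq_nonneg _) hY.le hY'.le)
  have da : ∀ n t, HasDerivAt (a n) (a1 n t) t := by
    intro n t
    have e1 := (((hasDerivAt_id t).const_mul (ξ n)).cos).const_mul (c n).re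
    have e2 := (((hasDerivAt_id t).const_mul (ξ n)).sin).const_mul (c n).im
    simp only [id] at e1 e2
    refine (e1.sub e2).congr_deriv ?_
    rw [ha1]; ring
  have da1 : ∀ n t, HasDerivAt (a1 n) (-(ξ n ^ 2 * a n t)) t := by
    intro n t
    have e1 := (((hasDerivAt_id t).const_mul (ξ n)).sin).const_mul (c n).re
    have e2 := (((hasDerivAt_id t).const_mul (ξ n)).cos).const_mul (c n).im
    simp only [id] at e1 e2
    refine (((e1.add e2).const_mul (ξ n)).neg).congr_deriv ?_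
    rw [ha]; ring
  have db : ∀ n t, HasDerivAt (b n) (b1 n t) t := fun n t =>
    (hasDerivAt_Dv (hne n) t).div_const _
  have db1 : ∀ n t, HasDerivAt (b1 n) ((ξ n ^ 2 - 1) * b n t) t := by
    intro n t
    refine ((hasDerivAt_Dd (hne n) t).div_const _).congr_deriv ?_
    rw [hb]; ring
  set w : ℝ × ℝ → ℝ := fun q => ∑ n ∈ s, a n q.1 * b n q.2 with hw
  have hwc : ContDiff ℝ 2 w := by
    refine ContDiff.sum fun n _ => ContDiff.mul ?_ ?_
    · rw [ha]; fun_prop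
    · exact ((contDiff_Dv _).div_const _).comp contDiff_snd
  have hwh : ∀ p, dx (dx w) p + dy (dy w) p + w p = 0 := by
    intro p
    obtain ⟨e1, e2⟩ := lap_sum s da da1 db db1 p
    rw [hw, e1, e2, ← Finset.sum_add_distrib, ← Finset.sum_add_distrib]
    exact Finset.sum_eq_zero fun n _ => by ring
  have hw0 : ∀ x, w (x, 0) = 0 := fun x =>
    Finset.sum_eq_zero fun n _ => by simp [hb, Dv_zero]
  have hwY : ∀ x, w (x, Y) = (tp s c (π / l) x).re := by
    intro x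
    rw [tp_re]
    refine Finset.sum_congr rfl fun n _ => ?_
    simp only [hb, ha, hξ]
    rw [div_self (hDpos n).ne', mul_one]
  have hper : ∀ y, Function.Periodic (fun x => w (x, y)) (2 * l) := by
    intro y x
    refine Finset.sum_congr rfl fun n _ => ?_
    have e : ξ n * (x + 2 * l) = ξ n * x + n * (2 * π) := by
      rw [hξ]; field_simp
    simp only [ha]
    rw [e, cos_add_int_mul_two_pi, sin_add_int_mul_two_pi]
  have hwn : ∀ q ∈ Icc (-l) l ×ˢ Icc 0 Y, (0 : ℝ) - w q ≤ 0 := by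
    refine box_nonpos (f := fun q => 0 - w q) hl hY hY' (continuous_const.sub hwc.continuous) ?_
    intro φ p hp hp0 hmax
    obtain ⟨e1, e2⟩ := lap_sub (f := fun _ => (0 : ℝ)) (p := p) contDiffAt_const hwc.contDiffAt
    have z1 : dx (dx fun _ : ℝ × ℝ => (0 : ℝ)) p = 0 := by
      have : dx (fun _ : ℝ × ℝ => (0 : ℝ)) = fun _ => 0 := by funext q; simp [dx]
      rw [this]; simp [dx]
    have z2 : dy (dy fun _ : ℝ × ℝ => (0 : ℝ)) p = 0 := by
      have : dy (fun _ : ℝ × ℝ => (0 : ℝ)) = fun _ => 0 := by funext q; simp [dy]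
      rw [this]; simp [dy]
    refine ⟨contDiffAt_const.sub hwc.contDiffAt, by rw [e1, e2, z1, z2]; linarith [hwh p], ?_⟩
    obtain ⟨x, y⟩ := p
    have hy0 : 0 < y := by
      rcases hp.2.1.eq_or_lt with h | h
      · have h' : y = 0 := h.symm
        subst h'
        simp only [hw0] at hp0
        linarith
      · exact h
    have hyY : y < Y := by
      rcases hp.2.2.eq_or_lt with h | h
      · have h' : y = Y := h
        subst h'
        have := (le_max_right _ _).trans (hT x hp.1)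
        simp only [hwY] at hp0
        linarith
      · exact h
    have hev : ∀ᶠ q : ℝ × ℝ in 𝓝 (x, y), q.2 ∈ Ioo 0 Y :=
      continuousAt_snd.eventually (Ioo_mem_nhds hy0 hyY)
    filter_upwards [hev] with q hq
    obtain ⟨x', hx', e⟩ := (hper q.2).exists_mem_Ico (by positivity) q.1 (-l)
    have hx'' : x' ∈ Icc (-l) l := ⟨hx'.1, by linarith [hx'.2]⟩
    have := hmax (x', q.2) ⟨hx'', hq.1.le, hq.2.le⟩
    have e' : w q = w (x', q.2) := e
    simp only [e']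
    exact this
  have hle : ∀ q ∈ Icc (-l) l ×ˢ Icc 0 Y, u q - w q ≤ 0 := by
    refine box_nonpos (f := fun q => u q - w q) hl hY hY' (S.continuous.sub hwc.continuous) ?_
    intro φ p hp hp0 hmax
    have hw1 := hwn p hp
    have hu : 0 < u p := by linarith
    have hpΩ : p ∈ Ω := S.mem_of_ne hu.ne'
    obtain ⟨e1, e2⟩ := lap_sub (S.contDiffAt hpΩ) (hwc.contDiffAt (x := p))
    refine ⟨(S.contDiffAt hpΩ).sub hwc.contDiffAt,
      by rw [e1, e2]; linarith [hwh p, S.helm p hpΩ], ?_⟩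
    obtain ⟨x, y⟩ := p
    have hyY : y < Y := by
      rcases hp.2.2.eq_or_lt with h | h
      · have h' : y = Y := h
        subst h'
        have := (le_max_left _ _).trans (hT x hp.1)
        simp only [hwY] at hp0
        linarith
      · exact h
    have hb' := abs_lt.mp (hbox _ hpΩ)
    have hnh : Icc (-l) l ×ˢ Icc (0 : ℝ) Y ∈ 𝓝 ((x, y) : ℝ × ℝ) :=
      prod_mem_nhds (Icc_mem_nhds hb'.1 hb'.2) (Icc_mem_nhds (hup _ hpΩ) hyY)
    filter_upwards [hnh] with q hq using hmax q hq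
  obtain ⟨x₀, hx₀⟩ := hs
  have hder : HasDerivAt (fun t => w (x₀, t)) (∑ n ∈ s, a n x₀ * b1 n 0) 0 :=
    HasDerivAt.fun_sum fun n _ => (db n 0).const_mul (a n x₀)
  have h1 : 1 ≤ ∑ n ∈ s, a n x₀ * b1 n 0 := by
    refine le_of_forall_pos_le_add fun ε hε => ?_
    have ht : Tendsto (fun t => t⁻¹ • (w (x₀, 0 + t) - w (x₀, 0))) (𝓝[>] 0)
        (𝓝 (∑ n ∈ s, a n x₀ * b1 n 0)) := hder.tendsto_slope_zero_right
    have : 1 - min ε (1 / 2) ≤ ∑ n ∈ s, a n x₀ * b1 n 0 := by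
      refine ge_of_tendsto ht ?_
      filter_upwards [hx₀ (min ε (1 / 2)) (lt_min hε (by norm_num)), Ioo_mem_nhdsGT hY]
        with t h1 h2
      have hm : min ε (1 / 2) ≤ 1 / 2 := min_le_right _ _
      have hu : 0 < u (x₀, t) := lt_of_lt_of_le (mul_pos (by linarith) h2.1) h1
      have hb' := abs_lt.mp (hbox _ (S.mem_of_ne hu.ne'))
      have h3 := hle (x₀, t) ⟨⟨hb'.1.le, hb'.2.le⟩, h2.1.le, h2.2.le⟩
      rw [hw0, sub_zero, zero_add, smul_eq_mul, ← div_eq_inv_mul, le_div_iff₀ h2.1]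
      linarith
    linarith [min_le_left ε (1 / 2)]
  refine h1.trans (Finset.sum_le_sum fun n _ => ?_)
  simp only [hb1, Dd_zero]
  rw [mul_one_div]
  refine div_le_div_of_nonneg_right ?_ (hDpos n).le
  have e : a n x₀ = (c n * Complex.exp (((ξ n * x₀ : ℝ) : ℂ) * Complex.I)).re := by
    rw [Complex.mul_re, Complex.exp_ofReal_mul_I_re, Complex.exp_ofReal_mul_I_im]
  rw [e]
  refine (Complex.re_le_norm _).trans ?_
  rw [norm_mul, Complex.norm_exp_ofReal_mul_I, mul_one]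

end Pool.Agent.L2H
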