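import Pool.Agent.P.MP_2f6447_an.H.CFun
import Pool.Agent.P.MP_2f6447_an.Frame

/-! The competitor: a convex domain of any area `A` with `lam2 * A ≤ 38.34`. -/

open Set Real MeasureTheory Filter Topology Pointwise
open Pool.Agent.P.MP_2f6447_an

namespace Pool.Agent.L2H

theorem two_piece {Ω : Set E2} {f g : E2 → ℝ} {r : ℝ} (cf : ContDiff ℝ 1 f) (cg : ContDiff ℝ 1 g)
    (kf : HasCompactSupport f) (kg : HasCompactSupport g) (sf : tsupport f ⊆ Ω)
    (sg : tsupport g ⊆ Ω) (f0 : ∀ q, 0 ≤ f q) (g0 : ∀ q, 0 ≤ g q)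
    (hd : ∀ q, f q = 0 ∨ g q = 0) {p q : E2} (hp : f p ≠ 0) (hq : g q ≠ 0)
    (rf : ∫ x, ‖fderiv ℝ f x‖ ^ 2 ≤ r * ∫ x, f x ^ 2)
    (rg : ∫ x, ‖fderiv ℝ g x‖ ^ 2 ≤ r * ∫ x, g x ^ 2) : r ∈ RS Ω := by
  refine ⟨f, g, cf, cg, kf, kg, sf, sg, ?_, fun a b => ?_⟩
  · rw [LinearIndependent.pair_iff]
    intro a b hab
    have e0 := congrFun hab p
    have e1 := congrFun hab q
    simp only [Pi.add_apply, Pi.smul_apply, smul_eq_mul, Pi.zero_apply] at e0 e1
    rw [(hd p).resolve_left hp] at e0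
    rw [(hd q).resolve_right hq] at e1
    exact ⟨by simpa [hp] using e0, by simpa [hq] using e1⟩
  have z : ∀ {φ : E2 → ℝ}, (∀ q, 0 ≤ φ q) → ∀ x, φ x = 0 → fderiv ℝ φ x = 0 := fun h x hx =>
    IsLocalMin.fderiv_eq_zero (Eventually.of_forall fun y => by rw [hx]; exact h y)
  have e1 : ∀ x, ‖fderiv ℝ (fun y => a * f y + b * g y) x‖ ^ 2 =
      a ^ 2 * ‖fderiv ℝ f x‖ ^ 2 + b ^ 2 * ‖fderiv ℝ g x‖ ^ 2 := by
    intro x
    have h := (((cf.differentiable one_ne_zero x).hasFDerivAt.const_mul a).add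
      ((cg.differentiable one_ne_zero x).hasFDerivAt.const_mul b)).fderiv
    have h' : fderiv ℝ (fun y => a * f y + b * g y) x =
        a • fderiv ℝ f x + b • fderiv ℝ g x := h
    rw [h']
    rcases hd x with h0 | h0
    · rw [z f0 x h0]; simp [norm_smul, mul_pow]
    · rw [z g0 x h0]; simp [norm_smul, mul_pow]
  have e2 : ∀ x, (a * f x + b * g x) ^ 2 = a ^ 2 * f x ^ 2 + b ^ 2 * g x ^ 2 := by
    intro x
    rcases hd x with h0 | h0 <;> rw [h0] <;> ring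
  have i1 : ∀ {φ : E2 → ℝ}, ContDiff ℝ 1 φ → HasCompactSupport φ →
      Integrable fun x => ‖fderiv ℝ φ x‖ ^ 2 := fun c k => by
    have c1 := c.continuous_fderiv one_ne_zero
    exact Continuous.integrable_of_hasCompactSupport (by fun_prop)
      ((k.fderiv ℝ).mono fun x hx h => hx (by simp [h]))
  have i2 : ∀ {φ : E2 → ℝ}, ContDiff ℝ 1 φ → HasCompactSupport φ →
      Integrable fun x => φ x ^ 2 := fun c k => by
    have c1 := c.continuous
    exact Continuous.integrable_of_hasCompactSupport (by fun_prop)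
      (k.mono fun x hx h => hx (by simp [h]))
  simp only [e1, e2]
  rw [integral_add ((i1 cf kf).const_mul _) ((i1 cg kg).const_mul _),
    integral_add ((i2 cf kf).const_mul _) ((i2 cg kg).const_mul _), integral_const_mul,
    integral_const_mul, integral_const_mul, integral_const_mul]
  nlinarith [mul_le_mul_of_nonneg_left rf (sq_nonneg a), mul_le_mul_of_nonneg_left rg (sq_nonneg b)]

theorem RS_smul {Ω : Set E2} {r t : ℝ} (ht : 0 < t) (h : r ∈ RS Ω) : r / t ^ 2 ∈ RS (t • Ω) := by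
  obtain ⟨f, g, cf, cg, kf, kg, sf, sg, li, ray⟩ := h
  have hti : t⁻¹ ≠ 0 := inv_ne_zero ht.ne'
  have sup : ∀ {φ : E2 → ℝ}, tsupport φ ⊆ Ω → tsupport (fun x => φ (t⁻¹ • x)) ⊆ t • Ω := by
    intro φ hφ x hx
    rw [mem_smul_set_iff_inv_smul_mem₀ ht.ne']
    exact hφ (tsupport_comp_subset_preimage φ (f := fun x : E2 => t⁻¹ • x) (by fun_prop) hx)
  refine ⟨fun x => f (t⁻¹ • x), fun x => g (t⁻¹ • x), cf.comp (by fun_prop), cg.comp (by fun_prop),
    kf.comp_smul hti, kg.comp_smul hti, sup sf, sup sg, ?_, fun a b => ?_⟩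
  · rw [LinearIndependent.pair_iff] at li ⊢
    intro a b hab
    refine li a b (funext fun x => ?_)
    have := congrFun hab (t • x)
    simpa [smul_smul, inv_mul_cancel₀ ht.ne'] using this
  have e1 : ∀ x : E2, ‖fderiv ℝ (fun y => a * f (t⁻¹ • y) + b * g (t⁻¹ • y)) x‖ ^ 2 =
      t⁻¹ ^ 2 * ‖fderiv ℝ (fun y => a * f y + b * g y) (t⁻¹ • x)‖ ^ 2 := by
    intro x
    have := fderiv_comp_smul (𝕜 := ℝ) (f := fun y => a * f y + b * g y) (x := x) t⁻¹
    rw [this, norm_smul, mul_pow, Real.norm_eq_abs, sq_abs]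
  simp only [e1]
  rw [integral_const_mul,
    Measure.integral_comp_smul volume (fun x => ‖fderiv ℝ (fun y => a * f y + b * g y) x‖ ^ 2) t⁻¹,
    Measure.integral_comp_smul volume (fun x => (a * f x + b * g x) ^ 2) t⁻¹, smul_eq_mul,
    smul_eq_mul]
  have h1 := mul_le_mul_of_nonneg_left (ray a b)
    (abs_nonneg ((t⁻¹ ^ Module.finrank ℝ E2)⁻¹))
  have h2 := mul_le_mul_of_nonneg_left h1 (sq_nonneg t⁻¹)
  refine h2.trans (le_of_eq ?_)
  field_simp

/-- the competitor in coordinates -/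
def Dfull : Set (ℝ × ℝ) :=
  regionBetween (fun s => -(2.001 - s ^ 2 / 2)) (fun s => 2.001 - s ^ 2 / 2) (Ioo (-1.001) 1.001)

theorem mem_Dfull {p : ℝ × ℝ} : p ∈ Dfull ↔ (-1.001 < p.1 ∧ p.1 < 1.001) ∧
    -(2.001 - p.1 ^ 2 / 2) < p.2 ∧ p.2 < 2.001 - p.1 ^ 2 / 2 := Iff.rfl

theorem isOpen_Dfull : IsOpen Dfull := by
  have : Dfull = {p : ℝ × ℝ | -1.001 < p.1} ∩ {p | p.1 < 1.001} ∩
      ({p | -(2.001 - p.1 ^ 2 / 2) < p.2} ∩ {p | p.2 < 2.001 - p.1 ^ 2 / 2}) := rfl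
  rw [this]
  exact ((isOpen_lt (by fun_prop) (by fun_prop)).inter (isOpen_lt (by fun_prop) (by fun_prop))).inter
    ((isOpen_lt (by fun_prop) (by fun_prop)).inter (isOpen_lt (by fun_prop) (by fun_prop)))

theorem convex_Dfull : Convex ℝ Dfull := by
  intro p hp q hq a b ha hb hab
  obtain ⟨⟨p1, p2⟩, p3, p4⟩ := mem_Dfull.mp hp
  obtain ⟨⟨q1, q2⟩, q3, q4⟩ := mem_Dfull.mp hq
  have k : ∀ x y c : ℝ, x < c → y < c → a * x + b * y < c := fun x y c hx hy =>
    convex_Iio c hx hy ha hb hab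
  have s : (a * p.1 + b * q.1) ^ 2 ≤ a * p.1 ^ 2 + b * q.1 ^ 2 := by
    obtain rfl : b = 1 - a := by linarith
    nlinarith [mul_nonneg (mul_nonneg ha hb) (sq_nonneg (p.1 - q.1))]
  rw [mem_Dfull]
  simp only [Prod.fst_add, Prod.snd_add, Prod.smul_fst, Prod.smul_snd, smul_eq_mul]
  refine ⟨⟨?_, k _ _ _ p2 q2⟩, ?_, ?_⟩
  · linarith [k (-p.1) (-q.1) 1.001 (by linarith) (by linarith)]
  · linarith [k (p.1 ^ 2 / 2 - p.2) (q.1 ^ 2 / 2 - q.2) 2.001 (by linarith) (by linarith)]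
  · linarith [k (p.1 ^ 2 / 2 + p.2) (q.1 ^ 2 / 2 + q.2) 2.001 (by linarith) (by linarith)]

theorem volume_Dfull :
    volume Dfull = ENNReal.ofReal (4 * 1.001 * 2.001 - 2 / 3 * 1.001 ^ 3) := by
  have i : ∀ {φ : ℝ → ℝ}, Continuous φ → IntegrableOn φ (Ioo (-1.001) 1.001) := fun h =>
    h.continuousOn.integrableOn_Icc.mono_set Ioo_subset_Icc_self
  rw [Measure.volume_eq_prod, Dfull, volume_regionBetween_eq_integral (i (by fun_prop))
    (i (by fun_prop)) measurableSet_Ioo (fun s hs => by nlinarith [hs.1, hs.2]),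
    ← integral_Ioc_eq_integral_Ioo, ← intervalIntegral.integral_of_le (by norm_num)]
  have hF : ∀ t : ℝ, HasDerivAt (fun x : ℝ => 4.002 * x ^ (0 + 1) + (-1 / 3) * x ^ (2 + 1))
      (2.001 - t ^ 2 / 2 - -(2.001 - t ^ 2 / 2)) t := by
    intro t
    refine ((hd_pow _ 0 t).add (hd_pow _ 2 t)).congr_deriv ?_
    push_cast
    ring
  simp only [Pi.sub_apply]
  rw [intervalIntegral.integral_eq_sub_of_hasDerivAt (fun t _ => hF t)
    (Continuous.intervalIntegrable (by fun_prop) _ _)]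
  norm_num

/-- the test function in a frame -/
noncomputable def Ffr (n e : E2) (q : E2) : ℝ := Ftest (inner ℝ n q, inner ℝ e q)

theorem contDiff_Ffr (n e : E2) : ContDiff ℝ 1 (Ffr n e) :=
  contDiff_Ftest.comp ((contDiff_const.inner ℝ contDiff_id).prodMk
    (contDiff_const.inner ℝ contDiff_id))

theorem Ffr_phi {n e : E2} (F : Fr n e) (p : ℝ × ℝ) : Ffr n e (Phi 0 n e p) = Ftest p := by
  have a := F.inner_e 0 p
  have b := F.inner_n 0 p
  rw [sub_zero] at a b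
  unfold Ffr
  rw [a, b]

theorem rayleigh_Ffr {n e : E2} (F : Fr n e) :
    ∫ x, ‖fderiv ℝ (Ffr n e) x‖ ^ 2 ≤ 5.22 * ∫ x, Ffr n e x ^ 2 := by
  have du := (contDiff_Ffr n e).differentiable one_ne_zero
  have dF := contDiff_Ftest.differentiable one_ne_zero
  have ux : ∀ p, fderiv ℝ (Ffr n e) (Phi 0 n e p) n = dx Ftest p := by
    rintro ⟨x, y⟩
    have a := hasDerivAt_phi_x 0 n e du x y
    simp only [Ffr_phi F] at a
    exact a.unique (hasDerivAt_dx (dF _))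
  have uy : ∀ p, fderiv ℝ (Ffr n e) (Phi 0 n e p) e = dy Ftest p := by
    rintro ⟨x, y⟩
    have a := hasDerivAt_phi_y 0 n e du x y
    simp only [Ffr_phi F] at a
    exact a.unique (hasDerivAt_dy (dF _))
  rw [← F.integral_phi 0 (fun x => ‖fderiv ℝ (Ffr n e) x‖ ^ 2),
    ← F.integral_phi 0 (fun x => Ffr n e x ^ 2)]
  simp only [F.norm_dual, ux, uy, Ffr_phi F]
  exact rayleigh_Ftest

theorem tsupport_Ffr (n e : E2) : tsupport (Ffr n e) ⊆
    {q | |inner ℝ n q| ≤ 1 ∧ 0 ≤ inner ℝ e q ∧ inner ℝ e q ≤ 2 - inner ℝ n q ^ 2 / 2} := by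
  have c1 : IsClosed {q : E2 | |inner ℝ n q| ≤ 1} := isClosed_le (by fun_prop) (by fun_prop)
  have c2 : IsClosed {q : E2 | 0 ≤ inner ℝ e q} := isClosed_le (by fun_prop) (by fun_prop)
  have c3 : IsClosed {q : E2 | inner ℝ e q ≤ 2 - inner ℝ n q ^ 2 / 2} :=
    isClosed_le (by fun_prop) (by fun_prop)
  refine closure_minimal (fun q hq => ?_) (c1.inter (c2.inter c3))
  have h : (inner ℝ n q, inner ℝ e q) ∈ Dhalf := by
    by_contra h
    exact hq (Ftest_out h)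
  exact ⟨abs_le.mpr ⟨h.1.1.le, h.1.2.le⟩, h.2.1.le, h.2.2.le⟩

theorem compact_Ffr {n e : E2} (F : Fr n e) : HasCompactSupport (Ffr n e) := by
  refine ((isCompact_Icc.prod isCompact_Icc :
    IsCompact (Icc (-1 : ℝ) 1 ×ˢ Icc (0 : ℝ) 2)).image (F.homeo 0).continuous).of_isClosed_subset
    (isClosed_tsupport _) fun q hq => ?_
  obtain ⟨a, b, c⟩ := tsupport_Ffr n e hq
  refine ⟨(inner ℝ n q, inner ℝ e q), ⟨abs_le.mp a, b, by nlinarith⟩, ?_⟩
  have := F.phi_coord 0 q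
  rwa [sub_zero] at this

theorem mem_RS_frame {n e : E2} (F : Fr n e) :
    (5.22 : ℝ) ∈ RS {q | (inner ℝ n q, inner ℝ e q) ∈ Dfull} := by
  have F' : Fr n (-e) := ⟨F.he, by rw [norm_neg, F.hn], by rw [inner_neg_right, F.hen, neg_zero]⟩
  refine two_piece (contDiff_Ffr n e) (contDiff_Ffr n (-e)) (compact_Ffr F) (compact_Ffr F')
    (fun q hq => ?_) (fun q hq => ?_) (fun q => Ftest_nonneg _) (fun q => Ftest_nonneg _)
    (fun q => ?_) (p := Phi 0 n e (0, 1)) (q := Phi 0 n (-e) (0, 1))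
    (by rw [Ffr_phi F]; exact Ftest_ne) (by rw [Ffr_phi F']; exact Ftest_ne)
    (rayleigh_Ffr F) (rayleigh_Ffr F')
  · obtain ⟨a, b, c⟩ := tsupport_Ffr n e hq
    rw [abs_le] at a
    exact mem_Dfull.mpr ⟨⟨by linarith [a.1], by linarith [a.2]⟩, by nlinarith [a.1, a.2],
      by linarith⟩
  · obtain ⟨a, b, c⟩ := tsupport_Ffr n (-e) hq
    rw [abs_le] at a
    rw [inner_neg_left] at b c
    exact mem_Dfull.mpr ⟨⟨by linarith [a.1], by linarith [a.2]⟩, by linarith,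
      by nlinarith [a.1, a.2]⟩
  · rcases le_total (inner ℝ e q) 0 with h | h
    · exact Or.inl (Ftest_out fun hm => absurd hm.2.1 (not_lt.mpr h))
    · refine Or.inr (Ftest_out fun hm => absurd hm.2.1 (not_lt.mpr ?_))
      rw [inner_neg_left]
      linarith

/-- **Competitor.** -/
theorem competitor {A : ℝ} (hA : 0 < A) : ∃ Ω : Set E2, IsOpen Ω ∧ Convex ℝ Ω ∧
    volume Ω = ENNReal.ofReal A ∧ ∃ r ∈ RS Ω, r * A ≤ 38.34 := by
  obtain ⟨n, e, F⟩ : ∃ n e : E2, Fr n e :=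
    ⟨EuclideanSpace.single 0 1, EuclideanSpace.single 1 1, by simp, by simp,
      by simp [EuclideanSpace.inner_single_left]⟩
  set a : ℝ := 4 * 1.001 * 2.001 - 2 / 3 * 1.001 ^ 3 with ha
  have ha0 : 0 < a := by norm_num [ha]
  set Ω : Set E2 := {q | (inner ℝ n q, inner ℝ e q) ∈ Dfull} with hΩ
  have hO : IsOpen Ω :=
    isOpen_Dfull.preimage (f := fun q : E2 => (inner ℝ n q, inner ℝ e q)) (by fun_prop)
  have hC : Convex ℝ Ω := by
    intro p hp q hq a b ha hb hab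
    have := convex_Dfull hp hq ha hb hab
    simpa [hΩ, inner_add_right, inner_smul_right] using this
  have hV : volume Ω = ENNReal.ofReal a := by
    rw [← (F.measurePreserving 0).measure_preimage hO.measurableSet.nullMeasurableSet,
      ← volume_Dfull]
    refine congrArg _ (Set.ext fun p => ?_)
    have a := F.inner_e 0 p
    have b := F.inner_n 0 p
    rw [sub_zero] at a b
    simp only [hΩ, mem_preimage, mem_ofPred_eq, a, b]
  have ht : 0 < √(A / a) := sqrt_pos.mpr (by positivity)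
  have ht2 : √(A / a) ^ 2 = A / a := sq_sqrt (by positivity)
  refine ⟨√(A / a) • Ω, hO.smul₀ ht.ne', hC.smul _, ?_, _, RS_smul ht (mem_RS_frame F), ?_⟩
  · rw [Measure.addHaar_smul, hV, finrank_euclideanSpace_fin, ht2, abs_of_pos (by positivity),
      ← ENNReal.ofReal_mul (by positivity), div_mul_cancel₀ _ ha0.ne']
  · rw [ht2]
    have : 5.22 / (A / a) * A = 5.22 * a := by field_simp
    rw [this, ha]
    norm_num

end Pool.Agent.L2H
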