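import Mathlib

/-! Height bound for the strip case of MP_2f6447_an: definitions (units `lam = 1`). -/

open Set MeasureTheory Filter Topology

namespace Pool.Agent.L2H

/-- derivative in the first variable -/
noncomputable def dx (u : ℝ × ℝ → ℝ) (p : ℝ × ℝ) : ℝ := fderiv ℝ u p (1, 0)

/-- derivative in the second variable -/
noncomputable def dy (u : ℝ × ℝ → ℝ) (p : ℝ × ℝ) : ℝ := fderiv ℝ u p (0, 1)

/-- A Lipschitz function vanishing off a bounded open set and solving `Δ u + u = 0` in it. -/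
structure Sol (Ω : Set (ℝ × ℝ)) (u : ℝ × ℝ → ℝ) : Prop where
  isOpen : IsOpen Ω
  bdd : Bornology.IsBounded Ω
  lip : ∃ K, LipschitzWith K u
  zero : ∀ p, p ∉ Ω → u p = 0
  smooth : ContDiffOn ℝ 2 u Ω
  helm : ∀ p ∈ Ω, dx (dx u) p + dy (dy u) p + u p = 0

/-- At height `y` a horizontal interval of positivity ends at a zero where `|∇u| → 1`. -/
def ArcAt (u : ℝ × ℝ → ℝ) (y : ℝ) : Prop :=
  ∃ a b : ℝ, a ≠ b ∧ (∀ x ∈ uIoo a b, 0 < u (x, y)) ∧ u (b, y) = 0 ∧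
    Tendsto (fun x => dx u (x, y) ^ 2 + dy u (x, y) ^ 2) (𝓝[uIoo a b] b) (𝓝 1)

/-- At some point of the line `y = 0` the upward slope of `u` is at least one. -/
def Slope (u : ℝ × ℝ → ℝ) : Prop :=
  ∃ x₀ : ℝ, ∀ ε > 0, ∀ᶠ t in 𝓝[>] (0 : ℝ), (1 - ε) * t ≤ u (x₀, t)

/-- `L²` mass of the positive part on the slice at height `y` -/
noncomputable def rho (u : ℝ × ℝ → ℝ) (y : ℝ) : ℝ := ∫ x, max (u (x, y)) 0 ^ 2

/-- `L¹` mass of the positive part on the slice at height `y` -/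
noncomputable def mas (u : ℝ × ℝ → ℝ) (y : ℝ) : ℝ := ∫ x, max (u (x, y)) 0

/-- length of the positivity set on the slice at height `y` -/
noncomputable def len (u : ℝ × ℝ → ℝ) (y : ℝ) : ℝ := (volume {x : ℝ | 0 < u (x, y)}).toReal

/-- horizontal energy of the positive part on the slice at height `y` -/
noncomputable def enx (u : ℝ × ℝ → ℝ) (y : ℝ) : ℝ :=
  ∫ x in {x : ℝ | 0 < u (x, y)}, dx u (x, y) ^ 2

theorem hasDerivAt_dx {u : ℝ × ℝ → ℝ} {x y : ℝ} (h : DifferentiableAt ℝ u (x, y)) :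
    HasDerivAt (fun t => u (t, y)) (dx u (x, y)) x := by
  have h1 : HasDerivAt (fun t : ℝ => ((t, y) : ℝ × ℝ)) ((1, 0) : ℝ × ℝ) x :=
    (hasDerivAt_id x).prodMk (hasDerivAt_const x y)
  exact h.hasFDerivAt.comp_hasDerivAt x h1

theorem hasDerivAt_dy {u : ℝ × ℝ → ℝ} {x y : ℝ} (h : DifferentiableAt ℝ u (x, y)) :
    HasDerivAt (fun t => u (x, t)) (dy u (x, y)) y := by
  have h1 : HasDerivAt (fun t : ℝ => ((x, t) : ℝ × ℝ)) ((0, 1) : ℝ × ℝ) y :=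
    (hasDerivAt_const y x).prodMk (hasDerivAt_id y)
  exact h.hasFDerivAt.comp_hasDerivAt y h1

theorem contDiffAt_dx {u : ℝ × ℝ → ℝ} {p : ℝ × ℝ} (h : ContDiffAt ℝ 2 u p) :
    ContDiffAt ℝ 1 (dx u) p := by
  have h1 : ContDiffAt ℝ 1 (fderiv ℝ u) p := h.fderiv_right (by norm_num)
  exact h1.clm_apply contDiffAt_const

theorem contDiffAt_dy {u : ℝ × ℝ → ℝ} {p : ℝ × ℝ} (h : ContDiffAt ℝ 2 u p) :
    ContDiffAt ℝ 1 (dy u) p := by
  have h1 : ContDiffAt ℝ 1 (fderiv ℝ u) p := h.fderiv_right (by norm_num)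
  exact h1.clm_apply contDiffAt_const

theorem Sol.contDiffAt {Ω : Set (ℝ × ℝ)} {u : ℝ × ℝ → ℝ} (S : Sol Ω u) {p : ℝ × ℝ}
    (hp : p ∈ Ω) : ContDiffAt ℝ 2 u p :=
  S.smooth.contDiffAt (S.isOpen.mem_nhds hp)

theorem Sol.continuous {Ω : Set (ℝ × ℝ)} {u : ℝ × ℝ → ℝ} (S : Sol Ω u) : Continuous u := by
  obtain ⟨K, hK⟩ := S.lip
  exact hK.continuous

theorem Sol.mem_of_ne {Ω : Set (ℝ × ℝ)} {u : ℝ × ℝ → ℝ} (S : Sol Ω u) {p : ℝ × ℝ}
    (hp : u p ≠ 0) : p ∈ Ω := by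
  by_contra h
  exact hp (S.zero p h)

theorem Sol.box {Ω : Set (ℝ × ℝ)} {u : ℝ × ℝ → ℝ} (S : Sol Ω u) :
    ∃ W : ℝ, 0 < W ∧ ∀ p ∈ Ω, |p.1| < W ∧ |p.2| < W := by
  obtain ⟨W, hW, h⟩ := S.bdd.exists_pos_norm_lt
  refine ⟨W, hW, fun p hp => ?_⟩
  have := h p hp
  rw [Prod.norm_def, max_lt_iff] at this
  exact this

theorem Sol.abs_dx_le {Ω : Set (ℝ × ℝ)} {u : ℝ × ℝ → ℝ} (S : Sol Ω u) :
    ∃ K : ℝ, 0 ≤ K ∧ ∀ p, |dx u p| ≤ K ∧ |dy u p| ≤ K := by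
  obtain ⟨K, hK⟩ := S.lip
  refine ⟨K, K.2, fun p => ⟨?_, ?_⟩⟩
  · have h1 := norm_fderiv_le_of_lipschitz ℝ hK (x₀ := p)
    have h2 := (fderiv ℝ u p).le_opNorm ((1, 0) : ℝ × ℝ)
    have h3 : ‖((1, 0) : ℝ × ℝ)‖ = 1 := by simp [Prod.norm_def]
    rw [h3, mul_one] at h2
    exact h2.trans h1
  · have h1 := norm_fderiv_le_of_lipschitz ℝ hK (x₀ := p)
    have h2 := (fderiv ℝ u p).le_opNorm ((0, 1) : ℝ × ℝ)
    have h3 : ‖((0, 1) : ℝ × ℝ)‖ = 1 := by simp [Prod.norm_def]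
    rw [h3, mul_one] at h2
    exact h2.trans h1

theorem measurable_dx (u : ℝ × ℝ → ℝ) : Measurable (dx u) :=
  measurable_fderiv_apply_const ℝ u (1, 0)

theorem measurable_dy (u : ℝ × ℝ → ℝ) : Measurable (dy u) :=
  measurable_fderiv_apply_const ℝ u (0, 1)

end Pool.Agent.L2H
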