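import Pool.Agent.P.MP_2f6447_an.H.Cut

/-! The `L¹` tail: unit gradient along an arc forces `∫ u₊ (·, Y) ≥ 1 - cos Y`. -/

open Set Real MeasureTheory Filter Topology

namespace Pool.Agent.L2H

variable {Ω : Set (ℝ × ℝ)} {u : ℝ × ℝ → ℝ}

theorem arc_piece {y c : ℝ} (h : ArcAt u y) (hc : c < 1) :
    ∃ lo hi : ℝ, lo < hi ∧
      (∀ x ∈ Ioo lo hi, 0 < u (x, y) ∧ c < dx u (x, y) ^ 2 + dy u (x, y) ^ 2) ∧
      ((u (lo, y) = 0 ∧ 0 < u (hi, y)) ∨ (0 < u (lo, y) ∧ u (hi, y) = 0)) := by
  obtain ⟨a, b, hab, hpos, hb, ht⟩ := h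
  have hev := ht.eventually (lt_mem_nhds hc)
  rw [eventually_nhdsWithin_iff, Metric.eventually_nhds_iff] at hev
  obtain ⟨δ, hδ, hev⟩ := hev
  rcases lt_or_gt_of_ne hab with h1 | h1
  · rw [uIoo_of_lt h1] at hpos hev
    obtain ⟨m, hm1, hm2⟩ := exists_between (max_lt h1 (by linarith : b - δ < b))
    rw [max_lt_iff] at hm1
    refine ⟨m, b, hm2, fun x hx => ?_, Or.inr ⟨hpos m ⟨hm1.1, hm2⟩, hb⟩⟩
    have hx' : x ∈ Ioo a b := ⟨hm1.1.trans hx.1, hx.2⟩
    refine ⟨hpos x hx', hev ?_ hx'⟩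
    rw [Real.dist_eq, abs_lt]
    constructor <;> linarith [hx.1, hx.2, hm1.2]
  · rw [uIoo_of_gt h1] at hpos hev
    obtain ⟨m, hm1, hm2⟩ := exists_between (lt_min h1 (by linarith : b < b + δ))
    rw [lt_min_iff] at hm2
    refine ⟨b, m, hm1, fun x hx => ?_, Or.inl ⟨hb, hpos m ⟨hm1, hm2.1⟩⟩⟩
    have hx' : x ∈ Ioo b a := ⟨hx.1, hx.2.trans hm2.1⟩
    refine ⟨hpos x hx', hev ?_ hx'⟩
    rw [Real.dist_eq, abs_lt]
    constructor <;> linarith [hx.1, hx.2, hm2.2]

/-- `Δ F + F` -/
noncomputable def LL (F : ℝ × ℝ → ℝ) (p : ℝ × ℝ) : ℝ := dx (dx F) p + dy (dy F) p + F p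

theorem continuous_dx {F : ℝ × ℝ → ℝ} (hF : ContDiff ℝ 1 F) : Continuous (dx F) :=
  (hF.continuous_fderiv (by norm_num)).clm_apply continuous_const

theorem continuous_dy {F : ℝ × ℝ → ℝ} (hF : ContDiff ℝ 1 F) : Continuous (dy F) :=
  (hF.continuous_fderiv (by norm_num)).clm_apply continuous_const

theorem contDiff_dx {F : ℝ × ℝ → ℝ} (hF : ContDiff ℝ 2 F) : ContDiff ℝ 1 (dx F) :=
  contDiff_iff_contDiffAt.mpr fun _ => contDiffAt_dx hF.contDiffAt

theorem contDiff_dy {F : ℝ × ℝ → ℝ} (hF : ContDiff ℝ 2 F) : ContDiff ℝ 1 (dy F) :=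
  contDiff_iff_contDiffAt.mpr fun _ => contDiffAt_dy hF.contDiffAt

theorem continuous_LL {F : ℝ × ℝ → ℝ} (hF : ContDiff ℝ 2 F) : Continuous (LL F) :=
  ((continuous_dx (contDiff_dx hF)).add (continuous_dy (contDiff_dy hF))).add hF.continuous

theorem green_strip {F : ℝ × ℝ → ℝ} (hF : ContDiff ℝ 2 F) {l Y : ℝ}
    (h0 : ∀ x, F (x, 0) = 0 ∧ dy F (x, 0) = 0) (h1 : ∀ y, dx F (l, y) = 0 ∧ dx F (-l, y) = 0) :
    ∫ x in (-l)..l, F (x, Y) = ∫ y in (0 : ℝ)..Y, sin (Y - y) * ∫ x in (-l)..l, LL F (x, y) := by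
  have cxx := continuous_dx (contDiff_dx hF)
  have cyy := continuous_dy (contDiff_dy hF)
  have cF := hF.continuous
  have e1 : ∀ x, F (x, Y) =
      ∫ y in (0 : ℝ)..Y, sin (Y - y) * (dy (dy F) (x, y) + F (x, y)) := by
    intro x
    have hd : ∀ y, HasDerivAt (fun y => dy F (x, y) * sin (Y - y) + F (x, y) * cos (Y - y))
        (sin (Y - y) * (dy (dy F) (x, y) + F (x, y))) y := by
      intro y
      have a := ((hasDerivAt_id y).const_sub Y).sin
      have b := ((hasDerivAt_id y).const_sub Y).cos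
      simp only [id] at a b
      have c1 := hasDerivAt_dy (x := x) (y := y)
        ((contDiff_dy hF).differentiable (by norm_num) _)
      have c2 := hasDerivAt_dy (x := x) (y := y) (hF.differentiable (by norm_num) _)
      refine ((c1.mul a).add (c2.mul b)).congr_deriv ?_
      ring
    rw [intervalIntegral.integral_eq_sub_of_hasDerivAt (fun y _ => hd y)
      (Continuous.intervalIntegrable (by fun_prop) _ _)]
    simp [(h0 x).1, (h0 x).2]
  have e2 : ∀ y, ∫ x in (-l)..l, LL F (x, y) =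
      ∫ x in (-l)..l, (dy (dy F) (x, y) + F (x, y)) := by
    intro y
    have z : ∫ x in (-l)..l, dx (dx F) (x, y) = 0 := by
      rw [intervalIntegral.integral_eq_sub_of_hasDerivAt
        (fun x _ => hasDerivAt_dx (y := y) ((contDiff_dx hF).differentiable (by norm_num) _))
        (Continuous.intervalIntegrable (by fun_prop) _ _), (h1 y).1, (h1 y).2, sub_zero]
    have : ∀ x, LL F (x, y) = dx (dx F) (x, y) + (dy (dy F) (x, y) + F (x, y)) := fun x => by
      rw [LL]; ring
    simp_rw [this]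
    rw [intervalIntegral.integral_add (Continuous.intervalIntegrable (by fun_prop) _ _)
      (Continuous.intervalIntegrable (by fun_prop) _ _), z, zero_add]
  simp_rw [e2, ← intervalIntegral.integral_const_mul]
  rw [← intervalIntegral_intervalIntegral_swap
    (F := fun x y => sin (Y - y) * (dy (dy F) (x, y) + F (x, y)))]
  · exact intervalIntegral.integral_congr fun x _ => e1 x
  · have hc : Continuous (Function.uncurry
        fun x y : ℝ => sin (Y - y) * (dy (dy F) (x, y) + F (x, y))) := by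
      unfold Function.uncurry
      fun_prop
    exact (hc.continuousOn.integrableOn_compact (isCompact_uIcc.prod isCompact_uIcc)).mono_set
      (prod_mono uIoc_subset_uIcc uIoc_subset_uIcc)

theorem Cut.LL_ge {ε : ℝ} {f g g' : ℝ → ℝ} (C : Cut ε f g g') (S : Sol Ω u) (hε : 0 < ε)
    (p : ℝ × ℝ) : 0 ≤ LL (fun q => f (u q)) p + 2 * ε ∧
      (p ∈ Ω → g' (u p) * (dx u p ^ 2 + dy u p ^ 2) ≤ LL (fun q => f (u q)) p + 2 * ε) := by
  have h2 : p ∈ Ω → g' (u p) * (dx u p ^ 2 + dy u p ^ 2) ≤ LL (fun q => f (u q)) p + 2 * ε := by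
    intro hp
    rw [LL, C.lap S hp]
    linarith [C.gap (u p)]
  refine ⟨?_, h2⟩
  by_cases hp : p ∈ Ω
  · exact le_trans (mul_nonneg (C.nn _) (by positivity)) (h2 hp)
  · obtain ⟨a, -, -, b, c⟩ := C.off S hε hp
    rw [LL, a, b, c]
    positivity

theorem Cut.slice_ge {ε : ℝ} {f g g' : ℝ → ℝ} (C : Cut ε f g g') (S : Sol Ω u) (hε : 0 < ε)
    {l y lo hi c : ℝ} (hbox : ∀ p ∈ Ω, |p.1| < l) (hlt : lo < hi) (hc : 0 < c)
    (hin : ∀ x ∈ Ioo lo hi, 0 < u (x, y) ∧ c ^ 2 < dx u (x, y) ^ 2 + dy u (x, y) ^ 2)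
    (hend : (u (lo, y) = 0 ∧ 2 * ε ≤ u (hi, y)) ∨ (2 * ε ≤ u (lo, y) ∧ u (hi, y) = 0)) :
    c ≤ ∫ x in (-l)..l, (LL (fun q => f (u q)) (x, y) + 2 * ε) := by
  set G : ℝ → ℝ := fun x => LL (fun q => f (u q)) (x, y) + 2 * ε with hG
  have hGc : Continuous G :=
    ((continuous_LL (C.contDiff S hε)).comp (by fun_prop)).add continuous_const
  have hG0 : ∀ x, 0 ≤ G x := fun x => (C.LL_ge S hε _).1
  have hsub : Ioo lo hi ⊆ Icc (-l) l := fun x hx => by
    have := abs_lt.mp (hbox _ (S.mem_of_ne (hin x hx).1.ne'))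
    exact ⟨this.1.le, this.2.le⟩
  have hsub' : Icc lo hi ⊆ Icc (-l) l := by
    have := closure_minimal hsub isClosed_Icc
    rwa [closure_Ioo hlt.ne] at this
  have hlo := (hsub' (left_mem_Icc.mpr hlt.le)).1
  have hhi := (hsub' (right_mem_Icc.mpr hlt.le)).2
  have hmono : ∫ x in lo..hi, G x ≤ ∫ x in (-l)..l, G x :=
    intervalIntegral.integral_mono_interval hlo hlt.le hhi (Eventually.of_forall hG0)
      (hGc.intervalIntegrable _ _)
  have hgc : Continuous g := continuous_iff_continuousAt.mpr fun s => (C.d2 s).continuousAt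
  have hψc : Continuous fun x => c * g (u (x, y)) :=
    continuous_const.mul (hgc.comp (S.continuous.comp (by fun_prop)))
  have hψ : ∀ x ∈ Ioo lo hi, HasDerivAt (fun x => c * g (u (x, y)))
      (c * (g' (u (x, y)) * dx u (x, y))) x ∧ |c * (g' (u (x, y)) * dx u (x, y))| ≤ G x := by
    intro x hx
    have hΩ : (x, y) ∈ Ω := S.mem_of_ne (hin x hx).1.ne'
    refine ⟨((C.d2 (u (x, y))).comp x
      (hasDerivAt_dx ((S.contDiffAt hΩ).differentiableAt (by norm_num)))).const_mul c, ?_⟩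
    refine le_trans ?_ ((C.LL_ge S hε _).2 hΩ)
    rw [abs_mul, abs_mul, abs_of_pos hc, abs_of_nonneg (C.nn _), mul_left_comm]
    refine mul_le_mul_of_nonneg_left ?_ (C.nn _)
    have h1 := (hin x hx).2
    have h2 := sq_abs (dx u (x, y))
    nlinarith [sq_nonneg (c - |dx u (x, y)|), sq_nonneg (dy u (x, y))]
  refine le_trans ?_ hmono
  rcases hend with h | h
  · have := intervalIntegral.sub_le_integral_of_hasDeriv_right_of_le hlt.le hψc.continuousOn
      (fun x hx => (hψ x hx).1.hasDerivWithinAt) (hGc.continuousOn.integrableOn_Icc)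
      (fun x hx => (le_abs_self _).trans (hψ x hx).2)
    rw [C.g1 _ h.2, h.1, C.g0 _ hε.le] at this
    linarith
  · have := intervalIntegral.sub_le_integral_of_hasDeriv_right_of_le hlt.le
      hψc.neg.continuousOn (fun x hx => (hψ x hx).1.neg.hasDerivWithinAt)
      (hGc.continuousOn.integrableOn_Icc) (fun x hx => (neg_le_abs _).trans (hψ x hx).2)
    simp only [Pi.neg_apply] at this
    rw [C.g1 _ h.1, h.2, C.g0 _ hε.le] at this
    linarith

theorem mtail (S : Sol Ω u) (hup : ∀ p ∈ Ω, 0 < p.2) {Y : ℝ} (hY : 0 < Y) (hY' : Y ≤ π)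
    (harc : ∀ y ∈ Ioo 0 Y, ArcAt u y) : 1 - cos Y ≤ mas u Y := by
  obtain ⟨l, hl, hbox'⟩ := S.box
  have hbox : ∀ p ∈ Ω, |p.1| < l := fun p hp => (hbox' p hp).1
  have hcut : ∀ n : ℕ, ∃ f g g', Cut (1 / ((n : ℝ) + 1)) f g g' := fun n =>
    exists_cut (by positivity)
  choose f g g' C using hcut
  have hε : ∀ n : ℕ, (0 : ℝ) < 1 / ((n : ℝ) + 1) := fun n => by positivity
  have hε0 : Tendsto (fun n : ℕ => (1 : ℝ) / ((n : ℝ) + 1)) atTop (𝓝 0) :=
    tendsto_one_div_add_atTop_nhds_zero_nat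
  set H : ℕ → ℝ → ℝ := fun n y =>
    ∫ x in (-l)..l, (LL (fun q => f n (u q)) (x, y) + 2 * (1 / ((n : ℝ) + 1))) with hH
  have hLc : ∀ n, Continuous (LL fun q => f n (u q)) := fun n =>
    continuous_LL ((C n).contDiff S (hε n))
  have hHc : ∀ n, Continuous (H n) := fun n =>
    intervalIntegral.continuous_parametric_intervalIntegral_of_continuous'
      (f := fun y x => LL (fun q => f n (u q)) (x, y) + 2 * (1 / ((n : ℝ) + 1)))
      (((hLc n).comp continuous_swap).add continuous_const) _ _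
  have hH0 : ∀ n y, 0 ≤ H n y := fun n y =>
    intervalIntegral.integral_nonneg (by linarith) fun x _ => ((C n).LL_ge S (hε n) _).1
  have hmas : ∫ x in (-l)..l, max (u (x, Y)) 0 = mas u Y :=
    S.integral_slice hl hbox Y (g := fun s => max s 0) (by simp)
  have hstep : ∀ n : ℕ,
      ∫ y in (0 : ℝ)..Y, sin (Y - y) * (min (H n y) 1 - 2 * l * (2 * (1 / ((n : ℝ) + 1)))) ≤
        mas u Y := by
    intro n
    have hF := (C n).contDiff S (hε n)
    have hg := green_strip hF (l := l) (Y := Y)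
      (fun x => by
        obtain ⟨a, -, b, -⟩ := (C n).off S (hε n) (p := (x, 0)) fun h => lt_irrefl _ (hup _ h)
        exact ⟨a, b⟩)
      (fun y => ⟨((C n).off S (hε n) (p := (l, y)) fun h => by
          have := hbox _ h
          rw [abs_of_pos hl] at this
          exact lt_irrefl _ this).2.1,
        ((C n).off S (hε n) (p := (-l, y)) fun h => by
          have := hbox _ h
          rw [abs_neg, abs_of_pos hl] at this
          exact lt_irrefl _ this).2.1⟩)
    have h1 : ∫ x in (-l)..l, f n (u (x, Y)) ≤ mas u Y := by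
      rw [← hmas]
      exact intervalIntegral.integral_mono_on (by linarith)
        (Continuous.intervalIntegrable (hF.continuous.comp (by fun_prop)) _ _)
        (Continuous.intervalIntegrable
          ((S.continuous.comp (by fun_prop)).max continuous_const) _ _)
        fun x _ => (C n).fle _
    refine le_trans ?_ (hg ▸ h1)
    have e : ∀ y, ∫ x in (-l)..l, LL (fun q => f n (u q)) (x, y) =
        H n y - 2 * l * (2 * (1 / ((n : ℝ) + 1))) := by
      intro y
      simp only [hH]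
      have c0 := hLc n
      rw [intervalIntegral.integral_add (Continuous.intervalIntegrable (by fun_prop) _ _)
        (continuous_const.intervalIntegrable _ _), intervalIntegral.integral_const]
      simp only [smul_eq_mul]
      ring
    simp_rw [e]
    have c1 := hHc n
    refine intervalIntegral.integral_mono_on hY.le
      (Continuous.intervalIntegrable (by fun_prop) _ _)
      (Continuous.intervalIntegrable (by fun_prop) _ _) fun y hy => ?_
    refine mul_le_mul_of_nonneg_left (by linarith [min_le_left (H n y) 1]) ?_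
    exact sin_nonneg_of_nonneg_of_le_pi (by linarith [hy.2]) (by linarith [hy.1])
  have hlim : ∀ y ∈ Ioo 0 Y, Tendsto (fun n => min (H n y) 1) atTop (𝓝 1) := by
    intro y hy
    refine tendsto_order.mpr ⟨fun c hc => ?_, fun c hc =>
      Eventually.of_forall fun n => (min_le_right _ _).trans_lt hc⟩
    obtain ⟨c', hc1, hc2⟩ := exists_between (max_lt hc one_pos)
    rw [max_lt_iff] at hc1
    obtain ⟨lo, hi, hlt, hin, hend⟩ := arc_piece (harc y hy) (c := c' ^ 2) (by nlinarith)
    have h2 : Tendsto (fun n : ℕ => 2 * (1 / ((n : ℝ) + 1))) atTop (𝓝 0) := by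
      simpa using hε0.const_mul 2
    rcases hend with h | h
    · filter_upwards [h2.eventually (gt_mem_nhds h.2)] with n hn
      exact lt_min (hc1.1.trans_le ((C n).slice_ge S (hε n) hbox hlt hc1.2 hin
        (Or.inl ⟨h.1, hn.le⟩))) hc
    · filter_upwards [h2.eventually (gt_mem_nhds h.1)] with n hn
      exact lt_min (hc1.1.trans_le ((C n).slice_ge S (hε n) hbox hlt hc1.2 hin
        (Or.inr ⟨hn.le, h.2⟩))) hc
  have ht : Tendsto (fun n : ℕ =>
      ∫ y in (0 : ℝ)..Y, sin (Y - y) * (min (H n y) 1 - 2 * l * (2 * (1 / ((n : ℝ) + 1))))) atTop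
      (𝓝 (∫ y in (0 : ℝ)..Y, sin (Y - y))) := by
    refine intervalIntegral.tendsto_integral_filter_of_dominated_convergence
      (fun _ => 1 + 4 * l) (Eventually.of_forall fun n => ?_)
      (Eventually.of_forall fun n => Eventually.of_forall fun y _ => ?_)
      (continuous_const.intervalIntegrable _ _) ?_
    · have c1 := hHc n
      exact Continuous.aestronglyMeasurable (by fun_prop)
    · rw [norm_mul]
      have a1 : ‖sin (Y - y)‖ ≤ 1 := abs_sin_le_one _
      have a2 : ‖min (H n y) 1 - 2 * l * (2 * (1 / ((n : ℝ) + 1)))‖ ≤ 1 + 4 * l := by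
        have b1 : 0 ≤ min (H n y) 1 := le_min (hH0 n y) zero_le_one
        have b2 := min_le_right (H n y) 1
        have b3 : (1 : ℝ) / ((n : ℝ) + 1) ≤ 1 := by
          rw [div_le_one (by positivity)]; linarith [Nat.cast_nonneg (α := ℝ) n]
        have b4 := hε n
        rw [Real.norm_eq_abs, abs_le]
        constructor <;> nlinarith
      calc _ ≤ 1 * (1 + 4 * l) := mul_le_mul a1 a2 (norm_nonneg _) zero_le_one
        _ = _ := one_mul _
    · have hne : ∀ᵐ y : ℝ, y ≠ Y := by simp [ae_iff, measure_singleton]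
      filter_upwards [hne] with y hy hmem
      rw [uIoc_of_le hY.le] at hmem
      have h1 := hlim y ⟨hmem.1, lt_of_le_of_ne hmem.2 hy⟩
      have h2 := ((hε0.const_mul 2).const_mul (2 * l))
      simpa using (h1.sub h2).const_mul (sin (Y - y))
  have hI : ∫ y in (0 : ℝ)..Y, sin (Y - y) = 1 - cos Y := by
    rw [intervalIntegral.integral_comp_sub_left (fun y => sin y) Y]
    simp
  rw [← hI]
  exact le_of_tendsto' ht hstep

end Pool.Agent.L2H
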