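import Mathlib

/-! Explicit numbers: the profile `sfun`, the bound `beta` and its integral. -/

open Set Real MeasureTheory

namespace Pool.Agent.L2H

theorem nonneg_of_deriv {g g' : ℝ → ℝ} (h : ∀ t, HasDerivAt g (g' t) t) (h0 : g 0 = 0)
    (hp : ∀ t, 0 ≤ t → 0 ≤ g' t) {y : ℝ} (hy : 0 ≤ y) : 0 ≤ g y := by
  have hm : MonotoneOn g (Ici 0) :=
    monotoneOn_of_deriv_nonneg (convex_Ici 0)
      (fun t _ => (h t).continuousAt.continuousWithinAt)
      (fun t _ => (h t).differentiableAt.differentiableWithinAt)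
      (fun t ht => by
        rw [(h t).deriv]
        exact hp t (interior_subset ht))
  have := hm (mem_Ici.mpr le_rfl) (mem_Ici.mpr hy) hy
  rwa [h0] at this

theorem hd_pow (c : ℝ) (n : ℕ) (t : ℝ) :
    HasDerivAt (fun s : ℝ => c * s ^ (n + 1)) (c * (n + 1) * t ^ n) t := by
  have := (hasDerivAt_pow (n + 1) t).const_mul c
  refine this.congr_deriv ?_
  push_cast
  ring

theorem sin_ge3 {y : ℝ} (hy : 0 ≤ y) : 0 ≤ sin y - 1 * y ^ 1 + 1 / 6 * y ^ 3 :=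
  nonneg_of_deriv (g := fun s => sin s - 1 * s ^ 1 + 1 / 6 * s ^ 3)
    (fun t => ((hasDerivAt_sin t).sub (hd_pow 1 0 t)).add (hd_pow (1 / 6) 2 t)) (by simp)
    (fun t _ => by have := one_sub_sq_div_two_le_cos (x := t); push_cast; nlinarith) hy

theorem cos_le4 {y : ℝ} (hy : 0 ≤ y) : 0 ≤ 1 - cos y - 1 / 2 * y ^ 2 + 1 / 24 * y ^ 4 :=
  nonneg_of_deriv (g := fun s => 1 - cos s - 1 / 2 * s ^ 2 + 1 / 24 * s ^ 4)
    (fun t => (((hasDerivAt_cos t).const_sub 1).sub (hd_pow (1 / 2) 1 t)).add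
      (hd_pow (1 / 24) 3 t)) (by simp)
    (fun t ht => by have := sin_ge3 ht; push_cast; nlinarith) hy

theorem sin_le5 {y : ℝ} (hy : 0 ≤ y) :
    0 ≤ 1 * y ^ 1 - sin y - 1 / 6 * y ^ 3 + 1 / 120 * y ^ 5 :=
  nonneg_of_deriv (g := fun s => 1 * s ^ 1 - sin s - 1 / 6 * s ^ 3 + 1 / 120 * s ^ 5)
    (fun t => (((hd_pow 1 0 t).sub (hasDerivAt_sin t)).sub (hd_pow (1 / 6) 2 t)).add
      (hd_pow (1 / 120) 4 t)) (by simp)
    (fun t ht => by have := cos_le4 ht; push_cast; nlinarith) hy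

theorem cos_ge6 {y : ℝ} (hy : 0 ≤ y) :
    0 ≤ cos y - 1 + 1 / 2 * y ^ 2 - 1 / 24 * y ^ 4 + 1 / 720 * y ^ 6 :=
  nonneg_of_deriv (g := fun s => cos s - 1 + 1 / 2 * s ^ 2 - 1 / 24 * s ^ 4 + 1 / 720 * s ^ 6)
    (fun t => ((((hasDerivAt_cos t).sub_const 1).add (hd_pow (1 / 2) 1 t)).sub
      (hd_pow (1 / 24) 3 t)).add (hd_pow (1 / 720) 5 t)) (by simp)
    (fun t ht => by have := sin_le5 ht; push_cast; nlinarith) hy

theorem sin_ge7 {y : ℝ} (hy : 0 ≤ y) :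
    0 ≤ sin y - 1 * y ^ 1 + 1 / 6 * y ^ 3 - 1 / 120 * y ^ 5 + 1 / 5040 * y ^ 7 :=
  nonneg_of_deriv
    (g := fun s => sin s - 1 * s ^ 1 + 1 / 6 * s ^ 3 - 1 / 120 * s ^ 5 + 1 / 5040 * s ^ 7)
    (fun t => ((((hasDerivAt_sin t).sub (hd_pow 1 0 t)).add (hd_pow (1 / 6) 2 t)).sub
      (hd_pow (1 / 120) 4 t)).add (hd_pow (1 / 5040) 6 t)) (by simp)
    (fun t ht => by have := cos_ge6 ht; push_cast; nlinarith) hy

theorem sin_sub_ge9 {y : ℝ} (hy : 0 ≤ y) : 0 ≤ sin y - y * cos y - 1 / 3 * y ^ 3 +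
    1 / 30 * y ^ 5 - 1 / 840 * y ^ 7 + 1 / 45360 * y ^ 9 :=
  nonneg_of_deriv
    (g := fun s => sin s - s * cos s - 1 / 3 * s ^ 3 + 1 / 30 * s ^ 5 - 1 / 840 * s ^ 7 +
      1 / 45360 * s ^ 9)
    (fun t => (((((hasDerivAt_sin t).sub ((hasDerivAt_id' t).mul (hasDerivAt_cos t))).sub
      (hd_pow (1 / 3) 2 t)).add (hd_pow (1 / 30) 4 t)).sub (hd_pow (1 / 840) 6 t)).add
      (hd_pow (1 / 45360) 8 t)) (by simp)
    (fun t ht => by
      have := mul_nonneg ht (sin_ge7 ht)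
      push_cast
      nlinarith) hy

/-- the lower profile for the cube root of the slice mass -/
noncomputable def sfun (y : ℝ) : ℝ := 1.1775 * (y * (1 - y ^ 2 / 12) * (1 - y ^ 2 / 56))

theorem sfun_nonneg {y : ℝ} (hy : 0 ≤ y) (hy' : y ≤ 2.64) : 0 ≤ sfun y := by
  have h1 : 0 ≤ 1 - y ^ 2 / 12 := by nlinarith
  have h2 : 0 ≤ 1 - y ^ 2 / 56 := by nlinarith
  unfold sfun
  positivity

theorem sfun_le {y : ℝ} (hy : 0 ≤ y) (hy' : y ≤ 2.64) : sfun y ≤ 1.48 := by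
  have h1 : 0 ≤ 1 - y ^ 2 / 12 := by nlinarith
  have h2 : 0 ≤ 1 - y ^ 2 / 56 := by nlinarith
  have h0 : 0 ≤ y * (1 - y ^ 2 / 12) := mul_nonneg hy h1
  have key : ∀ a b : ℝ, y * (1 - y ^ 2 / 12) ≤ a → 1 - y ^ 2 / 56 ≤ b → a * b ≤ 1.2568 →
      sfun y ≤ 1.48 := by
    intro a b ha hb hab
    have := mul_le_mul ha hb h2 (h0.trans ha)
    unfold sfun
    linarith
  rcases le_total y 1.57 with a | a
  · refine key 1.25 1 ?_ (by nlinarith) (by norm_num)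
    nlinarith [mul_nonneg (sub_nonneg.mpr a) (by nlinarith : 0 ≤ 12 - (1.57 ^ 2 + 1.57 * y + y ^ 2))]
  rcases le_total y 1.8 with b | b
  · refine key 1.314 0.956 ?_ (by nlinarith) (by norm_num)
    nlinarith [mul_nonneg (sub_nonneg.mpr b) (by nlinarith : 0 ≤ 12 - (1.8 ^ 2 + 1.8 * y + y ^ 2))]
  · refine key (4 / 3) 0.9422 ?_ (by nlinarith) (by norm_num)
    nlinarith [mul_nonneg (sq_nonneg (y - 2)) (by linarith : 0 ≤ y + 4)]

theorem sfun_cube_le {y ρ : ℝ} (hy : 0 ≤ y) (hy' : y ≤ 2.64) (hρ : 0 ≤ ρ)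
    (h : 8 * sin y ^ 3 * (sin y - y * cos y) ≤ ρ ^ 2) : sfun y ^ 3 ≤ ρ := by
  have hz0 : 0 ≤ y ^ 2 := sq_nonneg y
  have hz : y ^ 2 ≤ 7 := by nlinarith
  have h1 : y * (1 - y ^ 2 / 12) ^ 2 ≤ sin y := by
    have a := sin_ge7 hy
    have b : 0 ≤ y ^ 5 * (7 - y ^ 2) := mul_nonneg (by positivity) (by linarith)
    nlinarith
  have h2 : y ^ 3 / 3 * (1 - y ^ 2 / 56) ^ 6 ≤ sin y - y * cos y := by
    have a := sin_sub_ge9 hy
    have b : ∀ w : ℝ, 0 ≤ w → w ≤ 1 / 8 →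
        (1 - w) ^ 6 ≤ 1 - 28 / 5 * w + 56 / 5 * w ^ 2 - 175616 / 15120 * w ^ 3 := by
      intro w hw hw'
      have c : 0 ≤ 2 / 5 - 19 / 5 * w + (20 - 175616 / 15120) * w ^ 2 - 15 * w ^ 3 + 6 * w ^ 4 -
          w ^ 5 := by
        have e1 : 0 ≤ w ^ 4 * (6 - w) := mul_nonneg (by positivity) (by linarith)
        have e2 : 0 ≤ w ^ 2 * (1 / 8 - w) := mul_nonneg (by positivity) (by linarith)
        have e3 : 0 ≤ (1 / 8 - w) * (1 / 4 - w) := mul_nonneg (by linarith) (by linarith)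
        nlinarith
      nlinarith [mul_nonneg hw c]
    have c := mul_le_mul_of_nonneg_left (b (y ^ 2 / 56) (by positivity) (by linarith))
      (by positivity : 0 ≤ y ^ 3 / 3)
    nlinarith
  have h3 : (y * (1 - y ^ 2 / 12) ^ 2) ^ 3 ≤ sin y ^ 3 :=
    pow_le_pow_left₀ (by positivity) h1 3
  have h4 := mul_le_mul h3 h2 (by positivity) ((by positivity : (0 : ℝ) ≤ _).trans h3)
  refine (pow_le_pow_iff_left₀ (pow_nonneg (sfun_nonneg hy hy') 3) hρ (by norm_num : 2 ≠ 0)).mp ?_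
  have h5 : (sfun y ^ 3) ^ 2 = 1.1775 ^ 6 * 3 *
      ((y * (1 - y ^ 2 / 12) ^ 2) ^ 3 * (y ^ 3 / 3 * (1 - y ^ 2 / 56) ^ 6)) := by
    unfold sfun; ring
  have h6 : 0 ≤ (y * (1 - y ^ 2 / 12) ^ 2) ^ 3 * (y ^ 3 / 3 * (1 - y ^ 2 / 56) ^ 6) := by
    positivity
  have h7 : (1.1775 : ℝ) ^ 6 * 3 ≤ 8 := by norm_num
  rw [h5]
  calc _ ≤ 8 * ((y * (1 - y ^ 2 / 12) ^ 2) ^ 3 * (y ^ 3 / 3 * (1 - y ^ 2 / 56) ^ 6)) :=
        mul_le_mul_of_nonneg_right h7 h6
    _ ≤ 8 * (sin y ^ 3 * (sin y - y * cos y)) := by linarith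
    _ ≤ ρ ^ 2 := by linarith

theorem one_sub_cos_ge {y : ℝ} (hy : 2.64 ≤ y) (hy' : y ≤ π) : 1.874 ≤ 1 - cos y := by
  have h := one_sub_sq_div_two_le_cos (x := π - y)
  rw [cos_pi_sub] at h
  have h1 : π - y ≤ 0.5016 := by linarith [pi_lt_d4]
  nlinarith

/-- the explicit lower bound for the cost of a slice at distance `y` from a wall -/
noncomputable def beta (y : ℝ) : ℝ :=
  (Ioc (0 : ℝ) 2.64).indicator (fun t => 4.053 * sfun t - sfun t ^ 3 / 4) y +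
    (Ioo (2.64 : ℝ) π).indicator (fun _ => 3.966) y

theorem continuous_sfun : Continuous sfun := by unfold sfun; fun_prop

theorem integrable_beta1 :
    Integrable ((Ioc (0 : ℝ) 2.64).indicator fun t => 4.053 * sfun t - sfun t ^ 3 / 4) := by
  refine (integrable_indicator_iff measurableSet_Ioc).mpr ?_
  have := continuous_sfun
  exact (Continuous.continuousOn (by fun_prop)).integrableOn_Icc.mono_set Ioc_subset_Icc_self

theorem integrable_beta2 : Integrable ((Ioo (2.64 : ℝ) π).indicator fun _ => (3.966 : ℝ)) :=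
  (integrable_indicator_iff measurableSet_Ioo).mpr (integrableOn_const measure_Ioo_lt_top.ne)

theorem integrable_beta : Integrable beta := integrable_beta1.add integrable_beta2

theorem beta_zero {y : ℝ} (hy : y ≤ 0 ∨ π ≤ y) : beta y = 0 := by
  have hp := pi_gt_d2
  unfold beta
  rw [indicator_of_notMem, indicator_of_notMem, add_zero]
  · rintro ⟨a, b⟩
    rcases hy with h | h <;> linarith
  · rintro ⟨a, b⟩
    rcases hy with h | h <;> linarith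

theorem integral_beta1 :
    10.079 ≤ ∫ t in (0 : ℝ)..2.64, (4.053 * sfun t - sfun t ^ 3 / 4) := by
  set c : ℝ := 1.1775 with hc
  set a : ℝ := 17 / 168 with ha
  set b : ℝ := 1 / 672 with hb
  have hF : ∀ t : ℝ, HasDerivAt (fun s : ℝ =>
      4.053 * c / 2 * s ^ (1 + 1) + (-(4.053 * c * a / 4) - c ^ 3 / 16) * s ^ (3 + 1) +
        (4.053 * c * b / 6 + c ^ 3 * a / 8) * s ^ (5 + 1) +
        (-(c ^ 3 * (3 * a ^ 2 + 3 * b) / 32)) * s ^ (7 + 1) +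
        c ^ 3 * (a ^ 3 + 6 * a * b) / 40 * s ^ (9 + 1) +
        (-(c ^ 3 * (3 * a ^ 2 * b + 3 * b ^ 2) / 48)) * s ^ (11 + 1) +
        c ^ 3 * (3 * a * b ^ 2) / 56 * s ^ (13 + 1) + (-(c ^ 3 * b ^ 3 / 64)) * s ^ (15 + 1))
      (4.053 * sfun t - sfun t ^ 3 / 4) t := by
    intro t
    refine ((((((((hd_pow _ 1 t).add (hd_pow _ 3 t)).add (hd_pow _ 5 t)).add (hd_pow _ 7 t)).add
      (hd_pow _ 9 t)).add (hd_pow _ 11 t)).add (hd_pow _ 13 t)).add (hd_pow _ 15 t)).congr_deriv ?_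
    unfold sfun
    rw [hc, ha, hb]
    push_cast
    ring
  have := continuous_sfun
  rw [intervalIntegral.integral_eq_sub_of_hasDerivAt (fun t _ => hF t)
    (Continuous.intervalIntegrable (by fun_prop) _ _), hc, ha, hb]
  norm_num

theorem integral_beta : 12.068 ≤ ∫ y, beta y := by
  have h1 := integral_beta1
  have hp := pi_gt_d6
  unfold beta
  rw [integral_add integrable_beta1 integrable_beta2, integral_indicator measurableSet_Ioc,
    integral_indicator measurableSet_Ioo, ← intervalIntegral.integral_of_le (by norm_num),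
    setIntegral_const, Measure.real, Real.volume_Ioo, ENNReal.toReal_ofReal (by linarith),
    smul_eq_mul]
  nlinarith

end Pool.Agent.L2H
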