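import Mathlib

/-! One-dimensional inequalities on a slice: Poincaré on the positivity set, Cauchy–Schwarz,
and the resulting lower bounds for the cost `X + L - ρ / 4`. -/

open Set Real MeasureTheory Filter Topology Asymptotics

namespace Pool.Agent.L2H

variable {f f' : ℝ → ℝ} {l : ℝ}

theorem pos_subset (hz : ∀ x, l ≤ |x| → f x = 0) : {x | 0 < f x} ⊆ Ioc (-l) l := by
  intro x hx
  have : |x| < l := by
    by_contra h
    exact (ne_of_gt hx) (hz x (not_lt.mp h))
  exact ⟨(abs_lt.mp this).1, (abs_lt.mp this).2.le⟩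

theorem vol_pos_ne_top (hz : ∀ x, l ≤ |x| → f x = 0) : volume {x | 0 < f x} ≠ ⊤ :=
  ((measure_mono (pos_subset hz)).trans_lt measure_Ioc_lt_top).ne

theorem integral_pos_part (hf : Continuous f) {g : ℝ → ℝ} (hg : g 0 = 0) :
    ∫ x in {x | 0 < f x}, g (f x) = ∫ x, g (max (f x) 0) := by
  have hP : MeasurableSet {x | 0 < f x} := (isOpen_lt continuous_const hf).measurableSet
  rw [← setIntegral_eq_integral_of_forall_compl_eq_zero (s := {x | 0 < f x})
    (f := fun x => g (max (f x) 0)) (fun x hx => by rw [max_eq_right (not_lt.mp hx), hg])]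
  exact setIntegral_congr_fun hP fun x hx => by
    show g (f x) = g (max (f x) 0)
    rw [max_eq_left (le_of_lt hx)]

theorem integrableOn_pos (hz : ∀ x, l ≤ |x| → f x = 0) {g : ℝ → ℝ} (hg : Continuous g) :
    IntegrableOn g {x | 0 < f x} :=
  (hg.continuousOn.integrableOn_Icc (a := -l) (b := l)).mono_set
    ((pos_subset hz).trans Ioc_subset_Icc_self)

theorem mass_sq_le (hf : Continuous f) (hz : ∀ x, l ≤ |x| → f x = 0) :
    (∫ x, max (f x) 0) ^ 2 ≤ (∫ x, max (f x) 0 ^ 2) * (volume {x | 0 < f x}).toReal := by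
  rw [← integral_pos_part hf (g := fun s => s) rfl,
    ← integral_pos_part hf (g := fun s => s ^ 2) (by simp)]
  have h : ∀ c : ℝ, 0 ≤ (volume {x | 0 < f x}).toReal * (c * c) +
      (-2 * ∫ x in {x | 0 < f x}, f x) * c + ∫ x in {x | 0 < f x}, f x ^ 2 := by
    intro c
    have h0 : 0 ≤ ∫ x in {x | 0 < f x}, (c * c + -2 * c * f x + f x ^ 2) :=
      integral_nonneg fun x => by
        simp only [Pi.zero_apply]
        nlinarith [sq_nonneg (c - f x)]
    rw [integral_add (integrableOn_pos hz (by fun_prop)) (integrableOn_pos hz (by fun_prop)),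
      integral_add (integrableOn_pos hz (by fun_prop)) (integrableOn_pos hz (by fun_prop)),
      setIntegral_const, integral_const_mul] at h0
    simp only [smul_eq_mul, Measure.real] at h0
    linarith
  have := discrim_le_zero h
  unfold discrim at this
  nlinarith

theorem poincare {K : NNReal} (hlip : LipschitzWith K f) (hl : 0 < l)
    (hz : ∀ x, l ≤ |x| → f x = 0) (hd : ∀ x, 0 < f x → HasDerivAt f (f' x) x)
    (hi : IntegrableOn (fun x => f' x ^ 2) {x | 0 < f x}) :
    9.869 * ∫ x, max (f x) 0 ^ 2 ≤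
      (∫ x in {x | 0 < f x}, f' x ^ 2) * (volume {x | 0 < f x}).toReal ^ 2 := by
  have hf := hlip.continuous
  set P := {x | 0 < f x} with hPdef
  have hPo : IsOpen P := isOpen_lt continuous_const hf
  have hP : MeasurableSet P := hPo.measurableSet
  have hfin : volume P ≠ ⊤ := vol_pos_ne_top hz
  rw [← integral_pos_part hf (g := fun s => s ^ 2) (by simp)]
  set L := (volume P).toReal with hL
  rcases (ENNReal.toReal_nonneg : 0 ≤ L).eq_or_lt with h0 | hL0
  · have hv : volume P = 0 := by
      rcases (ENNReal.toReal_eq_zero_iff _).mp h0.symm with h | h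
      · exact h
      · exact absurd h hfin
    rw [setIntegral_measure_zero _ hv, setIntegral_measure_zero _ hv]
    simp
  set κ : ℝ := 3.1415 / L with hκ
  have hκ0 : 0 < κ := by positivity
  have hκL : κ * L = 3.1415 := div_mul_cancel₀ _ hL0.ne'
  have hii : Integrable (P.indicator fun _ => (1 : ℝ)) :=
    (integrable_indicator_iff hP).mpr (integrableOn_const hfin)
  set φ : ℝ → ℝ := fun x => ∫ t in (-l)..x, P.indicator (fun _ => (1 : ℝ)) t with hφ
  have hφc : Continuous φ := hii.continuous_primitive _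
  have hφb : ∀ x, -l ≤ x → 0 ≤ φ x ∧ φ x ≤ L := by
    intro x hx
    have hn : ∀ t, 0 ≤ P.indicator (fun _ => (1 : ℝ)) t := fun t =>
      indicator_nonneg (fun _ _ => zero_le_one) t
    refine ⟨intervalIntegral.integral_nonneg hx fun t _ => hn t, ?_⟩
    have h1 : φ x ≤ ∫ t, P.indicator (fun _ => (1 : ℝ)) t := by
      simp only [hφ]
      rw [intervalIntegral.integral_of_le hx]
      exact setIntegral_le_integral hii (Eventually.of_forall hn)
    rw [integral_indicator hP, setIntegral_const] at h1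
    simpa [Measure.real] using h1
  have hφd : ∀ x ∈ P, HasDerivAt φ 1 x := by
    intro x hx
    have hev : (P.indicator fun _ => (1 : ℝ)) =ᶠ[𝓝 x] fun _ => 1 := by
      filter_upwards [hPo.mem_nhds hx] with t ht using indicator_of_mem ht _
    have := intervalIntegral.integral_hasDerivAt_right (hii.intervalIntegrable (a := -l) (b := x))
      hii.aestronglyMeasurable.stronglyMeasurableAtFilter
      (continuousAt_const.congr hev.symm)
    rwa [indicator_of_mem hx] at this
  have hcos : ∀ x, -l ≤ x → cos (κ * (φ x - L / 2)) ≠ 0 := by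
    intro x hx
    obtain ⟨a, b⟩ := hφb x hx
    refine (cos_pos_of_mem_Ioo ⟨?_, ?_⟩).ne' <;> nlinarith [pi_gt_d4]
  set w : ℝ → ℝ := fun x => κ * tan (κ * (φ x - L / 2)) with hw
  have hwc : ∀ x, -l ≤ x → ContinuousAt w x := by
    intro x hx
    refine continuousAt_const.mul ?_
    exact ContinuousAt.comp (g := tan) (continuousAt_tan.mpr (hcos x hx)) (by fun_prop)
  set G : ℝ → ℝ := fun x => -(w x * max (f x) 0 ^ 2) with hG
  set G' : ℝ → ℝ := fun x =>
    if 0 < f x then -((κ ^ 2 + w x ^ 2) * f x ^ 2 + w x * (2 * f x * f' x)) else 0 with hG'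
  have hGd : ∀ x, -l ≤ x → HasDerivAt G (G' x) x := by
    intro x hx
    by_cases hp : 0 < f x
    · have h1 : HasDerivAt w (κ ^ 2 + w x ^ 2) x := by
        have a := (((hφd x hp).sub_const (L / 2)).const_mul κ)
        have b := ((hasDerivAt_tan (hcos x hx)).comp x a).const_mul κ
        refine b.congr_deriv ?_
        have c := hcos x hx
        simp only [hw]
        generalize κ * (φ x - L / 2) = θ at c ⊢
        have e : 1 / cos θ ^ 2 = 1 + tan θ ^ 2 := by
          rw [tan_eq_sin_div_cos]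
          field_simp
          nlinarith [sin_sq_add_cos_sq θ]
        rw [e]
        ring
      have h2 : HasDerivAt (fun t => f t ^ 2) (2 * f x * f' x) x := by
        simpa using (hd x hp).fun_pow 2
      have h3 := (h1.mul h2).neg
      simp only [hG', if_pos hp]
      refine h3.congr_of_eventuallyEq ?_
      filter_upwards [hPo.mem_nhds hp] with t ht
      simp only [hG, Pi.neg_apply, Pi.mul_apply]
      rw [max_eq_left (le_of_lt ht)]
    · simp only [hG', if_neg hp]
      have hle : f x ≤ 0 := not_lt.mp hp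
      rw [hasDerivAt_iff_isLittleO]
      have h1 : (fun t => max (f t) 0 ^ 2) =O[𝓝 x] fun t => (t - x) ^ 2 := by
        refine IsBigO.of_bound ((K : ℝ) ^ 2) (Eventually.of_forall fun t => ?_)
        have a := hlip.dist_le_mul t x
        rw [Real.dist_eq, Real.dist_eq] at a
        have b : max (f t) 0 ≤ K * |t - x| :=
          max_le (by linarith [le_abs_self (f t - f x)]) (by positivity)
        have c := pow_le_pow_left₀ (le_max_right _ _) b 2
        rw [Real.norm_eq_abs, Real.norm_eq_abs, abs_of_nonneg (sq_nonneg _),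
          abs_of_nonneg (sq_nonneg _)]
        rw [mul_pow, sq_abs] at c
        exact c
      have h2 : (fun t => (t - x) ^ 2) =o[𝓝 x] fun t => t - x :=
        (isLittleO_pow_sub_sub x (by norm_num : 1 < 2)).congr_left fun t => by
          rw [Real.norm_eq_abs, sq_abs]
      have h3 : w =O[𝓝 x] fun _ => (1 : ℝ) := (hwc x hx).tendsto.isBigO_one ℝ
      have h4 := (h3.mul_isLittleO (h1.trans_isLittleO h2)).neg_left
      refine (h4.congr_left fun t => ?_).congr_right fun t => one_mul _
      simp [hG, max_eq_right hle]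
  have hi2 : IntegrableOn (fun x => f' x ^ 2 - κ ^ 2 * f x ^ 2) P :=
    hi.sub (integrableOn_pos hz (by fun_prop))
  have hΦ : Integrable (P.indicator fun x => f' x ^ 2 - κ ^ 2 * f x ^ 2) :=
    (integrable_indicator_iff hP).mpr hi2
  have hmain := intervalIntegral.sub_le_integral_of_hasDeriv_right_of_le (by linarith : -l ≤ l)
    (fun x hx => (hGd x hx.1).continuousAt.continuousWithinAt)
    (fun x hx => (hGd x hx.1.le).hasDerivWithinAt) hΦ.integrableOn
    (fun x _ => by
      by_cases hp : 0 < f x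
      · rw [indicator_of_mem (show x ∈ P from hp)]
        simp only [hG', if_pos hp]
        nlinarith [sq_nonneg (f' x + w x * f x)]
      · rw [indicator_of_notMem (show x ∉ P from hp)]
        simp only [hG', if_neg hp]
        exact le_rfl)
  have e1 : G l = 0 := by simp [hG, hz l (le_abs_self l)]
  have e2 : G (-l) = 0 := by simp [hG, hz (-l) (by rw [abs_neg]; exact le_abs_self l)]
  rw [e1, e2, intervalIntegral.integral_of_le (by linarith), setIntegral_indicator hP,
    inter_eq_right.mpr (pos_subset hz), integral_sub hi (integrableOn_pos hz (by fun_prop)),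
    integral_const_mul] at hmain
  have hρ : 0 ≤ ∫ x in P, f x ^ 2 := integral_nonneg fun x => sq_nonneg _
  have h5 : κ ^ 2 * L ^ 2 = 3.1415 ^ 2 := by rw [← mul_pow, hκL]
  have h6 := mul_le_mul_of_nonneg_right
    (show κ ^ 2 * ∫ x in P, f x ^ 2 ≤ ∫ x in P, f' x ^ 2 by linarith) (sq_nonneg L)
  have h7 : (κ ^ 2 * ∫ x in P, f x ^ 2) * L ^ 2 = 3.1415 ^ 2 * ∫ x in P, f x ^ 2 := by
    rw [← h5]; ring
  rw [h7] at h6
  nlinarith

theorem cost_one {X L ρ s : ℝ} (hX : 0 ≤ X) (hL : 0 ≤ L) (h : 9.869 * ρ ≤ X * L ^ 2)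
    (hρ : ρ ≤ 27.4) (hs : 0 ≤ s) (hs' : s ≤ 1.48) (hsρ : s ^ 3 ≤ ρ) :
    4.053 * s - s ^ 3 / 4 ≤ X + L - ρ / 4 := by
  have hρ0 : 0 ≤ ρ := le_trans (by positivity) hsρ
  obtain ⟨t, ht0, ht⟩ : ∃ t : ℝ, 0 ≤ t ∧ t ^ 3 = ρ :=
    ⟨ρ ^ ((3 : ℕ) : ℝ)⁻¹, rpow_nonneg hρ0 _, rpow_inv_natCast_pow hρ0 (by norm_num)⟩
  have h1 : s ≤ t := by
    refine (pow_le_pow_iff_left₀ hs ht0 (by norm_num : 3 ≠ 0)).mp ?_
    rwa [ht]
  have h2 : t ≤ 3.02 := by
    refine (pow_le_pow_iff_left₀ ht0 (by norm_num) (by norm_num : 3 ≠ 0)).mp ?_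
    rw [ht]; norm_num; linarith
  have h3 : 4.053 * t ≤ X + L := by
    refine (pow_le_pow_iff_left₀ (by positivity) (by positivity) (by norm_num : 3 ≠ 0)).mp ?_
    have a : 27 / 4 * (X * L ^ 2) ≤ (X + L) ^ 3 := by
      nlinarith [mul_nonneg (sq_nonneg (2 * X - L)) (by positivity : 0 ≤ X + 4 * L)]
    rw [mul_pow, ht]
    nlinarith
  have h4 : 0 ≤ (t - s) * (4.053 - (t ^ 2 + t * s + s ^ 2) / 4) :=
    mul_nonneg (by linarith) (by nlinarith)
  rw [← ht]
  nlinarith

theorem cost_two {X L ρ m : ℝ} (hX : 0 ≤ X) (hL : 0 ≤ L) (h : 9.869 * ρ ≤ X * L ^ 2)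
    (hρ : ρ ≤ 27.4) (hm : 1.874 ≤ m) (hmρ : m ^ 2 ≤ ρ * L) : 3.966 ≤ X + L - ρ / 4 := by
  rcases le_total (1.05 ^ 3) ρ with h1 | h1
  · have := cost_one hX hL h hρ (s := 1.05) (by norm_num) (by norm_num) h1
    norm_num at this ⊢
    linarith
  · have h3 : 4.257 ≤ X + L := by
      refine (pow_le_pow_iff_left₀ (by norm_num) (by positivity) (by norm_num : 4 ≠ 0)).mp ?_
      have a : 256 / 27 * (X * L ^ 3) ≤ (X + L) ^ 4 := by
        nlinarith [mul_nonneg (sq_nonneg (3 * X - L))
          (by positivity : 0 ≤ 3 * X ^ 2 + 14 * X * L + 27 * L ^ 2)]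
      have b : 1.874 ^ 2 ≤ m ^ 2 := pow_le_pow_left₀ (by norm_num) hm 2
      have c := mul_le_mul_of_nonneg_right h hL
      norm_num at b ⊢
      nlinarith
    norm_num at h1 h3 ⊢
    linarith

end Pool.Agent.L2H
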