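import Pool.Agent.P.MP_2f6447_an.H.Defs

/-! Transfer of the hypotheses under `u ↦ -u` and under the flip `y ↦ h - y`. -/

open Set Real MeasureTheory Filter Topology

namespace Pool.Agent.L2H

variable {Ω : Set (ℝ × ℝ)} {u : ℝ × ℝ → ℝ}

theorem dx_neg (u : ℝ × ℝ → ℝ) : dx (fun p => -u p) = fun p => -dx u p := by
  funext p
  unfold dx
  rw [fderiv_fun_neg]
  rfl

theorem dy_neg (u : ℝ × ℝ → ℝ) : dy (fun p => -u p) = fun p => -dy u p := by
  funext p
  unfold dy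
  rw [fderiv_fun_neg]
  rfl

theorem Sol.neg (S : Sol Ω u) : Sol Ω fun p => -u p where
  isOpen := S.isOpen
  bdd := S.bdd
  lip := by
    obtain ⟨K, hK⟩ := S.lip
    exact ⟨K, hK.neg⟩
  zero := fun p hp => by rw [S.zero p hp, neg_zero]
  smooth := S.smooth.neg
  helm := fun p hp => by
    rw [dx_neg, dy_neg, dx_neg, dy_neg]
    linarith [S.helm p hp]

/-- the linear reflection in the horizontal axis -/
noncomputable def refl0 : (ℝ × ℝ) ≃L[ℝ] (ℝ × ℝ) :=
  (ContinuousLinearEquiv.refl ℝ ℝ).prodCongr (ContinuousLinearEquiv.neg ℝ)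

theorem refl0_apply (p : ℝ × ℝ) : refl0 p = (p.1, -p.2) := rfl

theorem fderiv_flip (u : ℝ × ℝ → ℝ) (h : ℝ) (p v : ℝ × ℝ) :
    fderiv ℝ (fun q : ℝ × ℝ => u (q.1, h - q.2)) p v = fderiv ℝ u (p.1, h - p.2) (v.1, -v.2) := by
  have e : (fun q : ℝ × ℝ => u (q.1, h - q.2)) = (fun q => u (q + (0, h))) ∘ refl0 := by
    funext q
    simp only [Function.comp, refl0_apply, Prod.mk_add_mk, add_zero]
    rw [sub_eq_neg_add]
  rw [e, ContinuousLinearEquiv.comp_right_fderiv, fderiv_comp_add_right]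
  simp only [refl0_apply, Prod.mk_add_mk, add_zero, ContinuousLinearMap.comp_apply,
    ContinuousLinearEquiv.coe_coe]
  rw [sub_eq_neg_add]

theorem dx_flip (u : ℝ × ℝ → ℝ) (h : ℝ) :
    dx (fun q : ℝ × ℝ => u (q.1, h - q.2)) = fun q => dx u (q.1, h - q.2) := by
  funext p
  unfold dx
  rw [fderiv_flip]
  simp

theorem dy_flip (u : ℝ × ℝ → ℝ) (h : ℝ) :
    dy (fun q : ℝ × ℝ => u (q.1, h - q.2)) = fun q => -dy u (q.1, h - q.2) := by
  funext p
  unfold dy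
  rw [fderiv_flip, ← map_neg]
  simp

theorem Sol.flip (S : Sol Ω u) (h : ℝ) :
    Sol {q : ℝ × ℝ | (q.1, h - q.2) ∈ Ω} fun q => u (q.1, h - q.2) where
  isOpen := S.isOpen.preimage (f := fun q : ℝ × ℝ => (q.1, h - q.2)) (by fun_prop)
  bdd := by
    obtain ⟨W, hW0, hW⟩ := S.box
    refine ((Metric.isBounded_Icc (-W) W).prod (Metric.isBounded_Icc (h - W) (h + W))).subset
      fun q hq => ?_
    obtain ⟨a, b⟩ := hW _ hq
    rw [abs_lt] at a b
    exact ⟨⟨a.1.le, a.2.le⟩, ⟨by linarith [b.2], by linarith [b.1]⟩⟩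
  lip := by
    obtain ⟨K, hK⟩ := S.lip
    have h1 : LipschitzWith 1 fun q : ℝ × ℝ => ((q.1, h - q.2) : ℝ × ℝ) := by
      refine LipschitzWith.of_dist_le_mul fun p q => ?_
      simp only [Prod.dist_eq, dist_sub_left, NNReal.coe_one, one_mul, le_refl]
    exact ⟨_, hK.comp h1⟩
  zero := fun p hp => S.zero _ hp
  smooth := S.smooth.comp (f := fun q : ℝ × ℝ => ((q.1, h - q.2) : ℝ × ℝ))
    (ContDiff.contDiffOn (by fun_prop)) fun q hq => hq
  helm := fun p hp => by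
    rw [dx_flip, dy_flip, dx_flip, dy_neg, dy_flip]
    simp only [neg_neg]
    exact S.helm _ hp

theorem ArcAt.flip {h y : ℝ} (H : ArcAt u (h - y)) :
    ArcAt (fun q : ℝ × ℝ => u (q.1, h - q.2)) y := by
  obtain ⟨a, b, h1, h2, h3, h4⟩ := H
  refine ⟨a, b, h1, h2, h3, ?_⟩
  rw [dx_flip, dy_flip]
  simpa only [neg_sq] using h4

end Pool.Agent.L2H
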