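import Pool.Agent.P.MP_2f6447_an.H.Rb
import Pool.Agent.P.MP_2f6447_an.H.MTail
import Pool.Agent.P.MP_2f6447_an.H.Slice
import Pool.Agent.P.MP_2f6447_an.H.Num
import Pool.Agent.P.MP_2f6447_an.H.Sym

/-! The height bound: in units `lam = 1`, a strip of height at least `2 π` forces area `≥ 38.6`. -/

open Set Real MeasureTheory Filter Topology

namespace Pool.Agent.L2H

variable {Ω : Set (ℝ × ℝ)} {u : ℝ × ℝ → ℝ}

/-- cost of the positive part on the slice at height `y` -/
noncomputable def cost (u : ℝ × ℝ → ℝ) (y : ℝ) : ℝ := enx u y + len u y - rho u y / 4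

theorem rho_nonneg (u : ℝ × ℝ → ℝ) (y : ℝ) : 0 ≤ rho u y := integral_nonneg fun _ => sq_nonneg _

theorem enx_nonneg (u : ℝ × ℝ → ℝ) (y : ℝ) : 0 ≤ enx u y := integral_nonneg fun _ => sq_nonneg _

theorem len_nonneg (u : ℝ × ℝ → ℝ) (y : ℝ) : 0 ≤ len u y := ENNReal.toReal_nonneg

theorem Sol.vol_slice (S : Sol Ω u) (y : ℝ) : volume {x : ℝ | 0 < u (x, y)} ≠ ⊤ := by
  obtain ⟨W, -, hW⟩ := S.box
  exact vol_pos_ne_top (f := fun x => u (x, y)) (l := W) fun x hx =>
    S.slice_zero (fun p hp => (hW p hp).1) y hx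

theorem Sol.integrableOn_enx (S : Sol Ω u) (y : ℝ) :
    IntegrableOn (fun x => dx u (x, y) ^ 2) {x : ℝ | 0 < u (x, y)} := by
  obtain ⟨K, hK0, hK⟩ := S.abs_dx_le
  refine Measure.integrableOn_of_bounded (M := K ^ 2) (S.vol_slice y)
    (((measurable_dx u).comp (by fun_prop)).pow_const 2).aestronglyMeasurable
    (Eventually.of_forall fun x => ?_)
  rw [Real.norm_eq_abs, abs_pow]
  exact pow_le_pow_left₀ (abs_nonneg _) (hK _).1 2

theorem Sol.poincare (S : Sol Ω u) (y : ℝ) : 9.869 * rho u y ≤ enx u y * len u y ^ 2 := by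
  obtain ⟨W, hW0, hW⟩ := S.box
  obtain ⟨K, hK⟩ := S.lip
  exact L2H.poincare (f := fun x => u (x, y)) (f' := fun x => dx u (x, y))
    (hK.comp (LipschitzWith.prodMk_right y)) hW0
    (fun x hx => S.slice_zero (fun p hp => (hW p hp).1) y hx)
    (fun x hx => hasDerivAt_dx
      ((S.contDiffAt (S.mem_of_ne hx.ne')).differentiableAt (by norm_num)))
    (S.integrableOn_enx y)

theorem Sol.mas_sq_le (S : Sol Ω u) (y : ℝ) : mas u y ^ 2 ≤ rho u y * len u y := by
  obtain ⟨W, hW0, hW⟩ := S.box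
  exact mass_sq_le (f := fun x => u (x, y)) (l := W) (S.continuous.comp (by fun_prop))
    fun x hx => S.slice_zero (fun p hp => (hW p hp).1) y hx

theorem Sol.cost_nonneg (S : Sol Ω u) {y : ℝ} (hρ : rho u y ≤ 27.4) : 0 ≤ cost u y := by
  have := cost_one (enx_nonneg u y) (len_nonneg u y) (S.poincare y) hρ (s := 0) le_rfl
    (by norm_num) (by simpa using rho_nonneg u y)
  simpa [cost] using this

theorem Sol.beta_le (S : Sol Ω u) (hup : ∀ p ∈ Ω, 0 < p.2) (hs : Slope u)
    (harc : ∀ y ∈ Ioo 0 π, ArcAt u y) {y : ℝ} (hρ : rho u y ≤ 27.4) : beta y ≤ cost u y := by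
  have hp := pi_gt_d2
  by_cases hy : y ≤ 0 ∨ π ≤ y
  · rw [beta_zero hy]; exact S.cost_nonneg hρ
  rw [not_or, not_le, not_le] at hy
  unfold beta
  rcases le_or_gt y 2.64 with h | h
  · rw [indicator_of_mem (mem_Ioc.mpr ⟨hy.1, h⟩),
      indicator_of_notMem (fun a => absurd a.1 (not_lt.mpr h)), add_zero]
    exact cost_one (enx_nonneg u y) (len_nonneg u y) (S.poincare y) hρ (sfun_nonneg hy.1.le h)
      (sfun_le hy.1.le h) (sfun_cube_le hy.1.le h (rho_nonneg u y) (obstacle S hup hs hy.1 hy.2))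
  · rw [indicator_of_notMem (fun a => absurd a.2 (not_le.mpr h)),
      indicator_of_mem (mem_Ioo.mpr ⟨h, hy.2⟩), zero_add]
    exact cost_two (enx_nonneg u y) (len_nonneg u y) (S.poincare y) hρ
      ((one_sub_cos_ge h.le hy.2.le).trans
        (mtail S hup hy.1 hy.2.le fun t ht => harc t ⟨ht.1, ht.2.trans hy.2⟩))
      (S.mas_sq_le y)

theorem cost_flip (u : ℝ × ℝ → ℝ) (h y : ℝ) :
    cost (fun q : ℝ × ℝ => u (q.1, h - q.2)) (h - y) = cost u y := by
  unfold cost enx len rho
  rw [dx_flip]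
  simp only [sub_sub_cancel]

theorem Sol.beta_two_le (S : Sol Ω u) {h : ℝ} (hh : 2 * π ≤ h) (hΩ : ∀ p ∈ Ω, 0 < p.2 ∧ p.2 < h)
    (hs : Slope u) (hs' : Slope fun q : ℝ × ℝ => u (q.1, h - q.2))
    (harc : ∀ y ∈ Ioo 0 h, ArcAt u y) (hρ : ∀ y, rho u y ≤ 27.4) (y : ℝ) :
    beta y + beta (h - y) ≤ cost u y := by
  have hp := pi_pos
  rcases le_total y π with hy | hy
  · rw [beta_zero (y := h - y) (Or.inr (by linarith)), add_zero]
    exact S.beta_le (fun p hp => (hΩ p hp).1) hs
      (fun t ht => harc t ⟨ht.1, by linarith [ht.2]⟩) (hρ y)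
  · rw [beta_zero (Or.inr hy), zero_add, ← cost_flip u h y]
    refine (S.flip h).beta_le (fun p hp => sub_pos.mp ?_) hs'
      (fun t ht => ArcAt.flip (harc _ ⟨by linarith [ht.2], by linarith [ht.1]⟩)) ?_
    · have := (hΩ _ hp).2
      simp only at this
      linarith
    · have := hρ y
      unfold rho at this ⊢
      simpa only [sub_sub_cancel] using this

theorem Sol.cost_eq (S : Sol Ω u) (y : ℝ) : cost u y =
    ∫ x in {x : ℝ | 0 < u (x, y)}, (dx u (x, y) ^ 2 + 1 - u (x, y) ^ 2 / 4) := by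
  have hc : Continuous fun x => u (x, y) := S.continuous.comp (by fun_prop)
  have i2 : IntegrableOn (fun x => u (x, y) ^ 2 / 4) {x : ℝ | 0 < u (x, y)} :=
    (S.integrable_sq y (g := fun s => s ^ 2 / 4) (by fun_prop) (by simp)).integrableOn
  have i1 : IntegrableOn (fun _ => (1 : ℝ)) {x : ℝ | 0 < u (x, y)} :=
    integrableOn_const (S.vol_slice y)
  have i3 : IntegrableOn (fun x => dx u (x, y) ^ 2 + 1) {x : ℝ | 0 < u (x, y)} :=
    (S.integrableOn_enx y).add i1
  rw [integral_sub i3 i2, integral_add (S.integrableOn_enx y) i1,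
    setIntegral_const, integral_div,
    integral_pos_part (f := fun x => u (x, y)) hc (g := fun s => s ^ 2) (by simp)]
  simp [cost, enx, len, rho, Measure.real]

theorem Sol.cost_add_le (S : Sol Ω u) (y : ℝ) : cost u y + cost (fun p => -u p) y ≤
    ∫ x, Ω.indicator (fun p => dx u p ^ 2 + 1 - u p ^ 2 / 4) (x, y) := by
  obtain ⟨M, hM0, hM⟩ := S.exists_bound
  obtain ⟨K, hK0, hK⟩ := S.abs_dx_le
  set F : ℝ × ℝ → ℝ := fun p => dx u p ^ 2 + 1 - u p ^ 2 / 4 with hF
  have hFm : Measurable F :=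
    (((measurable_dx u).pow_const 2).add_const 1).sub
      ((S.continuous.measurable.pow_const 2).div_const 4)
  have hFb : ∀ p, |F p| ≤ K ^ 2 + 1 + M ^ 2 := fun p => by
    have a := sq_le_sq' (abs_le.mp (hM p)).1 (abs_le.mp (hM p)).2
    have b := sq_le_sq' (abs_le.mp (hK p).1).1 (abs_le.mp (hK p).1).2
    simp only [hF]
    rw [abs_le]
    constructor <;> nlinarith [sq_nonneg (u p), sq_nonneg (dx u p)]
  have hi := S.integrable_fst hFm hFb y
  have hc : Continuous fun x => u (x, y) := S.continuous.comp (by fun_prop)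
  have hP : MeasurableSet {x : ℝ | 0 < u (x, y)} := (isOpen_lt continuous_const hc).measurableSet
  have hN : MeasurableSet {x : ℝ | 0 < -u (x, y)} :=
    (isOpen_lt continuous_const hc.neg).measurableSet
  have e1 : cost u y = ∫ x in {x : ℝ | 0 < u (x, y)}, Ω.indicator F (x, y) := by
    rw [S.cost_eq]
    exact setIntegral_congr_fun hP fun x hx =>
      (indicator_of_mem (S.mem_of_ne (ne_of_gt hx)) F).symm
  have e2 : cost (fun p => -u p) y = ∫ x in {x : ℝ | 0 < -u (x, y)}, Ω.indicator F (x, y) := by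
    rw [S.neg.cost_eq, dx_neg]
    refine setIntegral_congr_fun hN fun x hx => ?_
    have hx' : (x, y) ∈ Ω := S.mem_of_ne fun h0 => by
      have : 0 < -u (x, y) := hx
      rw [h0] at this
      simp at this
    simp only [indicator_of_mem hx', hF, neg_sq]
  have hd : Disjoint {x : ℝ | 0 < u (x, y)} {x : ℝ | 0 < -u (x, y)} :=
    disjoint_left.mpr fun x h1 h2 => by
      have a : 0 < u (x, y) := h1
      have b : 0 < -u (x, y) := h2
      linarith
  rw [e1, e2, ← setIntegral_union hd hN hi.integrableOn hi.integrableOn,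
    ← integral_add_compl (hP.union hN) hi]
  refine le_add_of_nonneg_right (setIntegral_nonneg (hP.union hN).compl fun x hx => ?_)
  have h0 : u (x, y) = 0 := by
    simp only [mem_compl_iff, mem_union, mem_ofPred_eq, not_or, not_lt] at hx
    linarith [hx.1, hx.2]
  by_cases hm : (x, y) ∈ Ω
  · rw [indicator_of_mem hm]
    simp only [hF, h0]
    nlinarith [sq_nonneg (dx u (x, y))]
  · rw [indicator_of_notMem hm]

/-- **Height bound.** -/
theorem height_bound (S : Sol Ω u) {h A : ℝ} (hh : 2 * π ≤ h) (hΩ : ∀ p ∈ Ω, 0 < p.2 ∧ p.2 < h)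
    (arcP : ∀ y ∈ Ioo 0 h, ArcAt u y) (arcN : ∀ y ∈ Ioo 0 h, ArcAt (fun p => -u p) y)
    (sBP : Slope u) (sBN : Slope fun p => -u p)
    (sTP : Slope fun q : ℝ × ℝ => u (q.1, h - q.2))
    (sTN : Slope fun q : ℝ × ℝ => -u (q.1, h - q.2))
    (hA : (volume Ω).toReal = A) (hu : ∫ p in Ω, u p ^ 2 = A)
    (hx : ∫ p in Ω, dx u p ^ 2 = A / 2) (hy : ∫ p in Ω, dy u p ^ 2 = A / 2) : 38.6 ≤ A := by
  by_contra hlt
  rw [not_le] at hlt
  have hρP : ∀ y, rho u y ≤ 27.4 := fun y => by
    have := S.rho_le y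
    rw [hu, hy] at this
    linarith
  have hρN : ∀ y, rho (fun p => -u p) y ≤ 27.4 := fun y => by
    have := S.neg.rho_le y
    rw [dy_neg] at this
    simp only [neg_sq] at this
    rw [hu, hy] at this
    linarith
  obtain ⟨M, hM0, hM⟩ := S.exists_bound
  obtain ⟨K, hK0, hK⟩ := S.abs_dx_le
  have i1 : IntegrableOn (fun p => u p ^ 2 / 4) Ω :=
    (S.integrableOn (S.continuous.measurable.pow_const 2) (M := M ^ 2) fun p => by
      rw [abs_pow]; exact pow_le_pow_left₀ (abs_nonneg _) (hM p) 2).div_const 4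
  have i2 : IntegrableOn (fun p => dx u p ^ 2) Ω :=
    S.integrableOn ((measurable_dx u).pow_const 2) (M := K ^ 2) fun p => by
      rw [abs_pow]; exact pow_le_pow_left₀ (abs_nonneg _) (hK p).1 2
  have i0 : IntegrableOn (fun _ => (1 : ℝ)) Ω := integrableOn_const S.vol_ne_top
  have i3 : Integrable (Ω.indicator fun p => dx u p ^ 2 + 1 - u p ^ 2 / 4)
      ((volume : Measure ℝ).prod volume) :=
    (integrable_indicator_iff S.isOpen.measurableSet).mpr ((i2.add i0).sub i1)
  have e1 : ∫ p in Ω, (dx u p ^ 2 + 1 - u p ^ 2 / 4) = 5 / 4 * A := by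
    have i4 : IntegrableOn (fun p => dx u p ^ 2 + 1) Ω := i2.add i0
    rw [integral_sub i4 i1, integral_add i2 i0, setIntegral_const, integral_div, hx, hu,
      Measure.real, hA, smul_eq_mul]
    ring
  rw [← integral_indicator S.isOpen.measurableSet, Measure.volume_eq_prod,
    integral_prod_symm _ i3] at e1
  have ib : Integrable fun y => beta (h - y) := integrable_beta.comp_sub_left h
  have e2 : ∫ y, 2 * (beta y + beta (h - y)) = 4 * ∫ y, beta y := by
    rw [integral_const_mul, integral_add integrable_beta ib, integral_sub_left_eq_self beta]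
    ring
  have e3 := integral_mono ((integrable_beta.add ib).const_mul 2) i3.integral_prod_right
    fun y => by
      have a := S.beta_two_le hh hΩ sBP sTP arcP hρP y
      have b := S.neg.beta_two_le hh hΩ sBN sTN arcN hρN y
      have c := S.cost_add_le y
      show 2 * (beta y + beta (h - y)) ≤ _
      linarith
  have e4 := integral_beta
  simp only [Pi.add_apply] at e3
  rw [e1, e2] at e3
  linarith

end Pool.Agent.L2H
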