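import Pool.Agent.P.MP_2f6447_an.H.Defs

/-! Second derivative test and the core of the maximum principle in a thin strip. -/

open Set MeasureTheory Filter Topology

namespace Pool.Agent.L2H

theorem second_test {g g' : ℝ → ℝ} {t c : ℝ} (h1 : ∀ᶠ s in 𝓝 t, HasDerivAt g (g' s) s)
    (h2 : HasDerivAt g' c t) (hm : IsLocalMax g t) : g' t = 0 ∧ c ≤ 0 := by
  have ht : HasDerivAt g (g' t) t := h1.self_of_nhds
  have h0 : g' t = 0 := hm.hasDerivAt_eq_zero ht
  refine ⟨h0, ?_⟩
  by_contra hc
  have hc' : 0 < c := not_le.mp hc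
  have hd : deriv g =ᶠ[𝓝 t] g' := h1.mono fun s hs => hs.deriv
  have hdd : deriv (deriv g) t = c := by rw [hd.deriv_eq, h2.deriv]
  have hmin : IsLocalMin g t :=
    isLocalMin_of_deriv_deriv_pos (by rw [hdd]; exact hc') (by rw [ht.deriv, h0]) ht.continuousAt
  have hconst : g =ᶠ[𝓝 t] fun _ => g t := by
    filter_upwards [hm, hmin] with s a b using le_antisymm a b
  have hz : g' =ᶠ[𝓝 t] fun _ => 0 := by
    have := hconst.eventually_nhds
    filter_upwards [this, h1] with s hs hs1
    have h3 : HasDerivAt g 0 s := (hasDerivAt_const s (g t)).congr_of_eventuallyEq hs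
    exact hs1.unique h3
  have : HasDerivAt g' 0 t := (hasDerivAt_const t (0 : ℝ)).congr_of_eventuallyEq hz
  have := h2.unique this
  linarith

/-- No positive local maximum of `f / cos (κ (y - c))` for a subsolution, `κ > 1`. -/
theorem no_pos_max {f : ℝ × ℝ → ℝ} {p : ℝ × ℝ} {κ c : ℝ} (hκ : 1 < κ)
    (hf : ContDiffAt ℝ 2 f p) (hsub : 0 ≤ dx (dx f) p + dy (dy f) p + f p) (hpos : 0 < f p)
    (hcos : 0 < Real.cos (κ * (p.2 - c)))
    (hm : IsLocalMax (fun q : ℝ × ℝ => f q / Real.cos (κ * (q.2 - c))) p) : False := by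
  obtain ⟨x, y⟩ := p
  set φ : ℝ → ℝ := fun s => Real.cos (κ * (s - c)) with hφ
  have hφ0 : 0 < φ y := hcos
  have hev : ∀ᶠ q in 𝓝 ((x, y) : ℝ × ℝ), DifferentiableAt ℝ f q :=
    (hf.eventually (by simp)).mono fun q hq => hq.differentiableAt (by norm_num)
  have hcx : ContinuousAt (fun t : ℝ => ((t, y) : ℝ × ℝ)) x := by fun_prop
  have hcy : ContinuousAt (fun t : ℝ => ((x, t) : ℝ × ℝ)) y := by fun_prop
  have hφc : Continuous φ := by rw [hφ]; fun_prop
  -- the function F = f - M φ has a local maximum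
  set M : ℝ := f (x, y) / φ y with hM
  have hMpos : 0 < M := div_pos hpos hφ0
  have hevφ : ∀ᶠ q in 𝓝 ((x, y) : ℝ × ℝ), 0 < φ q.2 := by
    have : ContinuousAt (fun q : ℝ × ℝ => φ q.2) (x, y) := (hφc.comp continuous_snd).continuousAt
    exact this.eventually (lt_mem_nhds hφ0)
  have hF : IsLocalMax (fun q : ℝ × ℝ => f q - M * φ q.2) (x, y) := by
    filter_upwards [hm, hevφ] with q hq hq0
    have h1 : f q / φ q.2 ≤ M := hq
    rw [div_le_iff₀ hq0] at h1
    have h2 : M * φ y = f (x, y) := by rw [hM]; field_simp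
    linarith
  have hFx : IsLocalMax (fun t : ℝ => f (t, y) - M * φ y) x :=
    IsLocalMax.comp_continuous (g := fun t : ℝ => ((t, y) : ℝ × ℝ)) (b := x) hF hcx
  have hFy : IsLocalMax (fun t : ℝ => f (x, t) - M * φ t) y := hF.comp_continuous hcy
  have hx := second_test (g' := fun t => dx f (t, y)) (c := dx (dx f) (x, y))
    ((hcx.eventually hev).mono fun t ht => (hasDerivAt_dx ht).sub_const _)
    (hasDerivAt_dx ((contDiffAt_dx hf).differentiableAt (by norm_num))) hFx
  have hφ1 : ∀ s, HasDerivAt φ (-(κ * Real.sin (κ * (s - c)))) s := by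
    intro s
    have := (((hasDerivAt_id s).sub_const c).const_mul κ).cos
    simp only [id, mul_one] at this
    refine this.congr_deriv ?_
    ring
  have hφ2 : HasDerivAt (fun s => -(κ * Real.sin (κ * (s - c)))) (-(κ ^ 2 * φ y)) y := by
    have := ((((hasDerivAt_id y).sub_const c).const_mul κ).sin.const_mul κ).neg
    simp only [id, mul_one] at this
    refine this.congr_deriv ?_
    rw [hφ]; ring
  have hy := second_test (g' := fun t => dy f (x, t) - M * (-(κ * Real.sin (κ * (t - c)))))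
    (c := dy (dy f) (x, y) - M * (-(κ ^ 2 * φ y)))
    ((hcy.eventually hev).mono fun t ht => (hasDerivAt_dy ht).sub ((hφ1 t).const_mul M))
    ((hasDerivAt_dy ((contDiffAt_dy hf).differentiableAt (by norm_num))).sub (hφ2.const_mul M)) hFy
  have h2 : M * φ y = f (x, y) := by rw [hM]; field_simp
  have h3 := hx.2
  have h4 := hy.2
  have h5 : M * (-(κ ^ 2 * φ y)) = -(κ ^ 2 * f (x, y)) := by rw [← h2]; ring
  rw [h5] at h4
  have h6 : 1 < κ ^ 2 := by nlinarith
  nlinarith

end Pool.Agent.L2H
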