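import Pool.Agent.P.MP_2f6447_an.H.Cmp

/-! The `L²` obstacle: slope one at the wall forces mass on every slice at height `Y < π`. -/

open Set Real MeasureTheory Filter Topology

namespace Pool.Agent.L2H

theorem Sol.slice_zero {Ω : Set (ℝ × ℝ)} {u : ℝ × ℝ → ℝ} (S : Sol Ω u) {l : ℝ}
    (hbox : ∀ p ∈ Ω, |p.1| < l) {x : ℝ} (y : ℝ) (hx : l ≤ |x|) : u (x, y) = 0 :=
  S.zero _ fun h => absurd (hbox _ h) (not_lt.mpr hx)

theorem Sol.integral_slice {Ω : Set (ℝ × ℝ)} {u : ℝ × ℝ → ℝ} (S : Sol Ω u) {l : ℝ} (hl : 0 < l)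
    (hbox : ∀ p ∈ Ω, |p.1| < l) (y : ℝ) {g : ℝ → ℝ} (hg : g 0 = 0) :
    ∫ x in (-l)..l, g (u (x, y)) = ∫ x, g (u (x, y)) := by
  rw [intervalIntegral.integral_of_le (by linarith)]
  refine setIntegral_eq_integral_of_forall_compl_eq_zero fun x hx => ?_
  have : l ≤ |x| := by
    rw [mem_Ioc, not_and_or, not_lt, not_le] at hx
    rcases hx with h | h
    · exact le_abs.mpr (Or.inr (by linarith))
    · exact le_abs.mpr (Or.inl h.le)
  rw [S.slice_zero hbox y this, hg]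

theorem Sol.exists_bound {Ω : Set (ℝ × ℝ)} {u : ℝ × ℝ → ℝ} (S : Sol Ω u) :
    ∃ M : ℝ, 0 ≤ M ∧ ∀ p, |u p| ≤ M := by
  obtain ⟨M, hM⟩ := S.bdd.isCompact_closure.exists_bound_of_continuousOn
    S.continuous.continuousOn
  refine ⟨max M 0, le_max_right _ _, fun p => ?_⟩
  by_cases hp : p ∈ Ω
  · exact (hM p (subset_closure hp)).trans (le_max_left _ _)
  · rw [S.zero p hp, abs_zero]; exact le_max_right _ _

theorem obstacle_aux {Ω : Set (ℝ × ℝ)} {u : ℝ × ℝ → ℝ} (S : Sol Ω u) (hup : ∀ p ∈ Ω, 0 < p.2)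
    (hs : Slope u) {Y l α : ℝ} (hY : 0 < Y) (hY' : Y < π) (hl : 0 < l)
    (hbox : ∀ p ∈ Ω, |p.1| < l) (hne : ∀ n : ℤ, ((n : ℝ) * (π / l)) ^ 2 ≠ 1)
    (hα : α = (sin Y - Y * cos Y) / (2 * sin Y)) :
    sin Y ^ 2 ≤ rho u Y * (1 / l + 1 / (4 * √α)) := by
  have hsin : 0 < sin Y := sin_pos_of_pos_of_lt_pi hY hY'
  have hα0 : 0 < α := by
    rw [hα]; exact div_pos (sin_sub_mul_cos_pos hY hY') (by positivity)
  have hsq : 0 < √α := sqrt_pos.mpr hα0
  obtain ⟨M, hM0, hM⟩ := S.exists_bound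
  set f : ℝ → ℝ := fun x => max (u (x, Y)) 0 with hf
  have hfc : Continuous f := (S.continuous.comp (by fun_prop)).max continuous_const
  have hf0 : ∀ x, 0 ≤ f x := fun x => le_max_right _ _
  have hfM : ∀ x, f x ≤ M := fun x => max_le ((le_abs_self _).trans (hM _)) hM0
  have hρ : ∫ x in (-l)..l, f x ^ 2 = rho u Y :=
    S.integral_slice hl hbox Y (g := fun s => max s 0 ^ 2) (by simp)
  have key : ∀ ε : ℝ, 0 < ε → sin Y ^ 2 ≤
      (rho u Y + 2 * l * (4 * ε * M + 4 * ε ^ 2)) * (1 / l + 1 / (4 * √α)) := by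
    intro ε hε
    have he : (fun x => f x + ε) (-l) = (fun x => f x + ε) l := by
      simp only [hf]
      rw [S.slice_zero hbox Y (by rw [abs_neg, abs_of_pos hl]),
        S.slice_zero hbox Y (by rw [abs_of_pos hl])]
    obtain ⟨s, c, hc⟩ := exists_tp (f := fun x => f x + ε) (hfc.add continuous_const) hl he hε
    have hre : ∀ x ∈ Icc (-l) l, max (u (x, Y)) 0 ≤ (tp s c (π / l) x).re := by
      intro x hx
      have h1 := (Complex.abs_re_le_norm _).trans (hc x hx)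
      rw [Complex.sub_re, Complex.ofReal_re] at h1
      have := (abs_le.mp h1).1
      change f x ≤ _
      linarith
    have hnorm : ∀ x ∈ Icc (-l) l, ‖tp s c (π / l) x‖ ^ 2 ≤
        f x ^ 2 + (4 * ε * M + 4 * ε ^ 2) := by
      intro x hx
      have h1 := norm_le_insert' (tp s c (π / l) x) ((f x + ε : ℝ) : ℂ)
      have h2 : ‖((f x + ε : ℝ) : ℂ)‖ = f x + ε := by
        rw [Complex.norm_real, Real.norm_eq_abs, abs_of_pos (by linarith [hf0 x])]
      have h3 : ‖tp s c (π / l) x‖ ≤ f x + 2 * ε := by linarith [hc x hx]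
      have h4 := pow_le_pow_left₀ (norm_nonneg _) h3 2
      nlinarith [hfM x, hf0 x]
    have hP : 2 * l * ∑ n ∈ s, ‖c n‖ ^ 2 ≤ rho u Y + 2 * l * (4 * ε * M + 4 * ε ^ 2) := by
      rw [← parseval_tp s c hl, ← hρ]
      have i1 : IntervalIntegrable (fun x => ‖tp s c (π / l) x‖ ^ 2) volume (-l) l :=
        ((continuous_tp s c (π / l)).norm.pow 2).intervalIntegrable _ _
      have i2 : IntervalIntegrable (fun x => f x ^ 2) volume (-l) l :=
        (hfc.pow 2).intervalIntegrable _ _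
      have i3 : IntervalIntegrable (fun _ : ℝ => 4 * ε * M + 4 * ε ^ 2) volume (-l) l :=
        continuous_const.intervalIntegrable _ _
      have := intervalIntegral.integral_mono_on (by linarith : -l ≤ l) i1 (i2.add i3) hnorm
      rw [intervalIntegral.integral_add i2 i3, intervalIntegral.integral_const] at this
      simp only [smul_eq_mul] at this
      linarith
    have h1 := one_le_sum S hup hs hY hY' hl hbox hne s c hre
    have h2 : ∑ n ∈ s, ‖c n‖ / Dv (((n : ℝ) * (π / l)) ^ 2) Y ≤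
        (∑ n ∈ s, ‖c n‖ * (1 / (1 + α * ((n : ℝ) * (π / l)) ^ 2))) / sin Y := by
      rw [Finset.sum_div]
      refine Finset.sum_le_sum fun n _ => ?_
      have hD := Dv_lower (hne n) (sq_nonneg _) hY.le hY'.le
      have e : sin Y + ((n : ℝ) * (π / l)) ^ 2 * ((sin Y - Y * cos Y) / 2) =
          (1 + α * ((n : ℝ) * (π / l)) ^ 2) * sin Y := by
        rw [hα]; field_simp
      rw [e] at hD
      rw [mul_one_div, div_div]
      exact div_le_div_of_nonneg_left (norm_nonneg _) (by positivity) hD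
    have h3 : sin Y ≤ ∑ n ∈ s, ‖c n‖ * (1 / (1 + α * ((n : ℝ) * (π / l)) ^ 2)) := by
      have := h1.trans h2
      rwa [le_div_iff₀ hsin, one_mul] at this
    have h4 := Finset.sum_mul_sq_le_sq_mul_sq s (fun n => ‖c n‖)
      (fun n => 1 / (1 + α * ((n : ℝ) * (π / l)) ^ 2))
    have h5 := sum_int_le hα0 (Δ := π / l) (by positivity) s
    have h6 : ∑ n ∈ s, (1 / (1 + α * ((n : ℝ) * (π / l)) ^ 2)) ^ 2 ≤
        2 * l * (1 / l + 1 / (4 * √α)) := by
      have e : 2 + π / (2 * √α) / (π / l) = 2 * l * (1 / l + 1 / (4 * √α)) := by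
        field_simp
        ring
      rw [← e]
      refine le_of_eq_of_le (Finset.sum_congr rfl fun n _ => ?_) h5
      rw [div_pow, one_pow]
    have h7 := pow_le_pow_left₀ hsin.le h3 2
    have h8 : 0 ≤ ∑ n ∈ s, ‖c n‖ ^ 2 := Finset.sum_nonneg fun n _ => sq_nonneg _
    have h9 := mul_le_mul_of_nonneg_left h6 h8
    have h10 := mul_le_mul_of_nonneg_right hP
      (by positivity : (0 : ℝ) ≤ 1 / l + 1 / (4 * √α))
    nlinarith
  have hc : Continuous fun ε : ℝ =>
      (rho u Y + 2 * l * (4 * ε * M + 4 * ε ^ 2)) * (1 / l + 1 / (4 * √α)) := by fun_prop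
  have ht := (hc.tendsto 0).mono_left (nhdsWithin_le_nhds (s := Ioi (0 : ℝ)))
  have := ge_of_tendsto ht (eventually_nhdsWithin_of_forall fun ε hε => key ε hε)
  simpa using this

theorem obstacle {Ω : Set (ℝ × ℝ)} {u : ℝ × ℝ → ℝ} (S : Sol Ω u) (hup : ∀ p ∈ Ω, 0 < p.2)
    (hs : Slope u) {Y : ℝ} (hY : 0 < Y) (hY' : Y < π) :
    8 * sin Y ^ 3 * (sin Y - Y * cos Y) ≤ rho u Y ^ 2 := by
  set α := (sin Y - Y * cos Y) / (2 * sin Y) with hα
  have hsin : 0 < sin Y := sin_pos_of_pos_of_lt_pi hY hY'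
  have hα0 : 0 < α := div_pos (sin_sub_mul_cos_pos hY hY') (by positivity)
  have hsq : 0 < √α := sqrt_pos.mpr hα0
  obtain ⟨W, hW, hbox⟩ := S.box
  have hl : Tendsto (fun N : ℕ => π * ((N : ℝ) + 1 / 2)) atTop atTop :=
    (tendsto_atTop_add_const_right _ _ tendsto_natCast_atTop_atTop).const_mul_atTop pi_pos
  have ht : Tendsto (fun N : ℕ => rho u Y * (1 / (π * ((N : ℝ) + 1 / 2)) + 1 / (4 * √α))) atTop
      (𝓝 (rho u Y * (0 + 1 / (4 * √α)))) :=
    ((tendsto_const_nhds.div_atTop hl).add tendsto_const_nhds).const_mul _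
  have h1 : sin Y ^ 2 ≤ rho u Y * (0 + 1 / (4 * √α)) := by
    refine ge_of_tendsto ht ?_
    filter_upwards [hl.eventually_ge_atTop W] with N hN
    refine obstacle_aux S hup hs hY hY' (by positivity) (fun p hp => (hbox p hp).1.trans_le hN)
      ?_ hα
    intro n hn
    have e : (n : ℝ) * (π / (π * ((N : ℝ) + 1 / 2))) = 2 * n / (2 * N + 1) := by
      field_simp
    rw [e, div_pow, div_eq_one_iff_eq (by positivity)] at hn
    have h2 : (2 * n) ^ 2 = (2 * (N : ℤ) + 1) ^ 2 := by exact_mod_cast hn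
    rcases sq_eq_sq_iff_eq_or_eq_neg.mp h2 with h | h <;> omega
  rw [zero_add, mul_one_div, le_div_iff₀ (by positivity)] at h1
  have h2 := pow_le_pow_left₀ (by positivity) h1 2
  have e : (sin Y ^ 2 * (4 * √α)) ^ 2 = 8 * sin Y ^ 3 * (sin Y - Y * cos Y) := by
    rw [mul_pow, mul_pow, sq_sqrt hα0.le, hα]
    field_simp
    ring
  rwa [e] at h2

end Pool.Agent.L2H
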